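import Pool.Agent.P.MP_7da47b_al.Family

/-!
The core of a graph and the multiplicity data of the level algebras.
-/

namespace Pool.Agent.P.MP_7da47b_al

open Module Function FRep Finset Matrix

universe u

/-- An enumeration of the vertices that receive edges, each receiving one from such a vertex. -/
structure Core (G : FinGraph) (n : ℕ) where
  ι : Fin n → Fin G.nV
  inj : Injective ι
  cr : Fin G.nE → Fin n
  hcr : ∀ e, ι (cr e) = G.r e
  hin : ∀ w, ∃ e w', cr e = w ∧ G.s e = ι w'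

namespace Core

variable {G : FinGraph} {n : ℕ} (C : Core G n)

def adj : Matrix (Fin n) (Fin n) ℕ :=
  Matrix.of fun v z => ∑ e ∈ univ.filter (fun e => G.s e = C.ι v), if C.cr e = z then 1 else 0

lemma sum_adj (v : Fin n) (g : Fin n → ℕ) :
    ∑ e ∈ univ.filter (fun e => G.s e = C.ι v), g (C.cr e) = ∑ z, C.adj v z * g z := by
  simp only [adj, Matrix.of_apply, Finset.sum_mul]
  rw [Finset.sum_comm]
  refine Finset.sum_congr rfl fun e _ => ?_
  simp

def ctm {i : ℕ} (γ : Pth G (i + 1)) : Fin n := C.cr γ.1.2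

lemma ι_ctm {i : ℕ} (γ : Pth G (i + 1)) : C.ι (C.ctm γ) = tm γ := C.hcr _

def dim (i : ℕ) (w : Fin n) : ℕ := ∑ γ : Pth G i, if tm γ = C.ι w then 1 else 0

lemma dim_succ (i : ℕ) (w : Fin n) : C.dim (i + 1) w
    = ∑ γ : Pth G i, ∑ e ∈ univ.filter (fun e => G.s e = tm γ), if C.cr e = w then 1 else 0 := by
  rw [← sum_pth_succ i (fun _ e => if C.cr e = w then 1 else 0)]
  refine Finset.sum_congr rfl fun γ _ => ?_
  rw [← C.ι_ctm]
  simp only [C.inj.eq_iff]
  rfl

lemma dim_one (w : Fin n) : C.dim 1 w = ∑ e, if C.cr e = w then 1 else 0 := by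
  rw [dim_succ]
  exact Finset.sum_fiberwise (s := univ) G.s (fun e => if C.cr e = w then 1 else 0)

lemma dim_succ_succ (i : ℕ) (w : Fin n) :
    C.dim (i + 2) w = ∑ v, C.adj v w * C.dim (i + 1) v := by
  rw [dim_succ]
  simp only [dim, Finset.mul_sum]
  rw [Finset.sum_comm]
  refine Finset.sum_congr rfl fun γ _ => ?_
  rw [← C.ι_ctm γ]
  simp only [C.inj.eq_iff]
  simp [adj]

end Core

namespace Fam

variable {L : Type u} [Ring L] {G : FinGraph} {Φ : Fam L G} {k : Type u} [Field k] [Algebra k L]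
  {n : ℕ} (C : Core G n)

lemma exists_GP (i : ℕ) (w : Fin n) : ∃ (u : Fin n) (x y : L), Φ.GP k i (C.ι w) x y ∧
    Φ.p (C.ι u) * x = x ∧ y * Φ.p (C.ι u) = y := by
  induction i with
  | zero => exact ⟨w, _, _, GP.pth (i := 0) (C.ι w), Φ.pp_self _, Φ.pp_self _⟩
  | succ i ih =>
    obtain ⟨u, x, y, h, hx, hy⟩ := ih
    obtain ⟨e, w', he, hs⟩ := C.hin u
    refine ⟨w', _, _, h.prepend e (by rw [← C.hcr, he, hx]), ?_, ?_⟩
    · rw [← hs, ← mul_assoc, Φ.ps]
    · rw [← hs, mul_assoc, Φ.tp]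

lemma rk_split {j : ℕ} {v : Fin G.nV} {x y : L} (h : Φ.GP k j v x y) {D : Subalgebra k L}
    (hm : x * y ∈ D) (hm' : ∀ e, x * Φ.s e * (Φ.t e * y) ∈ D) (ρ : FRep k D) :
    rk ⟨x * y, hm⟩ ρ
      = ∑ e ∈ univ.filter (fun e => G.s e = v), rk ⟨x * Φ.s e * (Φ.t e * y), hm' e⟩ ρ := by
  rw [Finset.sum_subtype (p := fun e => G.s e = v) _ (by simp)]
  have hprod : ∀ e f : {e // G.s e = v}, x * Φ.s e * (Φ.t e * y) * (x * Φ.s f * (Φ.t f * y))
      = if e = f then x * Φ.s e * (Φ.t e * y) else 0 := by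
    rintro ⟨e, he⟩ ⟨f, hf⟩
    have : x * Φ.s e * (Φ.t e * y) * (x * Φ.s f * (Φ.t f * y))
        = x * Φ.s e * (Φ.t e * (y * x) * Φ.s f) * (Φ.t f * y) := by simp only [mul_assoc]
    have h1 : Φ.t e * Φ.p v = Φ.t e := he ▸ Φ.tp e
    rw [this, h.ba, h1, Φ.ts]
    by_cases hef : e = f
    · subst hef
      rw [if_pos rfl, if_pos rfl, mul_assoc x, Φ.sp]
    · rw [if_neg hef, if_neg (fun h => hef (congrArg Subtype.val h))]
      simp
  have hsum : ∑ e : {e // G.s e = v}, x * Φ.s e * (Φ.t e * y) = x * y := by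
    rw [← Finset.sum_subtype (p := fun e => G.s e = v) (univ.filter fun e => G.s e = v) (by simp)
      (fun e => x * Φ.s e * (Φ.t e * y))]
    conv_rhs => rw [← h.ap, ← Φ.ck2, Finset.mul_sum, Finset.sum_mul]
    exact Finset.sum_congr rfl fun e _ => by simp only [mul_assoc]
  have := sum_rk_eq ρ (J := Unit) (J' := {e // G.s e = v}) (fun _ => ⟨x * y, hm⟩)
    (fun e => ⟨x * Φ.s e * (Φ.t e * y), hm' e⟩) (fun _ => Subtype.ext h.idem)
    (fun e => Subtype.ext (by simpa using hprod e e))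
    (fun _ e => ⟨x * Φ.s e * (Φ.t e * y), hm' e⟩)
    (fun _ e => Subtype.ext (by
      show x * y * (x * Φ.s e * (Φ.t e * y)) = x * Φ.s e * (Φ.t e * y)
      rw [mul_assoc x (Φ.s e), ← mul_assoc (x * y), mul_assoc x y, h.ba, h.ap]))
    (fun e _ => ⟨x * Φ.s e * (Φ.t e * y), hm' e⟩)
    (fun e _ => Subtype.ext (by simpa using hprod e e))
    (fun _ _ => by
      apply Subtype.ext
      simp only [MulMemClass.coe_mul, AddSubmonoidClass.coe_finsetSum, if_true, hprod]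
      exact hsum)
    (fun e f => by
      apply Subtype.ext
      simp only [Finset.univ_unique, Finset.sum_singleton, MulMemClass.coe_mul, hprod]
      split_ifs <;> rfl)
  simpa using this

lemma rk_GP_Srep {N : ℕ} {D : Subalgebra k L} (hD : ∀ x, x ∈ D ↔ Φ.Bd k x N N) (z : Fin n) :
    ∀ (i j : ℕ) (_ : j + i = N) (v : Fin n) (x y : L) (_ : Φ.GP k j (C.ι v) x y)
      (hm : x * y ∈ D), rk ⟨x * y, hm⟩ (Φ.Srep hD (C.ι z)) = (C.adj ^ i) v z := by
  intro i
  induction i with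
  | zero =>
    intro j hj v x y h hm
    obtain rfl : j = N := by omega
    rw [rk_Srep hD h, pow_zero, Matrix.one_apply]
    simp only [C.inj.eq_iff]
  | succ i ih =>
    intro j hj v x y h hm
    have hm' : ∀ e, x * Φ.s e * (Φ.t e * y) ∈ D := fun e => (hD _).2
      (((h.ha.succ.mul (Bd.s e 0)).mul ((Bd.t e 0).mul h.hb.succ)).mono (by omega))
    rw [rk_split h hm hm', pow_succ', Matrix.mul_apply, ← C.sum_adj v (fun z' => (C.adj ^ i) z' z)]
    refine Finset.sum_congr rfl fun e he => ?_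
    have he' : G.s e = C.ι v := by simpa using he
    refine ih (j + 1) (by omega) _ _ _ ?_ _
    rw [C.hcr]
    exact GP.append e (he' ▸ h)

lemma exists_endMB {i : ℕ} {D : Subalgebra k L} (hD : ∀ x, x ∈ D ↔ Φ.Bd k x (i + 1) (i + 1)) :
    ∃ B : MB k D n, (∀ w, finrank k (B.S w).W = C.dim (i + 1) w) ∧
      ∀ hu h, B.mat B (Tr Φ.edgeFrame hu h) = C.adjᵀ := by
  choose u x y h hx hy using exists_GP (Φ := Φ) (k := k) C (i + 1)
  have h1 : ∀ v w, rk ⟨x v * y v, (hD _).2 ((h v).bd (h v))⟩ (Φ.Srep hD (C.ι w))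
      = if v = w then 1 else 0 := fun v w => by
    rw [rk_Srep hD (h v)]
    simp only [C.inj.eq_iff]
  obtain ⟨B, hS, hμ⟩ := exists_MB_of (fun w => Φ.Srep hD (C.ι w))
    (fun ρ hρ => by
      obtain ⟨γ, hγ⟩ := exists_Srep_inj hD ρ hρ
      rw [← C.ι_ctm γ] at hγ
      exact ⟨_, hγ⟩)
    (fun v => rk ⟨x v * y v, (hD _).2 ((h v).bd (h v))⟩)
    (fun v => additive_rk (Subtype.ext (h v).idem))
    (fun v => by simp [h1]) (fun v w hvw => by simp [h1, hvw])
  refine ⟨B, fun w => ?_, fun hu hh => ?_⟩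
  · rw [hS]; exact Φ.finrank_Sw k _ _
  · ext w v
    show B.μ v (Tr Φ.edgeFrame hu hh (B.S w)) = C.adj v w
    have h2 := hμ v (Tr Φ.edgeFrame hu hh (B.S w))
    simp only [h1, if_true, mul_one] at h2
    obtain ⟨u', x', y', h', hx', hy'⟩ := exists_GP (Φ := Φ) (k := k) C i v
    obtain ⟨e, w', he, -⟩ := C.hin u'
    have he' : G.r e = C.ι u' := by rw [← C.hcr, he]
    have h3 := h'.prepend e (by rw [he', hx'])
    have hm : x' * y' ∈ D := (hD _).2 (h'.bd h').succ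
    rw [← h2, rk_GP_eq (h v) h3 (fun x hx => (hD x).2 hx),
      rk_Tr Φ.edgeFrame hu hh _ e ⟨x' * y', hm⟩ ?_ ?_ _ ?_, hS,
      rk_GP_Srep C hD w 1 i rfl v x' y' h' hm, pow_one]
    · show Φ.p (G.r e) * (x' * y') = x' * y'
      rw [he', ← mul_assoc, hx']
    · show x' * y' * Φ.p (G.r e) = x' * y'
      rw [he', mul_assoc, hy']
    · show Φ.s e * x' * (y' * Φ.t e) = Φ.s e * (x' * y') * Φ.t e
      simp only [mul_assoc]

end Fam

end Pool.Agent.P.MP_7da47b_al
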