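import Mathlib

/-!
Definitions: finite graphs, Leavitt path algebras with their grading, and the graded
Grothendieck group of a graded ring.
-/

namespace Pool.Agent.P.MP_7da47b_al

open scoped DirectSum
open MulOpposite

universe u

/-! ### Leavitt path algebras -/

/-- A finite directed graph with vertex set `Fin nV`, edge set `Fin nE`, source `s`, range `r`. -/
structure FinGraph where
  nV : ℕ
  nE : ℕ
  s : Fin nE → Fin nV
  r : Fin nE → Fin nV

/-- The generators `v`, `e`, `e*` of the Leavitt path algebra. -/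
inductive Gen (G : FinGraph) : Type
  | vtx (v : Fin G.nV) : Gen G
  | edge (e : Fin G.nE) : Gen G
  | ghost (e : Fin G.nE) : Gen G

/-- Degrees of the generators. -/
def Gen.deg {G : FinGraph} : Gen G → ℤ
  | .vtx _ => 0
  | .edge _ => 1
  | .ghost _ => -1

section LPA

variable (k : Type u) [Field k] (G : FinGraph)

open FreeAlgebra Gen in
/-- The defining relations of the Leavitt path algebra inside the free unital algebra. -/
inductive Rel : FreeAlgebra k (Gen G) → FreeAlgebra k (Gen G) → Prop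
  | vtx_self (v : Fin G.nV) : Rel (ι k (vtx v) * ι k (vtx v)) (ι k (vtx v))
  | vtx_ne (v w : Fin G.nV) (h : v ≠ w) : Rel (ι k (vtx v) * ι k (vtx w)) 0
  | src_edge (e : Fin G.nE) : Rel (ι k (vtx (G.s e)) * ι k (edge e)) (ι k (edge e))
  | edge_rng (e : Fin G.nE) : Rel (ι k (edge e) * ι k (vtx (G.r e))) (ι k (edge e))
  | rng_ghost (e : Fin G.nE) : Rel (ι k (vtx (G.r e)) * ι k (ghost e)) (ι k (ghost e))
  | ghost_src (e : Fin G.nE) : Rel (ι k (ghost e) * ι k (vtx (G.s e))) (ι k (ghost e))
  | ck1_self (e : Fin G.nE) : Rel (ι k (ghost e) * ι k (edge e)) (ι k (vtx (G.r e)))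
  | ck1_ne (e f : Fin G.nE) (h : e ≠ f) : Rel (ι k (ghost e) * ι k (edge f)) 0
  | ck2 (v : Fin G.nV) (h : ∃ e, G.s e = v) :
      Rel (ι k (vtx v)) (∑ e ∈ Finset.univ.filter (fun e => G.s e = v), ι k (edge e) * ι k (ghost e))
  | unit : Rel (∑ v, ι k (vtx v)) 1

/-- The Leavitt path algebra `L_k(G)`. -/
def LPA : Type u := RingQuot (Rel k G)

noncomputable instance LPA.ring : Ring (LPA k G) := RingQuot.instRing (Rel k G)

noncomputable instance LPA.algebra : Algebra k (LPA k G) := RingQuot.instAlgebra (Rel k G)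

/-- The quotient map from the free algebra. -/
noncomputable def LPA.mk : FreeAlgebra k (Gen G) →ₐ[k] LPA k G := RingQuot.mkAlgHom k (Rel k G)

/-- The image of a generator in `L_k(G)`. -/
noncomputable def gen (x : Gen G) : LPA k G := LPA.mk k G (FreeAlgebra.ι k x)

/-- The degree `n` component: the span of the monomials in the generators of total degree `n`. -/
noncomputable def grade (n : ℤ) : Submodule k (LPA k G) :=
  Submodule.span k {x | ∃ l : List (Gen G), (l.map Gen.deg).sum = n ∧ (l.map (gen k G)).prod = x}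

lemma gen_mem (x : Gen G) : gen k G x ∈ grade k G x.deg :=
  Submodule.subset_span ⟨[x], by simp, by simp⟩

instance gradedMonoid : SetLike.GradedMonoid (grade k G) where
  one_mem := Submodule.subset_span ⟨[], by simp, by simp⟩
  mul_mem := by
    intro i j x y hx hy
    have := Submodule.mul_mem_mul hx hy
    unfold grade at this
    rw [Submodule.span_mul_span] at this
    refine Submodule.span_mono ?_ this
    rintro _ ⟨_, ⟨l, rfl, rfl⟩, _, ⟨l', rfl, rfl⟩, rfl⟩
    exact ⟨l ++ l', by simp, by simp⟩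

variable {G} in
lemma LPA.mk_rel {x y : FreeAlgebra k (Gen G)} (h : Rel k G x y) : LPA.mk k G x = LPA.mk k G y :=
  RingQuot.mkAlgHom_rel k h

variable {k G} in
/-- Auxiliary: the universal property. -/
noncomputable def LPA.lift {B : Type u} [Semiring B] [Algebra k B]
    (f : FreeAlgebra k (Gen G) →ₐ[k] B) (h : ∀ ⦃x y⦄, Rel k G x y → f x = f y) :
    LPA k G →ₐ[k] B := RingQuot.liftAlgHom k ⟨f, h⟩

variable {k G} in
lemma LPA.lift_mk {B : Type u} [Semiring B] [Algebra k B]
    (f : FreeAlgebra k (Gen G) →ₐ[k] B) (h : ∀ ⦃x y⦄, Rel k G x y → f x = f y)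
    (x : FreeAlgebra k (Gen G)) : LPA.lift f h (LPA.mk k G x) = f x :=
  RingQuot.liftAlgHom_mkAlgHom_apply k f h x

variable {k G} in
lemma LPA.hom_ext {B : Type u} [Semiring B] [Algebra k B] (f g : LPA k G →ₐ[k] B)
    (h : ∀ x, f (gen k G x) = g (gen k G x)) : f = g :=
  RingQuot.ringQuot_ext' k f g (FreeAlgebra.hom_ext (funext h))

/-- Auxiliary: decomposition map on the free algebra. -/
noncomputable def decFree : FreeAlgebra k (Gen G) →ₐ[k] ⨁ n, grade k G n :=
  FreeAlgebra.lift k fun x => DirectSum.of (fun n => grade k G n) x.deg ⟨gen k G x, gen_mem k G x⟩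

/-- Auxiliary: homogeneity in the free algebra. -/
def Hom (n : ℤ) (x : FreeAlgebra k (Gen G)) : Prop :=
  ∃ h : LPA.mk k G x ∈ grade k G n,
    decFree k G x = DirectSum.of (fun n => grade k G n) n ⟨_, h⟩

variable {k G}

lemma Hom.gen (x : Gen G) : Hom k G x.deg (FreeAlgebra.ι k x) :=
  ⟨gen_mem k G x, by simp [decFree, MP_7da47b_al.gen]⟩

lemma Hom.cast {m n : ℤ} {x : FreeAlgebra k (Gen G)} (h : Hom k G m x) (e : m = n) :
    Hom k G n x := e ▸ h

lemma Hom.mul {m n : ℤ} {x y : FreeAlgebra k (Gen G)} (hx : Hom k G m x) (hy : Hom k G n y) :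
    Hom k G (m + n) (x * y) := by
  obtain ⟨h1, h2⟩ := hx
  obtain ⟨h3, h4⟩ := hy
  refine ⟨by rw [map_mul]; exact SetLike.mul_mem_graded h1 h3, ?_⟩
  rw [map_mul, h2, h4, DirectSum.of_mul_of]
  congr 1
  exact Subtype.ext (map_mul _ _ _).symm

lemma Hom.zero (n : ℤ) : Hom k G n 0 :=
  ⟨by rw [map_zero]; exact zero_mem _, by
    rw [map_zero, ← map_zero (DirectSum.of (fun n => grade k G n) n)]
    congr 1
    exact Subtype.ext (map_zero _).symm⟩

lemma Hom.one : Hom k G 0 1 :=
  ⟨by rw [map_one]; exact SetLike.one_mem_graded _, by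
    rw [map_one, DirectSum.one_def]
    congr 1
    exact Subtype.ext (map_one _).symm⟩

lemma Hom.add {n : ℤ} {x y : FreeAlgebra k (Gen G)} (hx : Hom k G n x) (hy : Hom k G n y) :
    Hom k G n (x + y) := by
  obtain ⟨h1, h2⟩ := hx
  obtain ⟨h3, h4⟩ := hy
  refine ⟨by rw [map_add]; exact add_mem h1 h3, ?_⟩
  rw [map_add, h2, h4, ← map_add]
  congr 1
  exact Subtype.ext (map_add _ _ _).symm

lemma Hom.sum {ι : Type*} {n : ℤ} (s : Finset ι) (f : ι → FreeAlgebra k (Gen G))
    (h : ∀ i ∈ s, Hom k G n (f i)) : Hom k G n (∑ i ∈ s, f i) :=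
  Finset.sum_induction f (Hom k G n) (fun _ _ => Hom.add) (Hom.zero n) h

lemma Hom.eq {n : ℤ} {x y : FreeAlgebra k (Gen G)} (hx : Hom k G n x) (hy : Hom k G n y)
    (h : Rel k G x y) : decFree k G x = decFree k G y := by
  obtain ⟨h1, h2⟩ := hx
  obtain ⟨h3, h4⟩ := hy
  rw [h2, h4]
  congr 1
  exact Subtype.ext (LPA.mk_rel k h)

lemma decFree_rel ⦃x y : FreeAlgebra k (Gen G)⦄ (h : Rel k G x y) :
    decFree k G x = decFree k G y := by
  have hv : ∀ v, Hom k G 0 (FreeAlgebra.ι k (Gen.vtx v)) := fun v => Hom.gen (Gen.vtx v)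
  have he : ∀ e, Hom k G 1 (FreeAlgebra.ι k (Gen.edge e)) := fun e => Hom.gen (Gen.edge e)
  have hg : ∀ e, Hom k G (-1) (FreeAlgebra.ι k (Gen.ghost e)) := fun e => Hom.gen (Gen.ghost e)
  have h' := h
  induction h with
  | vtx_self v => exact (((hv v).mul (hv v)).cast (by norm_num)).eq (hv v) h'
  | vtx_ne v w _ => exact ((hv v).mul (hv w)).eq (Hom.zero _) h'
  | src_edge e => exact (((hv _).mul (he e)).cast (by norm_num)).eq (he e) h'
  | edge_rng e => exact (((he e).mul (hv _)).cast (by norm_num)).eq (he e) h'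
  | rng_ghost e => exact (((hv _).mul (hg e)).cast (by norm_num)).eq (hg e) h'
  | ghost_src e => exact (((hg e).mul (hv _)).cast (by norm_num)).eq (hg e) h'
  | ck1_self e => exact (((hg e).mul (he e)).cast (by norm_num)).eq (hv _) h'
  | ck1_ne e f _ => exact ((hg e).mul (he f)).eq (Hom.zero _) h'
  | ck2 v _ =>
    exact (hv v).eq (Hom.sum _ _ fun e _ => ((he e).mul (hg e)).cast (by norm_num)) h'
  | unit => exact (Hom.sum _ _ fun v _ => hv v).eq Hom.one h'

lemma Hom.list (l : List (Gen G)) :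
    Hom k G (l.map Gen.deg).sum (l.map (FreeAlgebra.ι k)).prod := by
  induction l with
  | nil => exact Hom.one
  | cons x l ih =>
    simp only [List.map_cons, List.sum_cons, List.prod_cons]
    exact (Hom.gen x).mul ih

variable (k G)

/-- The Leavitt path algebra is a graded algebra. -/
noncomputable instance gradedAlgebra : GradedAlgebra (grade k G) :=
  GradedAlgebra.ofAlgHom (grade k G)
    (LPA.lift (decFree k G) decFree_rel)
    (by
      refine LPA.hom_ext _ _ fun x => ?_
      simp [decFree, gen, LPA.lift_mk])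
    (by
      rintro n ⟨x, hx⟩
      induction hx using Submodule.span_induction with
      | mem x hx =>
        obtain ⟨l, rfl, rfl⟩ := hx
        obtain ⟨h1, h2⟩ := Hom.list (k := k) l
        have e : (l.map (gen k G)).prod
            = LPA.mk k G (l.map (FreeAlgebra.ι k)).prod := by
          rw [map_list_prod, List.map_map]; rfl
        simp only [e, LPA.lift_mk, h2]
      | zero => exact (map_zero _).trans (map_zero (DirectSum.of (fun n => grade k G n) n)).symm
      | add x y hx hy ihx ihy =>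
        exact (map_add _ x y).trans ((congrArg₂ (· + ·) ihx ihy).trans
          (map_add (DirectSum.of (fun n => grade k G n) n) ⟨x, hx⟩ ⟨y, hy⟩).symm)
      | smul c x hx ih =>
        exact (map_smul _ c x).trans ((congrArg (c • ·) ih).trans
          ((DirectSum.lof k ℤ (fun n => grade k G n) n).map_smul c ⟨x, hx⟩).symm))

end LPA

/-! ### The graded Grothendieck group -/

lemma isInternal_of_comp {M : Type u} [AddCommGroup M] (gr : ℤ → AddSubgroup M)
    (c : ℤ → M →+ M) (h1 : ∀ n x, c n x ∈ gr n)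
    (h2 : ∀ n m x, x ∈ gr m → c n x = if n = m then x else 0)
    (h3 : ∀ x, ∃ s : Finset ℤ, ∑ n ∈ s, c n x = x) : DirectSum.IsInternal gr := by
  constructor
  · have key : ∀ (y : ⨁ n, gr n) (n : ℤ), c n (DirectSum.coeAddMonoidHom gr y) = y n := by
      intro y n
      induction y using DirectSum.induction_on with
      | zero => simp
      | of m x =>
        rw [DirectSum.coeAddMonoidHom_of, h2 n m x x.2]
        split_ifs with h
        · subst h; simp
        · rw [DirectSum.of_eq_of_ne _ _ _ h]; rfl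
      | add x y hx hy => simp [hx, hy]
    intro y z h
    ext n
    rw [← key, ← key, h]
  · intro x
    obtain ⟨s, hs⟩ := h3 x
    refine ⟨∑ n ∈ s, DirectSum.of (fun n => gr n) n ⟨c n x, h1 n x⟩, ?_⟩
    simp [hs]

/-- A `ℤ`-grading of a unital ring. -/
structure Grading (A : Type u) [Ring A] where
  gr : ℤ → AddSubgroup A
  internal : DirectSum.IsInternal gr
  one_mem : 1 ∈ gr 0
  mul_mem : ∀ (m n : ℤ) (a b : A), a ∈ gr m → b ∈ gr n → a * b ∈ gr (m + n)

lemma isInternal_toAddSubgroup {k : Type u} [Field k] {L : Type u} [Ring L] [Algebra k L]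
    (𝒜 : ℤ → Submodule k L) [GradedAlgebra 𝒜] :
    DirectSum.IsInternal fun n => (𝒜 n).toAddSubgroup :=
  isInternal_of_comp _ (fun n => GradedRing.proj 𝒜 n)
    (fun n x => (DirectSum.decompose 𝒜 x n).2)
    (fun n m x hx => by
      split_ifs with h
      · subst h; exact DirectSum.decompose_of_mem_same 𝒜 hx
      · exact DirectSum.decompose_of_mem_ne 𝒜 hx (Ne.symm h))
    (fun x => by
      classical
      exact ⟨_, DirectSum.sum_support_decompose 𝒜 x⟩)

section LPAGrading

variable (k : Type u) [Field k] (G : FinGraph)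

lemma grade_internal : DirectSum.IsInternal fun n => (grade k G n).toAddSubgroup :=
  isInternal_toAddSubgroup _

lemma grade_one : (1 : LPA k G) ∈ (grade k G 0).toAddSubgroup := SetLike.one_mem_graded (grade k G)

lemma grade_mul (m n : ℤ) (a b : LPA k G) (ha : a ∈ (grade k G m).toAddSubgroup)
    (hb : b ∈ (grade k G n).toAddSubgroup) : a * b ∈ (grade k G (m + n)).toAddSubgroup :=
  SetLike.mul_mem_graded (A := grade k G) ha hb

/-- The grading of the Leavitt path algebra. -/
noncomputable def lpaGrading : Grading (LPA k G) :=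
  ⟨fun n => (grade k G n).toAddSubgroup, grade_internal k G, grade_one k G, grade_mul k G⟩

end LPAGrading

section K0

variable {A : Type u} [Ring A] (𝒜 : Grading A)

/-- A finitely generated graded projective right module over the graded ring `A = ⨁ 𝒜 n`. -/
structure GrProj where
  M : Type u
  [acg : AddCommGroup M]
  [mod : Module Aᵐᵒᵖ M]
  gr : ℤ → AddSubgroup M
  internal : DirectSum.IsInternal gr
  smul_mem : ∀ (m n : ℤ) (x : M) (a : A), x ∈ gr m → a ∈ 𝒜.gr n → op a • x ∈ gr (m + n)
  finite : Module.Finite Aᵐᵒᵖ M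
  projective : Module.Projective Aᵐᵒᵖ M

attribute [instance] GrProj.acg GrProj.mod GrProj.finite GrProj.projective

variable {𝒜}

namespace GrProj

/-- The degree `n` component of an element. -/
noncomputable def comp (P : GrProj 𝒜) (n : ℤ) : P.M →+ P.M :=
  letI := P.internal.chooseDecomposition
  (P.gr n).subtype.comp ((DFinsupp.evalAddMonoidHom n).comp
    (DirectSum.decomposeAddEquiv P.gr).toAddMonoidHom)

lemma comp_mem (P : GrProj 𝒜) (n : ℤ) (x : P.M) : P.comp n x ∈ P.gr n := Subtype.property _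

lemma comp_of_mem (P : GrProj 𝒜) (n m : ℤ) (x : P.M) (hx : x ∈ P.gr m) :
    P.comp n x = if n = m then x else 0 := by
  let _ := P.internal.chooseDecomposition
  split_ifs with h
  · subst h; exact DirectSum.decompose_of_mem_same P.gr hx
  · exact DirectSum.decompose_of_mem_ne P.gr hx (Ne.symm h)

lemma exists_sum_comp (P : GrProj 𝒜) (x : P.M) :
    ∃ s : Finset ℤ, ∀ t : Finset ℤ, s ⊆ t → ∑ n ∈ t, P.comp n x = x := by
  classical
  let _ := P.internal.chooseDecomposition
  refine ⟨(DirectSum.decompose P.gr x).support, fun t ht => ?_⟩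
  conv_rhs => rw [← DirectSum.sum_support_decompose P.gr x]
  refine (Finset.sum_subset ht fun n _ hn => ?_).symm
  rw [DFinsupp.notMem_support_iff] at hn
  exact congrArg Subtype.val hn

/-- Graded isomorphism: a module isomorphism that respects the gradings. -/
def Iso (P Q : GrProj 𝒜) : Prop :=
  ∃ e : P.M ≃ₗ[Aᵐᵒᵖ] Q.M, ∀ n x, x ∈ P.gr n ↔ e x ∈ Q.gr n

instance setoid : Setoid (GrProj 𝒜) where
  r := Iso
  iseqv :=
    { refl := fun _ => ⟨LinearEquiv.refl _ _, fun _ _ => Iff.rfl⟩
      symm := fun ⟨e, he⟩ => ⟨e.symm, fun n x => by rw [he, e.apply_symm_apply]⟩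
      trans := fun ⟨e, he⟩ ⟨f, hf⟩ => ⟨e.trans f, fun n x => (he n x).trans (hf n _)⟩ }

/-- Direct sum. -/
def sum (P Q : GrProj 𝒜) : GrProj 𝒜 where
  M := P.M × Q.M
  gr n := (P.gr n).prod (Q.gr n)
  internal := isInternal_of_comp _ (fun n => (P.comp n).prodMap (Q.comp n))
    (fun n x => ⟨P.comp_mem n x.1, Q.comp_mem n x.2⟩)
    (fun n m x hx => by
      ext
      · simp only [AddMonoidHom.coe_prodMap, Prod.map_fst, P.comp_of_mem n m _ hx.1]
        split_ifs <;> rfl
      · simp only [AddMonoidHom.coe_prodMap, Prod.map_snd, Q.comp_of_mem n m _ hx.2]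
        split_ifs <;> rfl)
    (fun x => by
      obtain ⟨s, hs⟩ := P.exists_sum_comp x.1
      obtain ⟨t, ht⟩ := Q.exists_sum_comp x.2
      refine ⟨s ∪ t, ?_⟩
      ext
      · simpa [Prod.fst_sum] using hs _ Finset.subset_union_left
      · simpa [Prod.snd_sum] using ht _ Finset.subset_union_right)
  smul_mem m n x a hx ha := ⟨P.smul_mem m n _ a hx.1 ha, Q.smul_mem m n _ a hx.2 ha⟩
  finite := inferInstance
  projective := inferInstance

/-- The zero module. -/
def zero : GrProj 𝒜 where
  M := PUnit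
  gr _ := ⊤
  internal := isInternal_of_comp _ (fun _ => 0) (fun _ _ => trivial) (fun _ _ _ _ => rfl)
    (fun _ => ⟨∅, rfl⟩)
  smul_mem _ _ _ _ _ _ := trivial
  finite := inferInstance
  projective := inferInstance

/-- The shifted module `P(1)`, with `P(1)_n = P_{n+1}`. -/
def shift (P : GrProj 𝒜) : GrProj 𝒜 where
  M := P.M
  gr n := P.gr (n + 1)
  internal := isInternal_of_comp _ (fun n => P.comp (n + 1)) (fun n x => P.comp_mem _ x)
    (fun n m x hx => by simp [P.comp_of_mem _ _ _ hx])
    (fun x => by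
      obtain ⟨s, hs⟩ := P.exists_sum_comp x
      refine ⟨s.map (Equiv.subRight (1 : ℤ)).toEmbedding, ?_⟩
      simpa using hs s le_rfl)
  smul_mem m n x a hx ha := by
    have := P.smul_mem _ n x a hx ha
    rwa [add_right_comm] at this
  finite := P.finite
  projective := P.projective

/-- Auxiliary: the ring is free of rank one as a right module over itself. -/
def opEquiv (A : Type u) [Ring A] : Aᵐᵒᵖ ≃ₗ[Aᵐᵒᵖ] A where
  toFun := unop
  invFun := op
  map_add' _ _ := rfl
  map_smul' _ _ := rfl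
  left_inv _ := rfl
  right_inv _ := rfl

variable (𝒜) in
/-- The ring itself as a graded right module. -/
def regular : GrProj 𝒜 where
  M := A
  gr := 𝒜.gr
  internal := 𝒜.internal
  smul_mem := 𝒜.mul_mem
  finite := Module.Finite.equiv (opEquiv A)
  projective := Module.Projective.of_equiv (opEquiv A)

end GrProj

variable (𝒜)

/-- The set of graded isomorphism classes of finitely generated graded projective modules. -/
def Vgr : Type (u + 1) := Quotient (GrProj.setoid (𝒜 := 𝒜))

instance Vgr.add : Add (Vgr 𝒜) where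
  add := Quotient.map₂ GrProj.sum (by
    rintro P P' ⟨e, he⟩ Q Q' ⟨f, hf⟩
    exact ⟨e.prodCongr f, fun n x => and_congr (he n x.1) (hf n x.2)⟩)

instance Vgr.zero : Zero (Vgr 𝒜) where
  zero := Quotient.mk _ GrProj.zero

/-- The monoid structure given by the direct sum. -/
instance Vgr.monoid : AddCommMonoid (Vgr 𝒜) where
  add_assoc := by
    rintro ⟨P⟩ ⟨Q⟩ ⟨R⟩
    exact Quotient.sound ⟨LinearEquiv.prodAssoc _ P.M Q.M R.M, fun n x => and_assoc⟩
  zero_add := by
    rintro ⟨P⟩
    exact Quotient.sound ⟨LinearEquiv.uniqueProd (R := Aᵐᵒᵖ) (M := P.M) (M₂ := PUnit.{u + 1}), fun n x =>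
      ⟨fun h => h.2, fun h => ⟨trivial, h⟩⟩⟩
  add_zero := by
    rintro ⟨P⟩
    exact Quotient.sound ⟨LinearEquiv.prodUnique (R := Aᵐᵒᵖ) (M := P.M) (M₂ := PUnit.{u + 1}), fun n x =>
      ⟨fun h => h.1, fun h => ⟨h, trivial⟩⟩⟩
  add_comm := by
    rintro ⟨P⟩ ⟨Q⟩
    exact Quotient.sound ⟨LinearEquiv.prodComm _ P.M Q.M, fun n x => and_comm⟩
  nsmul := nsmulRec

/-- The shift on isomorphism classes. -/
def Vgr.shift : Vgr 𝒜 →+ Vgr 𝒜 where
  toFun := Quotient.map GrProj.shift (by
    rintro P Q ⟨e, he⟩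
    exact ⟨e, fun n x => he (n + 1) x⟩)
  map_zero' := Quotient.sound ⟨LinearEquiv.refl _ _, fun _ _ => Iff.rfl⟩
  map_add' := by
    rintro ⟨P⟩ ⟨Q⟩
    exact Quotient.sound ⟨LinearEquiv.refl _ _, fun _ _ => Iff.rfl⟩

/-- The graded Grothendieck group: the group completion of the monoid `Vgr`. -/
def K0gr : Type (u + 1) := Algebra.GrothendieckAddGroup (Vgr 𝒜)

instance K0gr.group : AddCommGroup (K0gr 𝒜) :=
  Algebra.GrothendieckAddGroup.instAddCommGroup (M := Vgr 𝒜)

/-- The canonical map from the monoid to its group completion. -/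
def K0gr.of : Vgr 𝒜 →+ K0gr 𝒜 := Algebra.GrothendieckAddGroup.of (M := Vgr 𝒜)

variable {𝒜} in
/-- The class `[P]` in the graded Grothendieck group. -/
def K0gr.cls (P : GrProj 𝒜) : K0gr 𝒜 := K0gr.of 𝒜 (Quotient.mk _ P)

/-- The action of `x`, the additive map with `[P] ↦ [P(1)]`. -/
noncomputable def K0gr.x : K0gr 𝒜 →+ K0gr 𝒜 :=
  Algebra.GrothendieckAddGroup.lift ((K0gr.of 𝒜).comp (Vgr.shift 𝒜))

/-- The positive cone: the set of classes `[P]`. -/
def K0gr.cone : Set (K0gr 𝒜) := Set.range K0gr.cls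

/-- The distinguished element `[A]`. -/
def K0gr.unit : K0gr 𝒜 := K0gr.cls (GrProj.regular 𝒜)

/-- An additive isomorphism of graded Grothendieck groups that commutes with `x`, preserves and
reflects the positive cone, and preserves the distinguished element. -/
def K0gr.PointedIso {B : Type u} [Ring B] (ℬ : Grading B) (φ : K0gr 𝒜 ≃+ K0gr ℬ) : Prop :=
  (∀ y, φ (K0gr.x 𝒜 y) = K0gr.x ℬ (φ y)) ∧ (∀ y, y ∈ K0gr.cone 𝒜 ↔ φ y ∈ K0gr.cone ℬ) ∧
    φ (K0gr.unit 𝒜) = K0gr.unit ℬ

end K0

end Pool.Agent.P.MP_7da47b_al
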