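import Pool.Agent.P.MP_7da47b_al.Sgc

/-!
The explicit matrices and the sign obstruction.
-/

namespace Pool.Agent.P.MP_7da47b_al

open Matrix

def mA : Matrix (Fin 4) (Fin 4) ℤ := !![0, 1, 0, 0; 0, 0, 1, 0; 1, 0, 0, 1; 1, 0, 0, 0]
def mAi : Matrix (Fin 4) (Fin 4) ℤ := !![0, 0, 0, 1; 1, 0, 0, 0; 0, 1, 0, 0; 0, 0, 1, -1]
def mU : Matrix (Fin 4) (Fin 4) ℤ := !![0, 1, -1, 2; 1, 0, 1, -1; 0, 1, 0, 1; 1, -1, 2, -2]
def mUi : Matrix (Fin 4) (Fin 4) ℤ := !![1, 1, -1, 0; -1, 1, 1, -1; 0, -1, 1, 1; 1, -1, 0, 1]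
def mK : Matrix (Fin 4) (Fin 4) ℤ := !![1, 1, 2, 2; 1, 2, 2, 2; 2, 2, 2, 3; 1, 1, 1, 2]
def mKi : Matrix (Fin 4) (Fin 4) ℤ := !![0, -1, 2, -2; -1, 1, 0, 0; 1, 0, 0, -1; 0, 0, -1, 2]
def vD : Fin 4 → ℤ := ![1, 1, 2, 1]
def vF : Fin 4 → ℤ := ![1, 2, 2, 2]

lemma mA_mAi : mA * mAi = 1 := by decide
lemma mAi_mA : mAi * mA = 1 := by decide
lemma mU_mUi : mU * mUi = 1 := by decide
lemma mUi_mU : mUi * mU = 1 := by decide
lemma mK_mKi : mK * mKi = 1 := by decide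
lemma mA_mU : Commute mA mU := by unfold Commute SemiconjBy; decide
lemma mA_mUi : Commute mA mUi := by unfold Commute SemiconjBy; decide
lemma mU_vD : mU *ᵥ vD = vF := by decide
lemma mK_col (j : Fin 4) : (fun i => mK i j) = mA ^ (j : ℕ) *ᵥ vD := by revert j; decide
lemma q_A : q mA 1 = 0 := by decide
lemma q_U : q mU (mA * mUi) = 1 := by decide
lemma mU_nonneg : ∀ i j, 0 ≤ (mA ^ 6 * mU) i j := by decide
lemma mUi_nonneg : ∀ i j, 0 ≤ (mA ^ 13 * mUi) i j := by decide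
lemma mA_nonneg : ∀ i j, 0 ≤ mA i j := by decide

lemma pow_inv (a : ℕ) : mAi ^ a * mA ^ a = 1 := by
  rw [← (show Commute mAi mA from mAi_mA.trans mA_mAi.symm).mul_pow, mAi_mA, one_pow]

lemma q_pow (a : ℕ) : q (mU * mA ^ a) (mA * (mAi ^ a * mUi)) = 1 := by
  induction a with
  | zero => simpa using q_U
  | succ a ih =>
    have h := q_triangle (mU * mA ^ a) mA (mAi ^ a * mUi)
    have e1 : mAi ^ a * mUi * (mU * mA ^ a) = 1 := by
      rw [mul_assoc, ← mul_assoc mUi, mUi_mU, one_mul, pow_inv]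
    rw [ih, e1, q_A, add_zero] at h
    rw [pow_succ, ← mul_assoc, pow_succ', ← mul_assoc, ← mul_assoc, mA_mAi, one_mul]
    exact h

theorem no_chain (a b l : ℕ) (W : Matrix (Fin 4) (Fin 4) ℤ) (hc : Chain mA mA W 0 l)
    (hd : W *ᵥ (mA ^ b *ᵥ vD) = mA ^ (a + b) *ᵥ vF) : False := by
  have hW : Commute mA W := hc.intertw
  have hM : Commute mA (W - mU * mA ^ a) :=
    hW.sub_right (mA_mU.mul_right (Commute.self_pow mA a))
  set M := W - mU * mA ^ a with hMdef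
  have h1 : M *ᵥ (mA ^ b *ᵥ vD) = 0 := by
    rw [hMdef, sub_mulVec, hd, ← mU_vD, mulVec_mulVec, mulVec_mulVec, mul_assoc, ← pow_add,
      (mA_mU.pow_left (a + b)).eq, sub_self]
  have h2 : M *ᵥ vD = 0 := by
    have := congrArg (fun v => mAi ^ b *ᵥ v) h1
    simp only [mulVec_mulVec, mulVec_zero] at this
    rwa [← (hM.pow_left b).eq, ← mul_assoc, pow_inv, one_mul] at this
  have h3 : M * mK = 0 := by
    ext i j
    have : M *ᵥ (fun i => mK i j) = 0 := by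
      rw [mK_col, mulVec_mulVec, ← (hM.pow_left j).eq, ← mulVec_mulVec, h2, mulVec_zero]
    exact congrFun this i
  have h4 : W = mU * mA ^ a := by
    rw [← sub_eq_zero, ← hMdef, ← mul_one M, ← mK_mKi, ← mul_assoc, h3, zero_mul]
  obtain ⟨S, hS, hq⟩ := Chain.to_one l hc ⟨mAi, mA_mAi⟩ ⟨mAi, mAi_mA⟩
  have h5 : S = mA * (mAi ^ a * mUi) := by
    have e1 : mAi ^ a * mUi * W = 1 := by
      rw [h4, mul_assoc, ← mul_assoc mUi, mUi_mU, one_mul, pow_inv]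
    rw [← one_mul S, ← e1, mul_assoc, hS]
    exact (((show Commute mA mAi from mA_mAi.trans mAi_mA.symm).pow_right a).mul_right
      mA_mUi).eq.symm
  rw [h5, h4, q_pow] at hq
  exact zero_ne_one hq

end Pool.Agent.P.MP_7da47b_al
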