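import Pool.Agent.P.MP_7da47b_al.Kgr
import Pool.Agent.P.MP_7da47b_al.NoChain

/-!
The two graphs.
-/

namespace Pool.Agent.P.MP_7da47b_al

open Matrix

universe u

/-- four vertices, edges 0→2, 0→3, 1→0, 2→1, 3→2 -/
abbrev gE : FinGraph := ⟨4, 5, ![0, 0, 1, 2, 3], ![2, 3, 0, 1, 2]⟩

/-- the same graph with a source 4 and edges 4→1, 4→3 added -/
abbrev gF : FinGraph := ⟨5, 7, ![0, 0, 1, 2, 3, 4, 4], ![2, 3, 0, 1, 2, 1, 3]⟩

lemma gE_nosink : ∀ v, ∃ e, gE.s e = v := by decide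
lemma gF_nosink : ∀ v, ∃ e, gF.s e = v := by decide

def cE : Core gE 4 where
  ι := id
  inj := Function.injective_id
  cr := ![2, 3, 0, 1, 2]
  hcr := by decide
  hin := by decide

def cF : Core gF 4 where
  ι := Fin.castSucc
  inj := Fin.castSucc_injective 4
  cr := ![2, 3, 0, 1, 2, 1, 3]
  hcr := by decide
  hin := by decide

lemma cE_adj : cZ cE.adjᵀ = mA := by decide
lemma cF_adj : cZ cF.adjᵀ = mA := by decide
lemma cE_tr : cE.adjᵀ.trace = 0 ∧ (cE.adjᵀ * cE.adjᵀ).trace = 0 := by decide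

lemma cE_dim : (fun w => (cE.dim 1 w : ℤ)) = vD := by
  simp only [Core.dim_one]; decide

lemma cF_dim : (fun w => (cF.dim 1 w : ℤ)) = vF := by
  simp only [Core.dim_one]; decide

lemma dim_pow {G : FinGraph} {n : ℕ} (C : Core G n) (i : ℕ) :
    (fun w => (C.dim (i + 1) w : ℤ)) = cZ C.adjᵀ ^ i *ᵥ fun w => (C.dim 1 w : ℤ) := by
  induction i with
  | zero => simp
  | succ i ih =>
    rw [pow_succ', ← Matrix.mulVec_mulVec, ← ih, cZ_mulVec]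
    simp only [C.dim_succ_succ]

theorem no_iso (k : Type u) [Field k] : ¬ ∃ ψ : LPA k gE ≃ₐ[k] LPA k gF,
    ∀ n x, x ∈ grade k gE n → ψ x ∈ grade k gF n := by
  rintro ⟨ψ, hψ⟩
  obtain ⟨a, b, W, l, hc, hd⟩ := chain_of_iso k gE_nosink gF_nosink cE cF cE_tr ψ hψ
  rw [cE_adj, cF_adj] at hc
  refine no_chain a b l _ hc ?_
  rw [← cE_dim, ← cF_dim]
  conv_lhs => rw [← cE_adj, ← dim_pow]
  conv_rhs => rw [← cF_adj, ← dim_pow]
  ext w
  simp [hd, Matrix.mulVec, dotProduct]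

lemma mulVec_nonneg' {M : Matrix (Fin 4) (Fin 4) ℤ} (hM : ∀ i j, 0 ≤ M i j) {v : Fin 4 → ℤ}
    (hv : 0 ≤ v) : 0 ≤ M *ᵥ v := fun i =>
  show 0 ≤ ∑ j, M i j * v j from Finset.sum_nonneg fun j _ => mul_nonneg (hM i j) (hv j)

/-- the automorphism of the dimension group -/
def eU : (Fin 4 → ℤ) ≃+ (Fin 4 → ℤ) where
  toFun v := mU *ᵥ v
  invFun v := mUi *ᵥ v
  left_inv v := by simp [Matrix.mulVec_mulVec, mUi_mU]
  right_inv v := by simp [Matrix.mulVec_mulVec, mU_mUi]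
  map_add' := Matrix.mulVec_add _

lemma eU_cone (v : Fin 4 → ℤ) :
    (∃ K : ℕ, 0 ≤ mA ^ K *ᵥ v) ↔ ∃ K : ℕ, 0 ≤ mA ^ K *ᵥ (mU *ᵥ v) := by
  constructor
  · rintro ⟨K, hK⟩
    refine ⟨6 + K, ?_⟩
    have := mulVec_nonneg' mU_nonneg hK
    rwa [Matrix.mulVec_mulVec, mul_assoc, ← (mA_mU.pow_left K).eq, ← mul_assoc, ← pow_add,
      ← Matrix.mulVec_mulVec] at this
  · rintro ⟨K, hK⟩
    refine ⟨13 + K, ?_⟩
    have := mulVec_nonneg' mUi_nonneg hK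
    rwa [Matrix.mulVec_mulVec, Matrix.mulVec_mulVec, mul_assoc _ mUi, ← (mA_mUi.pow_left K).eq,
      ← mul_assoc, ← pow_add, mul_assoc, mUi_mU, mul_one] at this

theorem k0_iso (k : Type u) [Field k] : ∃ φ : K0gr (grOf (grade k gE)) ≃+ K0gr (grOf (grade k gF)),
    (∀ y, φ (K0gr.x (grOf (grade k gE)) y) = K0gr.x (grOf (grade k gF)) (φ y)) ∧
    (∀ y, y ∈ K0gr.cone (grOf (grade k gE)) ↔ φ y ∈ K0gr.cone (grOf (grade k gF))) ∧
    φ (K0gr.unit (grOf (grade k gE))) = K0gr.unit (grOf (grade k gF)) := by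
  obtain ⟨ρ, h1, h2, h3⟩ := exists_rk (C := cE) (Ai := mAi) (lpaFam_gr k gE_nosink)
    (by rw [cE_adj, mAi_mA]) (by rw [cE_adj, mA_mAi])
  obtain ⟨ρ', h1', h2', h3'⟩ := exists_rk (C := cF) (Ai := mAi) (lpaFam_gr k gF_nosink)
    (by rw [cF_adj, mAi_mA]) (by rw [cF_adj, mA_mAi])
  rw [cE_adj] at h1 h2
  rw [cF_adj] at h1' h2'
  have key : ∀ y, ρ' ((ρ.trans (eU.trans ρ'.symm)) y) = mU *ᵥ ρ y := fun y =>
    ρ'.apply_symm_apply _
  refine ⟨ρ.trans (eU.trans ρ'.symm), fun y => ρ'.injective ?_, fun y => ?_, ρ'.injective ?_⟩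
  · rw [key, h1', key, h1, Matrix.mulVec_mulVec, Matrix.mulVec_mulVec, mA_mU.eq]
  · rw [h2, h2', key, eU_cone]
  · rw [key, h3, h3', cE_dim, cF_dim, mU_vD]

end Pool.Agent.P.MP_7da47b_al
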