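import Pool.Agent.P.MP_7da47b_al.Rep

/-!
Restriction and transfer functors.
-/

namespace Pool.Agent.P.MP_7da47b_al

open Module Function FRep

universe u

variable {k : Type u} [Field k]

section Mat

variable {D : Type u} [Ring D] [Algebra k D] {J J' : Type} [Fintype J] [Fintype J']

/-- the space attached to a family of idempotents -/
abbrev PiSp (ρ : FRep k D) (u : J → D) : Type u := Π j, LinearMap.range (ρ.π (u j))

/-- the linear map given by a matrix -/
noncomputable def matMap (ρ : FRep k D) (u : J → D) (u' : J' → D) (C : J → J' → D)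
    (hC : ∀ j l, u j * C j l = C j l) : PiSp ρ u' →ₗ[k] PiSp ρ u where
  toFun x := fun j => ⟨∑ l, ρ.π (C j l) (x l), ⟨∑ l, ρ.π (C j l) (x l), by
    rw [map_sum]
    refine Finset.sum_congr rfl fun l _ => ?_
    rw [← Module.End.mul_apply, ← map_mul, hC]⟩⟩
  map_add' x y := by
    ext j
    simp [Finset.sum_add_distrib]
  map_smul' c x := by
    ext j
    simp [Finset.smul_sum]

omit [Fintype J] in
lemma matMap_apply (ρ : FRep k D) (u : J → D) (u' : J' → D) (C : J → J' → D)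
    (hC : ∀ j l, u j * C j l = C j l) (x : PiSp ρ u') (j : J) :
    (matMap ρ u u' C hC x j : ρ.W) = ∑ l, ρ.π (C j l) (x l) := rfl

omit [Fintype J] in
lemma matMap_matMap {J'' : Type} [Fintype J''] (ρ : FRep k D) (u : J → D) (u' : J' → D)
    (u'' : J'' → D) (C : J → J' → D) (hC : ∀ j l, u j * C j l = C j l) (C' : J' → J'' → D)
    (hC' : ∀ j l, u' j * C' j l = C' j l) (x : PiSp ρ u'') (j : J) :
    (matMap ρ u u' C hC (matMap ρ u' u'' C' hC' x) j : ρ.W)
      = ∑ m, ρ.π (∑ l, C j l * C' l m) (x m) := by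
  simp only [matMap_apply, map_sum, map_mul, LinearMap.sum_apply, Module.End.mul_apply]
  exact Finset.sum_comm

lemma sum_diag [DecidableEq J] (ρ : FRep k D) (u : J → D) (hu : ∀ j, u j * u j = u j)
    (x : PiSp ρ u) (j : J) : ∑ m, ρ.π (if j = m then u j else 0) (x m) = x j := by
  rw [Finset.sum_eq_single j]
  · simp only [if_true]
    exact (mem_range_idem ρ (hu j) _).1 (x j).2
  · intro m _ hm; simp [hm.symm]
  · simp

lemma matMap_bij [DecidableEq J] [DecidableEq J'] (ρ : FRep k D) (u : J → D) (u' : J' → D)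
    (hu : ∀ j, u j * u j = u j) (hu' : ∀ j, u' j * u' j = u' j)
    (C : J → J' → D) (hC : ∀ j l, u j * C j l = C j l) (C' : J' → J → D)
    (hC' : ∀ j l, u' j * C' j l = C' j l)
    (h1 : ∀ j j', ∑ l, C j l * C' l j' = if j = j' then u j else 0)
    (h2 : ∀ l l', ∑ j, C' l j * C j l' = if l = l' then u' l else 0) :
    Bijective (matMap ρ u u' C hC) := by
  refine Function.bijective_iff_has_inverse.2 ⟨matMap ρ u' u C' hC', fun x => ?_, fun x => ?_⟩
  · ext l
    rw [matMap_matMap]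
    simp only [h2]
    exact sum_diag ρ u' hu' x l
  · ext l
    rw [matMap_matMap]
    simp only [h1]
    exact sum_diag ρ u hu x l

lemma sum_rk_eq [DecidableEq J] [DecidableEq J'] (ρ : FRep k D) (u : J → D) (u' : J' → D)
    (hu : ∀ j, u j * u j = u j) (hu' : ∀ j, u' j * u' j = u' j)
    (C : J → J' → D) (hC : ∀ j l, u j * C j l = C j l) (C' : J' → J → D)
    (hC' : ∀ j l, u' j * C' j l = C' j l)
    (h1 : ∀ j j', ∑ l, C j l * C' l j' = if j = j' then u j else 0)
    (h2 : ∀ l l', ∑ j, C' l j * C j l' = if l = l' then u' l else 0) :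
    ∑ j, rk (u j) ρ = ∑ l, rk (u' l) ρ := by
  have := (LinearEquiv.ofBijective _ (matMap_bij ρ u u' hu hu' C hC C' hC' h1 h2)).finrank_eq
  rw [Module.finrank_pi_fintype, Module.finrank_pi_fintype] at this
  exact this.symm

/-- componentwise map induced by an intertwiner -/
noncomputable def piMap {ρ σ : FRep k D} (f : ρ.W →ₗ[k] σ.W) (hf : Intertw ρ σ f) (u : J → D) :
    PiSp ρ u →ₗ[k] PiSp σ u where
  toFun x := fun j => ⟨f (x j), by
    obtain ⟨y, hy⟩ := (x j).2
    exact ⟨f y, by rw [← hf, hy]⟩⟩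
  map_add' x y := by ext j; simp
  map_smul' c x := by ext j; simp

omit [Fintype J] in
lemma piMap_apply {ρ σ : FRep k D} (f : ρ.W →ₗ[k] σ.W) (hf : Intertw ρ σ f) (u : J → D)
    (x : PiSp ρ u) (j : J) : (piMap f hf u x j : σ.W) = f (x j) := rfl

end Mat

/-- A frame in a ring: a decomposition of the regular module. -/
structure Frame (L : Type u) [Ring L] (J : Type) [Fintype J] [DecidableEq J] where
  a : J → L
  b : J → L
  u : J → L
  ba : ∀ j j', b j * a j' = if j = j' then u j else 0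
  au : ∀ j, a j * u j = a j
  ub : ∀ j, u j * b j = b j
  sum : ∑ j, a j * b j = 1

variable {L : Type u} [Ring L] [Algebra k L] {J : Type} [Fintype J] [DecidableEq J]

lemma Frame.uu (fr : Frame L J) (j : J) : fr.u j * fr.u j = fr.u j := by
  have h := fr.ba j j
  simp only [if_true] at h
  calc fr.u j * fr.u j = fr.u j * (fr.b j * fr.a j) := by rw [h]
    _ = fr.u j := by rw [← mul_assoc, fr.ub, h]

lemma Frame.insert (fr : Frame L J) (x y : L) : x * y = ∑ j, (x * fr.a j) * (fr.b j * y) := by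
  calc x * y = x * (∑ j, fr.a j * fr.b j) * y := by rw [fr.sum, mul_one]
    _ = _ := by
      rw [Finset.mul_sum, Finset.sum_mul]
      exact Finset.sum_congr rfl fun j _ => by simp only [mul_assoc]

/-- restriction -/
def res {D D' : Subalgebra k L} (h : D ≤ D') (ρ : FRep k D') : FRep k D where
  W := ρ.W
  π := ρ.π.comp (Subalgebra.inclusion h)

lemma res_exact {D D' : Subalgebra k L} (h : D ≤ D') : ExactF (res (k := k) h) := by
  rintro ρ₁ ρ ρ₂ ⟨i, p, hi', hp', hi, hp, hex⟩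
  exact ⟨i, p, fun d x => hi' _ x, fun d x => hp' _ x, hi, hp, hex⟩

/-- transfer along a frame -/
noncomputable def Tr (fr : Frame L J) {D D' : Subalgebra k L} (hu : ∀ j, fr.u j ∈ D)
    (h : ∀ d ∈ D', ∀ j j', fr.b j * d * fr.a j' ∈ D) (ρ : FRep k D) : FRep k D' where
  W := PiSp ρ (fun j => ⟨fr.u j, hu j⟩)
  π := AlgHom.ofLinearMap
    { toFun := fun d => matMap ρ _ _ (fun j j' => ⟨fr.b j * d * fr.a j', h d d.2 j j'⟩)
        (fun j l => Subtype.ext (by simp [← mul_assoc, fr.ub]))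
      map_add' := fun a b => by
        refine LinearMap.ext fun x => funext fun j => Subtype.ext ?_
        simp only [LinearMap.add_apply, Pi.add_apply, Submodule.coe_add, matMap_apply,
          ← Finset.sum_add_distrib]
        refine Finset.sum_congr rfl fun l _ => ?_
        rw [← LinearMap.add_apply, ← map_add]
        congr 2
        exact Subtype.ext (by simp [mul_add, add_mul])
      map_smul' := fun c a => by
        refine LinearMap.ext fun x => funext fun j => Subtype.ext ?_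
        simp only [LinearMap.smul_apply, Pi.smul_apply, Submodule.coe_smul, matMap_apply,
          Finset.smul_sum, RingHom.id_apply]
        refine Finset.sum_congr rfl fun l _ => ?_
        rw [← LinearMap.smul_apply, ← map_smul]
        congr 2
        exact Subtype.ext (by simp) }
    (by
      refine LinearMap.ext fun x => funext fun j => Subtype.ext ?_
      simp only [LinearMap.coe_mk, AddHom.coe_mk, matMap_apply, Module.End.one_apply]
      rw [← sum_diag ρ (fun j => ⟨fr.u j, hu j⟩) (fun j => Subtype.ext (fr.uu j)) x j]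
      refine Finset.sum_congr rfl fun l _ => ?_
      congr 2
      apply Subtype.ext
      simp only [OneMemClass.coe_one, mul_one, fr.ba]
      split_ifs <;> rfl)
    (fun a b => by
      refine LinearMap.ext fun x => funext fun j => Subtype.ext ?_
      simp only [LinearMap.coe_mk, AddHom.coe_mk, Module.End.mul_apply]
      rw [matMap_matMap, matMap_apply]
      refine Finset.sum_congr rfl fun l _ => ?_
      congr 2
      apply Subtype.ext
      simp only [MulMemClass.coe_mul, AddSubmonoidClass.coe_finsetSum]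
      rw [show fr.b j * ((a : L) * b) * fr.a l = (fr.b j * a) * (b * fr.a l) by
        simp only [mul_assoc], fr.insert]
      exact Finset.sum_congr rfl fun m _ => by simp only [mul_assoc])

lemma Tr_apply (fr : Frame L J) {D D' : Subalgebra k L} (hu : ∀ j, fr.u j ∈ D)
    (h : ∀ d ∈ D', ∀ j j', fr.b j * d * fr.a j' ∈ D) (ρ : FRep k D) (d : D')
    (x : PiSp ρ (fun j => ⟨fr.u j, hu j⟩)) (j : J) :
    (((Tr fr hu h ρ).π d x : PiSp ρ (fun j => ⟨fr.u j, hu j⟩)) j : ρ.W)
      = ∑ l, ρ.π ⟨fr.b j * d * fr.a l, h d d.2 j l⟩ (x l) := rfl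

lemma Tr_intertw (fr : Frame L J) {D D' : Subalgebra k L} (hu : ∀ j, fr.u j ∈ D)
    (h : ∀ d ∈ D', ∀ j j', fr.b j * d * fr.a j' ∈ D) {ρ σ : FRep k D} (f : ρ.W →ₗ[k] σ.W)
    (hf : Intertw ρ σ f) : Intertw (Tr fr hu h ρ) (Tr fr hu h σ) (piMap f hf _) := by
  intro d x
  refine funext fun j => Subtype.ext ?_
  show f (∑ l, ρ.π ⟨fr.b j * d * fr.a l, h d d.2 j l⟩ (x l))
    = ∑ l, σ.π ⟨fr.b j * d * fr.a l, h d d.2 j l⟩ (f (x l))
  rw [map_sum]
  exact Finset.sum_congr rfl fun l _ => hf _ _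

lemma Tr_exact (fr : Frame L J) {D D' : Subalgebra k L} (hu : ∀ j, fr.u j ∈ D)
    (h : ∀ d ∈ D', ∀ j j', fr.b j * d * fr.a j' ∈ D) : ExactF (Tr (k := k) fr hu h) := by
  rintro ρ₁ ρ ρ₂ ⟨i, p, hi', hp', hi, hp, hex⟩
  have huu : ∀ j, (⟨fr.u j, hu j⟩ : D) * ⟨fr.u j, hu j⟩ = ⟨fr.u j, hu j⟩ :=
    fun j => Subtype.ext (fr.uu j)
  refine ⟨piMap i hi' _, piMap p hp' _, Tr_intertw fr hu h i hi', Tr_intertw fr hu h p hp',
    ?_, ?_, ?_⟩
  · intro x y hxy
    refine funext fun j => Subtype.ext (hi ?_)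
    exact congrArg Subtype.val (congrFun hxy j)
  · intro y
    choose z hz using fun j => hp (y j : ρ₂.W)
    refine ⟨fun j => ⟨ρ.π ⟨fr.u j, hu j⟩ (z j), ⟨z j, rfl⟩⟩, funext fun j => Subtype.ext ?_⟩
    show p (ρ.π _ (z j)) = _
    rw [hp', hz]
    exact (mem_range_idem ρ₂ (huu j) _).1 (y j).2
  · intro x
    constructor
    · intro hx
      have : ∀ j, ∃ y, i y = (x j : ρ.W) := fun j =>
        (hex _).1 (congrArg Subtype.val (congrFun hx j))
      choose z hz using this
      refine ⟨fun j => ⟨ρ₁.π ⟨fr.u j, hu j⟩ (z j), ⟨z j, rfl⟩⟩, funext fun j => Subtype.ext ?_⟩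
      show i (ρ₁.π _ (z j)) = _
      rw [hi', hz]
      exact (mem_range_idem ρ (huu j) _).1 (x j).2
    · rintro ⟨y, rfl⟩
      refine funext fun j => Subtype.ext ?_
      exact (hex _).2 ⟨_, rfl⟩

lemma res_Tr_iso (fr : Frame L J) {D D' : Subalgebra k L} (hle : D ≤ D') (hu : ∀ j, fr.u j ∈ D)
    (h : ∀ d ∈ D', ∀ j j', fr.b j * d * fr.a j' ∈ D)
    (h' : ∀ d ∈ D, ∀ j j', fr.b j * d * fr.a j' ∈ D) (ρ : FRep k D) :
    Iso (res hle (Tr fr hu h ρ)) (Tr fr hu h' ρ) :=
  ⟨LinearMap.id, fun _ _ => rfl, bijective_id⟩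

lemma Tr_res_iso (fr : Frame L J) {D D' : Subalgebra k L} (hle : D ≤ D') (hu : ∀ j, fr.u j ∈ D)
    (hu' : ∀ j, fr.u j ∈ D') (h : ∀ d ∈ D', ∀ j j', fr.b j * d * fr.a j' ∈ D)
    (h' : ∀ d ∈ D', ∀ j j', fr.b j * d * fr.a j' ∈ D') (ρ : FRep k D') :
    Iso (Tr fr hu h (res hle ρ)) (Tr fr hu' h' ρ) :=
  ⟨LinearMap.id, fun _ _ => rfl, bijective_id⟩

lemma Tr_Tr_iso (fr : Frame L J) {J' : Type} [Fintype J'] [DecidableEq J'] (fr' : Frame L J')
    {D : Subalgebra k L} (hu : ∀ j, fr.u j ∈ D) (hu' : ∀ j, fr'.u j ∈ D)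
    (h : ∀ d ∈ D, ∀ j j', fr.b j * d * fr.a j' ∈ D)
    (h' : ∀ d ∈ D, ∀ j j', fr'.b j * d * fr'.a j' ∈ D)
    (c : ∀ j l, fr.b j * fr'.a l ∈ D) (c' : ∀ l j, fr'.b l * fr.a j ∈ D) (ρ : FRep k D) :
    Iso (Tr fr' hu' h' ρ) (Tr fr hu h ρ) := by
  refine ⟨matMap ρ _ _ (fun j l => ⟨fr.b j * fr'.a l, c j l⟩)
    (fun j l => Subtype.ext (by simp [← mul_assoc, fr.ub])), fun d x => ?_, ?_⟩
  · refine funext fun j => Subtype.ext ?_
    show ∑ l, ρ.π ⟨fr.b j * fr'.a l, c j l⟩
        (∑ m, ρ.π ⟨fr'.b l * d * fr'.a m, h' d d.2 l m⟩ (x m))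
      = ∑ l, ρ.π ⟨fr.b j * d * fr.a l, h d d.2 j l⟩ (∑ m, ρ.π ⟨fr.b l * fr'.a m, c l m⟩ (x m))
    simp only [map_sum, ← Module.End.mul_apply, ← map_mul]
    rw [Finset.sum_comm]
    conv_rhs => rw [Finset.sum_comm]
    refine Finset.sum_congr rfl fun m _ => ?_
    rw [← LinearMap.sum_apply, ← LinearMap.sum_apply, ← map_sum, ← map_sum]
    congr 2
    apply Subtype.ext
    simp only [MulMemClass.coe_mul, AddSubmonoidClass.coe_finsetSum]
    have e1 := fr'.insert (fr.b j) (d * fr'.a m)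
    have e2 := fr.insert (fr.b j * d) (fr'.a m)
    simp only [mul_assoc] at e1 e2 ⊢
    rw [← e1, ← e2]
  · refine matMap_bij ρ _ _ (fun j => Subtype.ext (fr.uu j)) (fun j => Subtype.ext (fr'.uu j)) _ _
      (fun l j => ⟨fr'.b l * fr.a j, c' l j⟩)
      (fun j l => Subtype.ext (by simp [← mul_assoc, fr'.ub])) ?_ ?_
    · intro j j'
      apply Subtype.ext
      simp only [MulMemClass.coe_mul, AddSubmonoidClass.coe_finsetSum]
      rw [← fr'.insert, fr.ba]
      split_ifs <;> rfl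
    · intro j j'
      apply Subtype.ext
      simp only [MulMemClass.coe_mul, AddSubmonoidClass.coe_finsetSum]
      rw [← fr.insert, fr'.ba]
      split_ifs <;> rfl

lemma finrank_map_of_inj {V W : Type u} [AddCommGroup V] [Module k V] [AddCommGroup W]
    [Module k W] [FiniteDimensional k V] (f : V →ₗ[k] W) (K : Submodule k V)
    (h : ∀ x ∈ K, f x = 0 → x = 0) : finrank k (K.map f) = finrank k K := by
  have h3 := LinearMap.finrank_range_add_finrank_ker (f.domRestrict K)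
  rw [LinearMap.range_domRestrict] at h3
  have : LinearMap.ker (f.domRestrict K) = ⊥ := by
    rw [eq_bot_iff]
    intro x hx
    exact (Submodule.mem_bot _).2 (Subtype.ext (h x x.2 hx))
  rw [this] at h3
  simpa using h3

lemma rk_Tr (fr : Frame L J) {D D' : Subalgebra k L} (hu : ∀ j, fr.u j ∈ D)
    (h : ∀ d ∈ D', ∀ j j', fr.b j * d * fr.a j' ∈ D) (ρ : FRep k D) (j₀ : J) (x : D)
    (hx1 : fr.u j₀ * x = x) (hx2 : x * fr.u j₀ = x) (ε : D')
    (hε : (ε : L) = fr.a j₀ * x * fr.b j₀) : rk ε (Tr fr hu h ρ) = rk x ρ := by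
  have key : ∀ (y : PiSp ρ (fun j => ⟨fr.u j, hu j⟩)) (j : J),
      (((Tr fr hu h ρ).π ε y : PiSp ρ (fun j => ⟨fr.u j, hu j⟩)) j : ρ.W)
        = if j = j₀ then ρ.π x (y j₀) else 0 := by
    intro y j
    rw [Tr_apply]
    have : ∀ l, (⟨fr.b j * ε * fr.a l, h ε ε.2 j l⟩ : D)
        = if j = j₀ ∧ l = j₀ then x else 0 := by
      intro l
      apply Subtype.ext
      have : fr.b j * ε * fr.a l = (fr.b j * fr.a j₀) * x * (fr.b j₀ * fr.a l) := by
        rw [hε]; simp only [mul_assoc]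
      simp only [this, fr.ba]
      by_cases h1 : j = j₀
      · by_cases h2 : l = j₀
        · subst h1 h2; simp [hx1, hx2]
        · simp [h2, Ne.symm h2]
      · simp [h1]
    simp only [this]
    by_cases h1 : j = j₀
    · rw [Finset.sum_eq_single j₀]
      · simp [h1]
      · intro l _ hl; simp [hl]
      · simp
    · simp [h1]
  let ψ : (Tr fr hu h ρ).W →ₗ[k] ρ.W :=
    (LinearMap.range (ρ.π ⟨fr.u j₀, hu j₀⟩)).subtype ∘ₗ
      LinearMap.proj (R := k) (φ := fun j => LinearMap.range (ρ.π ⟨fr.u j, hu j⟩)) j₀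
  have hψ : ∀ y, ψ ((Tr fr hu h ρ).π ε y) = ρ.π x (y j₀) := fun y => by
    have := key y j₀
    simp only [if_true] at this
    exact this
  unfold rk
  rw [← finrank_map_of_inj ψ]
  · suffices hs : Submodule.map ψ (LinearMap.range ((Tr fr hu h ρ).π ε))
        = LinearMap.range (ρ.π x) by rw [hs]
    ext z
    simp only [Submodule.mem_map, LinearMap.mem_range]
    constructor
    · rintro ⟨_, ⟨y, rfl⟩, rfl⟩
      exact ⟨_, (hψ y).symm⟩
    · rintro ⟨y, rfl⟩
      refine ⟨_, ⟨Pi.single (M := fun j => LinearMap.range (ρ.π ⟨fr.u j, hu j⟩)) j₀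
        ⟨ρ.π ⟨fr.u j₀, hu j₀⟩ y, ⟨y, rfl⟩⟩, rfl⟩, ?_⟩
      rw [hψ]
      simp only [Pi.single_eq_same]
      rw [← Module.End.mul_apply, ← map_mul]
      congr 2
      exact Subtype.ext hx2
  · rintro _ ⟨y, rfl⟩ hy
    refine funext fun j => Subtype.ext ?_
    rw [key]
    split_ifs
    · rw [← hψ, hy]; rfl
    · rfl

end Pool.Agent.P.MP_7da47b_al
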