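import Pool.Agent.P.MP_7da47b_al.Defs
import Pool.Agent.P.MP_7da47b_al.Transfer

/-!
Leavitt families in an algebra (graphs without sinks) and their level filtrations.
-/

namespace Pool.Agent.P.MP_7da47b_al

open Module Function FRep Finset

universe u

/-- paths of given length with terminal vertex -/
def PathT (G : FinGraph) : ℕ → Σ Γ : Type, (Γ → Fin G.nV)
  | 0 => ⟨Fin G.nV, id⟩
  | n + 1 => ⟨{x : (PathT G n).1 × Fin G.nE // G.s x.2 = (PathT G n).2 x.1}, fun x => G.r x.1.2⟩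

def Pth (G : FinGraph) (n : ℕ) : Type := (PathT G n).1

def tm {G : FinGraph} {n : ℕ} (γ : Pth G n) : Fin G.nV := (PathT G n).2 γ

instance Pth.deceq (G : FinGraph) : ∀ n, DecidableEq (Pth G n)
  | 0 => inferInstanceAs (DecidableEq (Fin G.nV))
  | n + 1 =>
    haveI := Pth.deceq G n
    inferInstanceAs (DecidableEq {x : Pth G n × Fin G.nE // G.s x.2 = tm x.1})

instance Pth.fintype (G : FinGraph) : ∀ n, Fintype (Pth G n)
  | 0 => inferInstanceAs (Fintype (Fin G.nV))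
  | n + 1 =>
    haveI := Pth.fintype G n
    inferInstanceAs (Fintype {x : Pth G n × Fin G.nE // G.s x.2 = tm x.1})

lemma sum_refine {G : FinGraph} {M : Type*} [AddCommMonoid M] {J : Type} [Fintype J]
    (w : J → Fin G.nV) (g : J → Fin G.nE → M) :
    ∑ x : {x : J × Fin G.nE // G.s x.2 = w x.1}, g x.1.1 x.1.2
      = ∑ j, ∑ e ∈ univ.filter (fun e => G.s e = w j), g j e := by
  rw [← Finset.sum_subtype (univ.filter fun x : J × Fin G.nE => G.s x.2 = w x.1) (by simp)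
    (fun x => g x.1 x.2), Finset.sum_filter, Fintype.sum_prod_type]
  exact Finset.sum_congr rfl fun j _ => (Finset.sum_filter _ _).symm

lemma sum_pth_succ {G : FinGraph} {M : Type*} [AddCommMonoid M] (n : ℕ)
    (g : Pth G n → Fin G.nE → M) :
    ∑ x : Pth G (n + 1), g x.1.1 x.1.2
      = ∑ γ : Pth G n, ∑ e ∈ univ.filter (fun e => G.s e = tm γ), g γ e :=
  sum_refine (fun γ : Pth G n => tm γ) g

/-- A Leavitt family for a graph without sinks. -/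
structure Fam (L : Type u) [Ring L] (G : FinGraph) where
  p : Fin G.nV → L
  s : Fin G.nE → L
  t : Fin G.nE → L
  pp : ∀ v w, p v * p w = if v = w then p v else 0
  ps : ∀ e, p (G.s e) * s e = s e
  sp : ∀ e, s e * p (G.r e) = s e
  pt : ∀ e, p (G.r e) * t e = t e
  tp : ∀ e, t e * p (G.s e) = t e
  ts : ∀ e f, t e * s f = if e = f then p (G.r e) else 0
  ck2 : ∀ v, ∑ e ∈ univ.filter (fun e => G.s e = v), s e * t e = p v
  one : ∑ v, p v = 1
  ne : ∀ v, p v ≠ 0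

namespace Fam

variable {L : Type u} [Ring L] {G : FinGraph} (Φ : Fam L G)

lemma pp_self (v : Fin G.nV) : Φ.p v * Φ.p v = Φ.p v := by simp [Φ.pp]

def edgeFrame : Frame L (Fin G.nE) where
  a := Φ.s
  b := Φ.t
  u e := Φ.p (G.r e)
  ba := Φ.ts
  au := Φ.sp
  ub := Φ.pt
  sum := by
    rw [← Φ.one, ← Finset.sum_fiberwise (s := univ) G.s]
    exact Finset.sum_congr rfl fun v _ => Φ.ck2 v

def a : ∀ {n : ℕ}, Pth G n → L
  | 0, v => Φ.p v
  | _ + 1, x => a x.1.1 * Φ.s x.1.2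

def b : ∀ {n : ℕ}, Pth G n → L
  | 0, v => Φ.p v
  | _ + 1, x => Φ.t x.1.2 * b x.1.1

lemma a_p : ∀ {n : ℕ} (γ : Pth G n), Φ.a γ * Φ.p (tm γ) = Φ.a γ
  | 0, v => Φ.pp_self v
  | _ + 1, x => by
    show Φ.a x.1.1 * Φ.s x.1.2 * Φ.p (G.r x.1.2) = Φ.a x.1.1 * Φ.s x.1.2
    rw [mul_assoc, Φ.sp]

lemma p_b : ∀ {n : ℕ} (γ : Pth G n), Φ.p (tm γ) * Φ.b γ = Φ.b γ
  | 0, v => Φ.pp_self v
  | _ + 1, x => by
    show Φ.p (G.r x.1.2) * (Φ.t x.1.2 * Φ.b x.1.1) = Φ.t x.1.2 * Φ.b x.1.1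
    rw [← mul_assoc, Φ.pt]

lemma b_a : ∀ {n : ℕ} (γ γ' : Pth G n), Φ.b γ * Φ.a γ' = if γ = γ' then Φ.p (tm γ) else 0
  | 0, v, w => Φ.pp v w
  | n + 1, x, y => by
    have key : ∀ (γ γ' : Pth G n) (e f : Fin G.nE), G.s e = tm γ →
        Φ.t e * Φ.b γ * (Φ.a γ' * Φ.s f) = if γ = γ' ∧ e = f then Φ.p (G.r e) else 0 := by
      intro γ γ' e f he
      rw [mul_assoc, ← mul_assoc (Φ.b γ), b_a γ γ']
      by_cases h : γ = γ'
      · subst h
        rw [if_pos rfl, ← he, ← mul_assoc, Φ.tp, Φ.ts]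
        simp
      · simp [h]
    refine (key x.1.1 y.1.1 x.1.2 y.1.2 x.2).trans ?_
    by_cases h : x = y
    · subst h
      rw [if_pos ⟨rfl, rfl⟩, if_pos rfl]; rfl
    · rw [if_neg h, if_neg]
      rintro ⟨h1, h2⟩
      exact h (Subtype.ext (Prod.ext h1 h2))

lemma sum_ab : ∀ n : ℕ, ∑ γ : Pth G n, Φ.a γ * Φ.b γ = 1
  | 0 => by
    rw [← Φ.one]
    exact Finset.sum_congr rfl fun v _ => Φ.pp_self v
  | n + 1 => by
    have := sum_pth_succ n (fun γ e => Φ.a γ * Φ.s e * (Φ.t e * Φ.b γ))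
    refine Eq.trans this ?_
    rw [← sum_ab n]
    refine Finset.sum_congr rfl fun γ _ => ?_
    conv_rhs => rw [← Φ.a_p γ, ← Φ.ck2, Finset.mul_sum, Finset.sum_mul]
    exact Finset.sum_congr rfl fun e _ => by simp only [mul_assoc]

def lvlFrame (n : ℕ) : Frame L (Pth G n) where
  a := Φ.a
  b := Φ.b
  u γ := Φ.p (tm γ)
  ba := Φ.b_a
  au := Φ.a_p
  ub := Φ.p_b
  sum := Φ.sum_ab n

lemma p_s (v : Fin G.nV) (e : Fin G.nE) : Φ.p v * Φ.s e = if v = G.s e then Φ.s e else 0 := by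
  rw [← Φ.ps e, ← mul_assoc, Φ.pp]
  split_ifs with h
  · rw [h]
  · simp

variable (k : Type u) [Field k] [Algebra k L]

/-- the span of the vertices -/
def P0 : Submodule k L := Submodule.span k (Set.range Φ.p)

lemma p_mem (v : Fin G.nV) : Φ.p v ∈ Φ.P0 k := Submodule.subset_span ⟨v, rfl⟩

variable {k}

lemma P0_mul_p {x : L} (hx : x ∈ Φ.P0 k) (w : Fin G.nV) :
    ∃ c : k, x * Φ.p w = c • Φ.p w ∧ Φ.p w * x = c • Φ.p w := by
  induction hx using Submodule.span_induction with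
  | mem x hx =>
    obtain ⟨v, rfl⟩ := hx
    by_cases h : v = w
    · subst h; exact ⟨1, by simp [Φ.pp], by simp [Φ.pp]⟩
    · exact ⟨0, by simp [Φ.pp, h], by simp [Φ.pp, Ne.symm h]⟩
  | zero => exact ⟨0, by simp, by simp⟩
  | add x y _ _ hx hy =>
    obtain ⟨c, h1, h2⟩ := hx
    obtain ⟨d, h3, h4⟩ := hy
    exact ⟨c + d, by rw [add_mul, h1, h3, add_smul], by rw [mul_add, h2, h4, add_smul]⟩
  | smul c x _ hx =>
    obtain ⟨d, h1, h2⟩ := hx
    exact ⟨c * d, by rw [smul_mul_assoc, h1, mul_smul], by rw [mul_smul_comm, h2, mul_smul]⟩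

lemma P0_mul {x y : L} (hx : x ∈ Φ.P0 k) (hy : y ∈ Φ.P0 k) : x * y ∈ Φ.P0 k := by
  induction hy using Submodule.span_induction with
  | mem y hy =>
    obtain ⟨v, rfl⟩ := hy
    obtain ⟨c, h, -⟩ := Φ.P0_mul_p hx v
    rw [h]; exact Submodule.smul_mem _ _ (Φ.p_mem k v)
  | zero => simp
  | add y z _ _ hy hz => rw [mul_add]; exact add_mem hy hz
  | smul c y _ hy => rw [mul_smul_comm]; exact Submodule.smul_mem _ _ hy

lemma ts_mem (e f : Fin G.nE) : Φ.t e * Φ.s f ∈ Φ.P0 k := by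
  rw [Φ.ts]; split_ifs
  · exact Φ.p_mem k _
  · simp

lemma t_P0_s {x : L} (hx : x ∈ Φ.P0 k) (e f : Fin G.nE) : Φ.t e * x * Φ.s f ∈ Φ.P0 k := by
  obtain ⟨c, h, -⟩ := Φ.P0_mul_p hx (G.s f)
  rw [← Φ.ps f, mul_assoc, ← mul_assoc x, h, smul_mul_assoc, mul_smul_comm, Φ.ps]
  exact Submodule.smul_mem _ _ (Φ.ts_mem e f)

variable (k)

/-- boundedness at levels `i`, `j` -/
def Bd (x : L) (i j : ℕ) : Prop :=
  ∀ (γ : Pth G i) (γ' : Pth G j), Φ.b γ * x * Φ.a γ' ∈ Φ.P0 k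

variable {k Φ}

lemma Bd.succ {x : L} {i j : ℕ} (h : Φ.Bd k x i j) : Φ.Bd k x (i + 1) (j + 1) := by
  intro γ γ'
  have := Φ.t_P0_s (h γ.1.1 γ'.1.1) γ.1.2 γ'.1.2
  simp only [← mul_assoc] at this
  show Φ.t γ.1.2 * Φ.b γ.1.1 * x * (Φ.a γ'.1.1 * Φ.s γ'.1.2) ∈ _
  simpa only [← mul_assoc] using this

lemma Bd.add_right {x : L} {i j : ℕ} (h : Φ.Bd k x i j) (n : ℕ) : Φ.Bd k x (i + n) (j + n) := by
  induction n with
  | zero => exact h
  | succ n ih => exact ih.succ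

lemma Bd.cast {x : L} {i j i' j' : ℕ} (h : Φ.Bd k x i j) (hi : i = i') (hj : j = j') :
    Φ.Bd k x i' j' := by subst hi hj; exact h

lemma Bd.mono {x : L} {i i' : ℕ} (h : Φ.Bd k x i i) (hi : i ≤ i') : Φ.Bd k x i' i' :=
  (h.add_right (i' - i)).cast (by omega) (by omega)

lemma Bd.mul {x y : L} {i j l : ℕ} (hx : Φ.Bd k x i j) (hy : Φ.Bd k y j l) :
    Φ.Bd k (x * y) i l := by
  intro γ γ'
  have := (Φ.lvlFrame j).insert (Φ.b γ * x) (y * Φ.a γ')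
  rw [show Φ.b γ * (x * y) * Φ.a γ' = (Φ.b γ * x) * (y * Φ.a γ') by simp only [mul_assoc], this]
  refine Submodule.sum_mem _ fun δ _ => Φ.P0_mul (hx γ δ) ?_
  have := hy δ γ'
  rwa [mul_assoc] at this

lemma Bd.zero {i j : ℕ} : Φ.Bd k 0 i j := fun _ _ => by simp

lemma Bd.add {x y : L} {i j : ℕ} (hx : Φ.Bd k x i j) (hy : Φ.Bd k y i j) :
    Φ.Bd k (x + y) i j := fun γ γ' => by
  rw [mul_add, add_mul]; exact add_mem (hx γ γ') (hy γ γ')

lemma Bd.smul {x : L} {i j : ℕ} (c : k) (hx : Φ.Bd k x i j) : Φ.Bd k (c • x) i j := fun γ γ' => by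
  rw [mul_smul_comm, smul_mul_assoc]; exact Submodule.smul_mem _ _ (hx γ γ')

lemma Bd.sum {ι : Type*} {i j : ℕ} (s : Finset ι) (f : ι → L) (h : ∀ x ∈ s, Φ.Bd k (f x) i j) :
    Φ.Bd k (∑ x ∈ s, f x) i j :=
  Finset.sum_induction f (fun x => Φ.Bd k x i j) (fun _ _ => Bd.add) Bd.zero h

lemma ba_mem {n : ℕ} (γ γ' : Pth G n) : Φ.b γ * Φ.a γ' ∈ Φ.P0 k := by
  rw [Φ.b_a]; split_ifs
  · exact Φ.p_mem k _
  · simp

lemma Bd.one (i : ℕ) : Φ.Bd k 1 i i := fun γ γ' => by rw [mul_one]; exact ba_mem γ γ'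

lemma Bd.of_P0 {x : L} (hx : x ∈ Φ.P0 k) : Φ.Bd k x 0 0 := fun v w =>
  Φ.P0_mul (Φ.P0_mul (Φ.p_mem k v) hx) (Φ.p_mem k w)

lemma Bd.to_P0 {x : L} (hx : Φ.Bd k x 0 0) : x ∈ Φ.P0 k := by
  have : x = ∑ v, ∑ w, Φ.p v * x * Φ.p w := by
    simp only [← Finset.mul_sum, Φ.one, mul_one, ← Finset.sum_mul, one_mul]
  rw [this]
  exact Submodule.sum_mem _ fun v _ => Submodule.sum_mem _ fun w _ => hx v w

lemma Bd.p (v : Fin G.nV) (i : ℕ) : Φ.Bd k (Φ.p v) i i :=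
  (Bd.of_P0 (Φ.p_mem k v)).mono (Nat.zero_le _)

lemma Bd.a {n : ℕ} (γ : Pth G n) : Φ.Bd k (Φ.a γ) n 0 := fun γ' w =>
  Φ.P0_mul (ba_mem γ' γ) (Φ.p_mem k w)

lemma Bd.b {n : ℕ} (γ : Pth G n) : Φ.Bd k (Φ.b γ) 0 n := fun w γ' => by
  rw [mul_assoc]; exact Φ.P0_mul (Φ.p_mem k w) (ba_mem γ γ')

lemma Bd.s (e : Fin G.nE) (i : ℕ) : Φ.Bd k (Φ.s e) (i + 1) i := by
  have h := (Bd.a (k := k) (Φ := Φ) (n := 1) ⟨(G.s e, e), rfl⟩).add_right i
  have e1 : Φ.a (n := 1) ⟨(G.s e, e), rfl⟩ = Φ.s e := Φ.ps e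
  rw [e1] at h
  exact h.cast (by omega) (by omega)

lemma Bd.t (e : Fin G.nE) (i : ℕ) : Φ.Bd k (Φ.t e) i (i + 1) := by
  have h := (Bd.b (k := k) (Φ := Φ) (n := 1) ⟨(G.s e, e), rfl⟩).add_right i
  have e1 : Φ.b (n := 1) ⟨(G.s e, e), rfl⟩ = Φ.t e := Φ.tp e
  rw [e1] at h
  exact h.cast (by omega) (by omega)

lemma Bd.down {x : L} {i : ℕ} (h : Φ.Bd k x (i + 1) (i + 1)) (e f : Fin G.nE) :
    Φ.Bd k (Φ.t e * x * Φ.s f) i i := ((Bd.t e i).mul h).mul (Bd.s f i)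

lemma Bd.up {x : L} {i : ℕ} (h : ∀ e f, Φ.Bd k (Φ.t e * x * Φ.s f) i i) :
    Φ.Bd k x (i + 1) (i + 1) := by
  have e1 : x = ∑ e, ∑ f, Φ.s e * (Φ.t e * x * Φ.s f) * Φ.t f := by
    have h1 : ∑ e, Φ.s e * Φ.t e = 1 := Φ.edgeFrame.sum
    calc x = (∑ e, Φ.s e * Φ.t e) * x * (∑ e, Φ.s e * Φ.t e) := by rw [h1]; simp
      _ = _ := by
        rw [Finset.sum_mul, Finset.sum_mul]
        refine Finset.sum_congr rfl fun e _ => ?_
        rw [Finset.mul_sum]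
        exact Finset.sum_congr rfl fun f _ => by simp only [mul_assoc]
  rw [e1]
  exact Bd.sum _ _ fun e _ => Bd.sum _ _ fun f _ => ((Bd.s e i).mul (h e f)).mul (Bd.t f i)

variable (k Φ)

/-- the level algebra -/
def P (i : ℕ) : Subalgebra k L where
  carrier := {x | Φ.Bd k x i i}
  mul_mem' := Bd.mul
  add_mem' := Bd.add
  algebraMap_mem' c := by
    rw [Algebra.algebraMap_eq_smul_one]
    exact (Bd.one i).smul c

lemma mem_P {i : ℕ} {x : L} : x ∈ Φ.P k i ↔ Φ.Bd k x i i := Iff.rfl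

lemma fd_of_Bd (i j : ℕ) (U : Submodule k L) (hU : ∀ x ∈ U, Φ.Bd k x i j) :
    FiniteDimensional k U := by
  let f : Pth G i × Fin G.nV × Pth G j → L := fun x => Φ.a x.1 * Φ.p x.2.1 * Φ.b x.2.2
  have : FiniteDimensional k (Submodule.span k (Set.range f)) :=
    FiniteDimensional.span_of_finite k (Set.finite_range f)
  refine Submodule.finiteDimensional_of_le (S₂ := Submodule.span k (Set.range f)) ?_
  intro x hx
  have e1 : x = ∑ γ : Pth G i, ∑ γ' : Pth G j, Φ.a γ * (Φ.b γ * x * Φ.a γ') * Φ.b γ' := by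
    calc x = (∑ γ : Pth G i, Φ.a γ * Φ.b γ) * x * (∑ γ : Pth G j, Φ.a γ * Φ.b γ) := by
          rw [Φ.sum_ab, Φ.sum_ab]; simp
      _ = _ := by
        rw [Finset.sum_mul, Finset.sum_mul]
        refine Finset.sum_congr rfl fun e _ => ?_
        rw [Finset.mul_sum]
        exact Finset.sum_congr rfl fun f _ => by simp only [mul_assoc]
  rw [e1]
  refine Submodule.sum_mem _ fun γ _ => Submodule.sum_mem _ fun γ' _ => ?_
  generalize_proofs
  have hy := hU x hx γ γ'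
  generalize Φ.b γ * x * Φ.a γ' = y at hy
  induction hy using Submodule.span_induction with
  | mem y hy =>
    obtain ⟨v, rfl⟩ := hy
    exact Submodule.subset_span ⟨(γ, v, γ'), rfl⟩
  | zero => simp
  | add y z _ _ hy hz => rw [mul_add, add_mul]; exact add_mem hy hz
  | smul c y _ hy => rw [mul_smul_comm, smul_mul_assoc]; exact Submodule.smul_mem _ _ hy

/-- the standard simple module of the level algebra -/
def Sw (i : ℕ) (w : Fin G.nV) : Submodule k L where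
  carrier := {x | Φ.Bd k x i 0 ∧ x * Φ.p w = x}
  add_mem' := fun hx hy => ⟨hx.1.add hy.1, by rw [add_mul, hx.2, hy.2]⟩
  zero_mem' := ⟨Bd.zero, zero_mul _⟩
  smul_mem' := fun c _ hx => ⟨hx.1.smul c, by rw [smul_mul_assoc, hx.2]⟩

lemma a_ne {n : ℕ} (γ : Pth G n) : Φ.a γ ≠ 0 := fun h => by
  have := Φ.b_a γ γ
  rw [h, mul_zero, if_pos rfl] at this
  exact Φ.ne _ this.symm

lemma finrank_Sw (i : ℕ) (w : Fin G.nV) :
    finrank k (Φ.Sw k i w) = ∑ γ : Pth G i, if tm γ = w then 1 else 0 := by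
  let f : {γ : Pth G i // tm γ = w} → L := fun γ => Φ.a γ.1
  have hli : LinearIndependent k f := by
    rw [Fintype.linearIndependent_iff]
    intro c hc γ
    have := congrArg (fun x => Φ.b γ.1 * x) hc
    simp only [f, Finset.mul_sum, mul_smul_comm, Φ.b_a, mul_zero] at this
    rw [Finset.sum_eq_single γ] at this
    · rw [if_pos rfl] at this
      exact (smul_eq_zero.1 this).resolve_right (Φ.ne _)
    · intro δ _ hδ
      rw [if_neg (fun h => hδ (Subtype.ext h.symm)), smul_zero]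
    · simp
  have hsp : Φ.Sw k i w = Submodule.span k (Set.range f) := by
    apply le_antisymm
    · rintro x ⟨h1, h2⟩
      have e1 : x = ∑ γ : Pth G i, Φ.a γ * (Φ.b γ * x * Φ.p w) := by
        have := (Φ.lvlFrame i).insert 1 x
        simp only [one_mul] at this
        conv_lhs => rw [this]
        exact Finset.sum_congr rfl fun γ _ => by rw [mul_assoc, h2]; rfl
      rw [e1]
      refine Submodule.sum_mem _ fun γ _ => ?_
      obtain ⟨c, hc, -⟩ := Φ.P0_mul_p (h1 γ w) w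
      have hc' : Φ.b γ * x * Φ.p w = c • Φ.p w := by
        rw [← hc]
        show _ = Φ.b γ * x * Φ.p w * Φ.p w
        rw [mul_assoc (Φ.b γ * x), Φ.pp_self]
      rw [hc', mul_smul_comm]
      refine Submodule.smul_mem _ _ ?_
      rw [← Φ.a_p γ, mul_assoc, Φ.pp]
      split_ifs with h
      · rw [Φ.a_p]; exact Submodule.subset_span ⟨⟨γ, h⟩, rfl⟩
      · simp
    · rw [Submodule.span_le]
      rintro _ ⟨γ, rfl⟩
      exact ⟨Bd.a _, by rw [← γ.2]; exact Φ.a_p _⟩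
  rw [hsp, finrank_span_eq_card hli, Fintype.card_subtype, Finset.card_filter]

variable {k}

/-- the standard representation -/
noncomputable def Srep {i : ℕ} {D : Subalgebra k L} (hD : ∀ x, x ∈ D ↔ Φ.Bd k x i i)
    (w : Fin G.nV) : FRep k D where
  W := Φ.Sw k i w
  fd := Φ.fd_of_Bd k i 0 _ fun _ hx => hx.1
  π := AlgHom.ofLinearMap
    { toFun := fun d => (LinearMap.mulLeft k (d : L)).restrict (p := Φ.Sw k i w) (q := Φ.Sw k i w)
        fun x hx => ⟨((hD d).1 d.2).mul hx.1, by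
          show (d : L) * x * Φ.p w = d * x
          rw [mul_assoc, hx.2]⟩
      map_add' := fun a b => by ext x; simp [add_mul]
      map_smul' := fun c a => by ext x; simp }
    (by ext x; simp) (fun a b => by ext x; simp)

lemma Srep_apply {i : ℕ} {D : Subalgebra k L} (hD : ∀ x, x ∈ D ↔ Φ.Bd k x i i)
    (w : Fin G.nV) (d : D) (x : Φ.Sw k i w) :
    Subtype.val (p := fun y => y ∈ Φ.Sw k i w) ((Φ.Srep hD w).π d x) = d * x := rfl

variable (k) in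
/-- generalized paths -/
structure GP (i : ℕ) (w : Fin G.nV) (x y : L) : Prop where
  ha : Φ.Bd k x i 0
  hb : Φ.Bd k y 0 i
  ba : y * x = Φ.p w
  ap : x * Φ.p w = x
  pb : Φ.p w * y = y

variable {Φ}

lemma GP.bd {i : ℕ} {w w' : Fin G.nV} {x y x' y' : L} (h : Φ.GP k i w x y)
    (h' : Φ.GP k i w' x' y') : Φ.Bd k (x * y') i i := h.ha.mul h'.hb

lemma GP.idem {i : ℕ} {w : Fin G.nV} {x y : L} (h : Φ.GP k i w x y) :
    x * y * (x * y) = x * y := by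
  rw [mul_assoc, ← mul_assoc y, h.ba, h.pb]

lemma GP.pth {i : ℕ} (γ : Pth G i) : Φ.GP k i (tm γ) (Φ.a γ) (Φ.b γ) :=
  ⟨Bd.a γ, Bd.b γ, by rw [Φ.b_a, if_pos rfl], Φ.a_p γ, Φ.p_b γ⟩

lemma GP.append {i : ℕ} {x y : L} (e : Fin G.nE) (h : Φ.GP k i (G.s e) x y) :
    Φ.GP k (i + 1) (G.r e) (x * Φ.s e) (Φ.t e * y) :=
  ⟨(h.ha.succ).mul (Bd.s e 0), (Bd.t e 0).mul h.hb.succ,
    by rw [mul_assoc, ← mul_assoc y, h.ba, Φ.ps, Φ.ts, if_pos rfl],
    by rw [mul_assoc, Φ.sp], by rw [← mul_assoc, Φ.pt]⟩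

lemma GP.prepend {i : ℕ} {w : Fin G.nV} {x y : L} (e : Fin G.nE) (h : Φ.GP k i w x y)
    (hx : Φ.p (G.r e) * x = x) : Φ.GP k (i + 1) w (Φ.s e * x) (y * Φ.t e) :=
  ⟨(Bd.s e i).mul h.ha, h.hb.mul (Bd.t e i),
    by rw [mul_assoc, ← mul_assoc (Φ.t e), Φ.ts, if_pos rfl, hx, h.ba],
    by rw [mul_assoc, h.ap], by rw [← mul_assoc, h.pb]⟩

lemma rk_GP_eq {i : ℕ} {D : Subalgebra k L} {w : Fin G.nV} {x y x' y' : L}
    (h : Φ.GP k i w x y) (h' : Φ.GP k i w x' y') (hD : ∀ x, Φ.Bd k x i i → x ∈ D)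
    (ρ : FRep k D) :
    rk ⟨x * y, hD _ (h.bd h)⟩ ρ = rk ⟨x' * y', hD _ (h'.bd h')⟩ ρ := by
  have := sum_rk_eq ρ (J := Unit) (J' := Unit) (fun _ => ⟨x * y, hD _ (h.bd h)⟩)
    (fun _ => ⟨x' * y', hD _ (h'.bd h')⟩) (fun _ => Subtype.ext h.idem)
    (fun _ => Subtype.ext h'.idem) (fun _ _ => ⟨x * y', hD _ (h.bd h')⟩)
    (fun _ _ => Subtype.ext (by
      show x * y * (x * y') = x * y'
      rw [mul_assoc, ← mul_assoc y, h.ba, h'.pb]))
    (fun _ _ => ⟨x' * y, hD _ (h'.bd h)⟩)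
    (fun _ _ => Subtype.ext (by
      show x' * y' * (x' * y) = x' * y
      rw [mul_assoc, ← mul_assoc y', h'.ba, h.pb]))
    (fun _ _ => by
      simp only [Finset.univ_unique, Finset.sum_singleton, if_true]
      exact Subtype.ext (by
        show x * y' * (x' * y) = x * y
        rw [mul_assoc, ← mul_assoc y', h'.ba, h.pb]))
    (fun _ _ => by
      simp only [Finset.univ_unique, Finset.sum_singleton, if_true]
      exact Subtype.ext (by
        show x' * y * (x * y') = x' * y'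
        rw [mul_assoc, ← mul_assoc y, h.ba, h'.pb]))
  simpa using this

lemma GP.scalar {i : ℕ} {w w' : Fin G.nV} {x y z : L} (h : Φ.GP k i w x y)
    (hz : z ∈ Φ.Sw k i w') : ∃ c : k, y * z = c • Φ.p w ∧ (w ≠ w' → c = 0) := by
  have h0 : y * z ∈ Φ.P0 k := (h.hb.mul hz.1).to_P0
  obtain ⟨c, -, hc⟩ := Φ.P0_mul_p h0 w
  rw [← mul_assoc, h.pb] at hc
  refine ⟨c, hc, fun hw => ?_⟩
  have : y * z * Φ.p w' = y * z := by rw [mul_assoc, hz.2]
  rw [hc, smul_mul_assoc, Φ.pp, if_neg hw, smul_zero] at this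
  exact (smul_eq_zero.1 this.symm).resolve_right (Φ.ne _)

lemma rk_Srep {i : ℕ} {D : Subalgebra k L} (hD : ∀ x, x ∈ D ↔ Φ.Bd k x i i)
    {w : Fin G.nV} {x y : L} (h : Φ.GP k i w x y) (w' : Fin G.nV) :
    rk ⟨x * y, (hD _).2 (h.bd h)⟩ (Φ.Srep hD w') = if w = w' then 1 else 0 := by
  unfold rk
  split_ifs with hw
  · subst hw
    have hx : x ∈ Φ.Sw k i w := ⟨h.ha, h.ap⟩
    let x' : (Φ.Srep hD w).W := ⟨x, hx⟩
    have hx0 : x' ≠ 0 := fun h0 => by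
      have h1 : x = 0 := congrArg Subtype.val h0
      have := h.ba
      rw [h1, mul_zero] at this
      exact Φ.ne _ this.symm
    rw [← finrank_span_singleton (K := k) hx0]
    suffices hs : LinearMap.range ((Φ.Srep hD w).π ⟨x * y, (hD _).2 (h.bd h)⟩)
      = Submodule.span k {x'} by rw [hs]
    apply le_antisymm
    · rintro _ ⟨z, rfl⟩
      obtain ⟨c, hc, -⟩ := h.scalar z.2
      refine Submodule.mem_span_singleton.2 ⟨c, Subtype.ext ?_⟩
      show c • x = x * y * z.1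
      rw [mul_assoc, hc, mul_smul_comm, h.ap]
    · refine (Submodule.span_singleton_le_iff_mem _ _).2 ⟨x', Subtype.ext ?_⟩
      show x * y * x = x
      rw [mul_assoc, h.ba, h.ap]
  · rw [Submodule.finrank_eq_zero, LinearMap.range_eq_bot]
    refine LinearMap.ext fun z => Subtype.ext ?_
    obtain ⟨c, hc, hc'⟩ := h.scalar z.2
    show x * y * z.1 = 0
    rw [mul_assoc, hc, hc' hw, zero_smul, mul_zero]

lemma exists_Srep_inj {i : ℕ} {D : Subalgebra k L} (hD : ∀ x, x ∈ D ↔ Φ.Bd k x i i)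
    (ρ : FRep k D) (hρ : Nontrivial ρ.W) :
    ∃ (γ : Pth G i) (f : (Φ.Srep hD (tm γ)).W →ₗ[k] ρ.W), Nontrivial (Φ.Srep hD (tm γ)).W ∧
      Intertw _ _ f ∧ Injective f := by
  obtain ⟨x, hx⟩ := exists_ne (0 : ρ.W)
  have hmem : ∀ γ : Pth G i, Φ.a γ * Φ.b γ ∈ D := fun γ => (hD _).2 ((Bd.a γ).mul (Bd.b γ))
  obtain ⟨γ, hγ⟩ : ∃ γ : Pth G i, ρ.π ⟨_, hmem γ⟩ x ≠ 0 := by
    by_contra hcon
    push Not at hcon
    apply hx
    have e1 : (∑ γ : Pth G i, (⟨_, hmem γ⟩ : D)) = 1 := by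
      apply Subtype.ext
      simp only [AddSubmonoidClass.coe_finsetSum, OneMemClass.coe_one]
      exact Φ.sum_ab i
    calc x = ρ.π 1 x := by simp
      _ = ∑ γ : Pth G i, ρ.π ⟨_, hmem γ⟩ x := by rw [← e1, map_sum, LinearMap.sum_apply]
      _ = 0 := Finset.sum_eq_zero fun γ _ => hcon γ
  let f : Φ.Sw k i (tm γ) →ₗ[k] ρ.W :=
    { toFun := fun z => ρ.π ⟨z.1 * Φ.b γ, (hD _).2 (z.2.1.mul (Bd.b γ))⟩ x
      map_add' := fun z z' => by
        rw [← LinearMap.add_apply, ← map_add]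
        congr 2
        exact Subtype.ext (add_mul _ _ _)
      map_smul' := fun c z => by
        rw [RingHom.id_apply, ← LinearMap.smul_apply, ← map_smul]
        congr 2
        exact Subtype.ext (smul_mul_assoc _ _ _) }
  refine ⟨γ, f, ⟨⟨⟨Φ.a γ, Bd.a γ, Φ.a_p γ⟩, 0, fun h0 => Φ.a_ne γ (congrArg Subtype.val h0)⟩⟩,
    fun d z => ?_, ?_⟩
  · show ρ.π _ x = ρ.π d (ρ.π _ x)
    rw [← Module.End.mul_apply, ← map_mul]
    congr 2
    exact Subtype.ext (mul_assoc _ _ _)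
  · rw [injective_iff_map_eq_zero]
    intro z hz
    apply Subtype.ext
    show z.1 = 0
    have e1 := (Φ.lvlFrame i).insert 1 z.1
    simp only [one_mul] at e1
    rw [e1]
    refine Finset.sum_eq_zero fun δ _ => ?_
    obtain ⟨c, hc, hc'⟩ := (GP.pth (k := k) (Φ := Φ) δ).scalar z.2
    suffices h0 : c = 0 by
      show Φ.a δ * (Φ.b δ * z.1) = 0
      rw [hc, h0, zero_smul, mul_zero]
    by_cases hδ : tm δ = tm γ
    · have hz' : ρ.π ⟨z.1 * Φ.b γ, (hD _).2 (z.2.1.mul (Bd.b γ))⟩ x = 0 := hz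
      have h2 := congrArg (ρ.π ⟨Φ.a γ * Φ.b δ, (hD _).2 ((Bd.a γ).mul (Bd.b δ))⟩) hz'
      rw [map_zero, ← Module.End.mul_apply, ← map_mul] at h2
      have h3 : (⟨Φ.a γ * Φ.b δ, (hD _).2 ((Bd.a γ).mul (Bd.b δ))⟩ : D)
          * ⟨z.1 * Φ.b γ, (hD _).2 (z.2.1.mul (Bd.b γ))⟩ = c • ⟨_, hmem γ⟩ := by
        apply Subtype.ext
        show Φ.a γ * Φ.b δ * (z.1 * Φ.b γ) = c • (Φ.a γ * Φ.b γ)
        rw [mul_assoc, ← mul_assoc (Φ.b δ), hc, hδ, smul_mul_assoc, Φ.p_b, mul_smul_comm]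
      rw [h3, map_smul, LinearMap.smul_apply] at h2
      exact (smul_eq_zero.1 h2).resolve_right hγ
    · exact hc' hδ

end Fam

end Pool.Agent.P.MP_7da47b_al
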