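import Pool.Agent.P.MP_7da47b_al.ModFrame

/-!
Computation of the graded Grothendieck group.
-/

namespace Pool.Agent.P.MP_7da47b_al

open Module Function FRep Finset Matrix MulOpposite

universe u

variable {k : Type u} [Field k] {L : Type u} [Ring L] [Algebra k L] {G : FinGraph}
  {𝒜 : ℤ → Submodule k L} [GradedAlgebra 𝒜] {n : ℕ}

namespace PF

variable {Φ : Fam L G} {C : Core G n} {P Q : GrProj (grOf 𝒜)} {N : ℤ}

lemma exists_trans (hΦ : Φ.Gr k 𝒜) (F F' : PF Φ C P N) : ∃ T : F.J → F'.J → L,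
    (∀ j l, T j l ∈ 𝒜 0) ∧ (∀ j l, F.u j * T j l = T j l) ∧
    ∀ l, F'.y l = ∑ j, op (T j l) • F.y j := by
  choose c h1 h2 using fun l => F.span_deg (m := 0) (x := F'.y l) (by simpa using F'.mem l)
  refine ⟨fun j l => F.u j * c l j, fun j l => ?_, fun j l => ?_, fun l => ?_⟩
  · simpa using SetLike.mul_mem_graded (hΦ.p (C.ι (F.w j))) (h1 l j)
  · rw [← mul_assoc, Φ.pp_self]
  · simpa only [F.act_u] using h2 l

lemma Indep.trans_mul {F F' : PF Φ C P N} (hF : F.Indep) {T : F.J → F'.J → L}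
    {T' : F'.J → F.J → L} (h1 : ∀ j l, F.u j * T j l = T j l)
    (h2 : ∀ l, F'.y l = ∑ j, op (T j l) • F.y j) (h3 : ∀ l, F.y l = ∑ j, op (T' j l) • F'.y j)
    (j j' : F.J) : ∑ l, T j l * T' l j' = if j = j' then F.u j else 0 := by
  have := hF (fun j => ∑ l, T j l * T' l j' - if j = j' then F.u j else 0) (by
    simp only [op_sub, sub_smul, Finset.sum_sub_distrib]
    rw [sub_eq_zero, Finset.sum_eq_single j' (f := fun j => op (if j = j' then F.u j else 0) • F.y j)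
      (fun j _ hj => by simp [hj]) (by simp), if_pos rfl, F.fix, h3]
    simp only [h2, Finset.smul_sum, act_act, Finset.op_sum, Finset.sum_smul]
    exact Finset.sum_comm) j
  rw [mul_sub, Finset.mul_sum, sub_eq_zero] at this
  simp only [← mul_assoc, h1] at this
  rw [this]
  split_ifs
  · exact Φ.pp_self _
  · simp

lemma sum_cnt (F : PF Φ C P N) (g : Fin n → ℕ) : ∑ j, g (F.w j) = ∑ v, g v * F.cnt v := by
  simp only [cnt, Finset.mul_sum]
  rw [Finset.sum_comm]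
  exact Finset.sum_congr rfl fun j _ => by simp

lemma cnt_unique (hΦ : Φ.Gr k 𝒜) {F F' : PF Φ C P N} (hF : F.Indep) (hF' : F'.Indep) :
    ∃ i : ℕ, ∀ z, ∑ v, (C.adj ^ i) v z * F.cnt v = ∑ v, (C.adj ^ i) v z * F'.cnt v := by
  obtain ⟨T, h1, h2, h3⟩ := exists_trans hΦ F F'
  obtain ⟨T', h1', h2', h3'⟩ := exists_trans hΦ F' F
  obtain ⟨i, hi⟩ := Fam.exists_level (Φ := Φ) (fun x : F.J × F'.J => T x.1 x.2)
    fun x => hΦ.dg _ _ (h1 _ _)
  obtain ⟨i', hi'⟩ := Fam.exists_level (Φ := Φ) (fun x : F'.J × F.J => T' x.1 x.2)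
    fun x => hΦ.dg _ _ (h1' _ _)
  refine ⟨i + i', fun z => ?_⟩
  have hD : ∀ x, x ∈ Φ.P k (i + i') ↔ Φ.Bd k x (i + i') (i + i') := fun _ => Iff.rfl
  have hrk : ∀ v, rk ⟨Φ.p (C.ι v), Fam.Bd.p _ _⟩ (Φ.Srep hD (C.ι z)) = (C.adj ^ (i + i')) v z := by
    intro v
    rw [← Fam.rk_GP_Srep C hD z (i + i') 0 (by simp) v _ _ (Fam.GP.pth (i := 0) (C.ι v))
      ((Fam.Bd.p _ _).mul (Fam.Bd.p _ _))]
    congr 1
    exact Subtype.ext (Φ.pp_self _).symm
  have := sum_rk_eq (Φ.Srep hD (C.ι z)) (fun j : F.J => ⟨F.u j, Fam.Bd.p _ _⟩)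
    (fun l : F'.J => ⟨F'.u l, Fam.Bd.p _ _⟩) (fun j => Subtype.ext (Φ.pp_self _))
    (fun j => Subtype.ext (Φ.pp_self _))
    (fun j l => ⟨T j l, (hi (j, l)).mono (by omega)⟩) (fun j l => Subtype.ext (h2 j l))
    (fun l j => ⟨T' l j, (hi' (l, j)).mono (by omega)⟩) (fun j l => Subtype.ext (h2' j l))
    (fun j j' => by
      apply Subtype.ext
      simp only [MulMemClass.coe_mul, AddSubmonoidClass.coe_finsetSum]
      rw [hF.trans_mul h2 h3 h3']
      split_ifs <;> rfl)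
    (fun j j' => by
      apply Subtype.ext
      simp only [MulMemClass.coe_mul, AddSubmonoidClass.coe_finsetSum]
      rw [hF'.trans_mul h2' h3' h3]
      split_ifs <;> rfl)
  simp only [u, hrk] at this
  rw [← F.sum_cnt (fun v => (C.adj ^ (i + i')) v z), ← F'.sum_cnt (fun v => (C.adj ^ (i + i')) v z)]
  exact this

lemma Indep.ker_iff {F : PF Φ C P N} (hF : F.Indep) (c : F.J → L) :
    F.toMod c = 0 ↔ ∀ j, F.u j * c j = 0 := by
  refine ⟨hF c, fun h => Finset.sum_eq_zero fun j _ => ?_⟩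
  rw [← F.act_u, h, op_zero, zero_smul]

lemma iso_of_cnt {F : PF Φ C P N} {F' : PF Φ C Q N} (hF : F.Indep) (hF' : F'.Indep)
    (h : F.cnt = F'.cnt) : GrProj.Iso P Q := by
  have hcard : ∀ z, Fintype.card {j // F.w j = z} = Fintype.card {j // F'.w j = z} := fun z => by
    rw [Fintype.card_subtype, Fintype.card_subtype, Finset.card_filter, Finset.card_filter]
    exact congrFun h z
  let σ : F.J ≃ F'.J := Equiv.ofFiberEquiv fun z => Fintype.equivOfCardEq (hcard z)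
  have hσ : ∀ j, F'.w (σ j) = F.w j := Equiv.ofFiberEquiv_map _
  let τ : (F.J → L) ≃ₗ[Lᵐᵒᵖ] (F'.J → L) := LinearEquiv.funCongrLeft Lᵐᵒᵖ L σ.symm
  have hτ : ∀ c l, τ c l = c (σ.symm l) := fun _ _ => rfl
  let g : (F.J → L) →ₗ[Lᵐᵒᵖ] Q.M := F'.toMod ∘ₗ τ.toLinearMap
  have hg : Surjective g := F'.toMod_surj.comp τ.surjective
  have hker : LinearMap.ker F.toMod = LinearMap.ker g := by
    ext c
    rw [LinearMap.mem_ker, LinearMap.mem_ker, hF.ker_iff]
    show _ ↔ F'.toMod (τ c) = 0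
    rw [hF'.ker_iff, σ.forall_congr_left]
    refine forall_congr' fun l => ?_
    rw [hτ, u, u, ← hσ, σ.apply_symm_apply]
  let e : P.M ≃ₗ[Lᵐᵒᵖ] Q.M := (F.toMod.quotKerEquivOfSurjective F.toMod_surj).symm ≪≫ₗ
    Submodule.quotEquivOfEq _ _ hker ≪≫ₗ g.quotKerEquivOfSurjective hg
  have he : ∀ c, e (F.toMod c) = g c := fun c => by
    simp only [e, LinearEquiv.trans_apply, LinearMap.quotKerEquivOfSurjective_symm_apply]
    rfl
  refine ⟨e, fun m x => ⟨fun hx => ?_, fun hx => ?_⟩⟩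
  · obtain ⟨c, h1, h2⟩ := F.span_deg (m := m - N) (x := x) (by simpa using hx)
    have : x = F.toMod c := h2
    rw [this, he]
    refine AddSubgroup.sum_mem _ fun l _ => ?_
    have := Q.smul_mem _ _ _ _ (F'.mem l) (h1 (σ.symm l))
    rwa [add_sub_cancel] at this
  · obtain ⟨c, h1, h2⟩ := F'.span_deg (m := m - N) (x := e x) (by simpa using hx)
    have : x = F.toMod (τ.symm c) := e.injective (by
      rw [he, h2]
      show _ = F'.toMod (τ (τ.symm c))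
      rw [τ.apply_symm_apply]
      rfl)
    rw [this]
    refine AddSubgroup.sum_mem _ fun l _ => ?_
    have := P.smul_mem _ _ _ _ (F.mem l) (h1 (σ l))
    rwa [add_sub_cancel] at this

/-- transport along an isomorphism -/
def map (F : PF Φ C P N) (e : P.M ≃ₗ[Lᵐᵒᵖ] Q.M) (he : ∀ n x, x ∈ P.gr n ↔ e x ∈ Q.gr n) :
    PF Φ C Q N where
  J := F.J
  y j := e (F.y j)
  w := F.w
  mem j := (he _ _).1 (F.mem j)
  fix j := by rw [← map_smul, F.fix]
  span x := by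
    obtain ⟨c, hc⟩ := F.span (e.symm x)
    refine ⟨c, ?_⟩
    rw [← e.apply_symm_apply x, hc, map_sum]
    simp

lemma Indep.map {F : PF Φ C P N} (hF : F.Indep) (e : P.M ≃ₗ[Lᵐᵒᵖ] Q.M)
    (he : ∀ n x, x ∈ P.gr n ↔ e x ∈ Q.gr n) : (F.map e he).Indep := fun c hc =>
  hF c (e.injective (by
    rw [map_zero, ← hc, map_sum]
    exact Finset.sum_congr rfl fun j _ => map_smul _ _ _))

/-- frame of a direct sum -/
def sum (F : PF Φ C P N) (F' : PF Φ C Q N) : PF Φ C (P.sum Q) N where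
  J := F.J ⊕ F'.J
  y := Sum.elim (fun j => ((F.y j, 0) : P.M × Q.M)) (fun j => ((0, F'.y j) : P.M × Q.M))
  w := Sum.elim F.w F'.w
  mem j := by
    cases j with
    | inl j => exact ⟨F.mem j, zero_mem _⟩
    | inr j => exact ⟨zero_mem _, F'.mem j⟩
  fix j := by
    cases j with
    | inl j => exact Prod.ext (F.fix j) (smul_zero _)
    | inr j => exact Prod.ext (smul_zero _) (F'.fix j)
  span x := by
    obtain ⟨c, hc⟩ := F.span x.1
    obtain ⟨c', hc'⟩ := F'.span x.2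
    refine ⟨Sum.elim c c', ?_⟩
    rw [Fintype.sum_sum_type]
    show @Eq (P.M × Q.M) x (∑ j, op (c j) • ((F.y j, 0) : P.M × Q.M)
      + ∑ j, op (c' j) • ((0, F'.y j) : P.M × Q.M))
    ext
    · simp [Prod.fst_sum, ← hc]
    · simp [Prod.snd_sum, ← hc']

lemma Indep.sum {F : PF Φ C P N} {F' : PF Φ C Q N} (hF : F.Indep) (hF' : F'.Indep) :
    (F.sum F').Indep := by
  intro c hc
  have hc' : ∑ j, op (c (.inl j)) • ((F.y j, 0) : P.M × Q.M)
      + ∑ j, op (c (.inr j)) • ((0, F'.y j) : P.M × Q.M) = 0 :=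
    (Fintype.sum_sum_type _).symm.trans hc
  intro j
  cases j with
  | inl j => exact hF (fun j => c (.inl j)) (by simpa [Prod.fst_sum] using congrArg Prod.fst hc') j
  | inr j => exact hF' (fun j => c (.inr j)) (by simpa [Prod.snd_sum] using congrArg Prod.snd hc') j

lemma cnt_sum (F : PF Φ C P N) (F' : PF Φ C Q N) (z : Fin n) :
    (F.sum F').cnt z = F.cnt z + F'.cnt z := Fintype.sum_sum_type _

/-- frame of the shifted module -/
def shift (F : PF Φ C P N) (N' : ℤ) (h : N = N' + 1) : PF Φ C P.shift N' where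
  J := F.J
  y := F.y
  w := F.w
  mem j := by
    show F.y j ∈ P.gr (N' + 1)
    rw [← h]; exact F.mem j
  fix := F.fix
  span := F.span

variable (C) in
/-- frame of the regular module -/
def regular (hΦ : Φ.Gr k 𝒜) : PF Φ C (GrProj.regular (grOf 𝒜)) 1 where
  J := Fin G.nE
  y := Φ.s
  w := C.cr
  mem := hΦ.s
  fix e := by
    show Φ.s e * Φ.p _ = Φ.s e
    rw [C.hcr, Φ.sp]
  span (x : L) := ⟨fun e => Φ.t e * x, by
    have := Φ.edgeFrame.insert 1 x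
    simp only [one_mul] at this
    exact this⟩

lemma regular_indep (hΦ : Φ.Gr k 𝒜) : (regular C hΦ).Indep := by
  intro c hc e
  have hc' : ∑ f : Fin G.nE, Φ.s f * c f = 0 := hc
  have := congrArg (fun z => Φ.t e * z) hc'
  simp only [Finset.mul_sum, ← mul_assoc, Φ.ts, mul_zero, ite_mul, zero_mul] at this
  rw [Finset.sum_ite_eq, if_pos (mem_univ _), ← C.hcr] at this
  exact this

end PF

/-- the right ideal of an idempotent -/
def rIdeal (ε : L) : Submodule Lᵐᵒᵖ L where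
  carrier := {x | ε * x = x}
  add_mem' := fun hx hy => by
    simp only [Set.mem_ofPred_eq] at hx hy ⊢
    rw [mul_add, hx, hy]
  zero_mem' := mul_zero _
  smul_mem' := fun c x hx => by
    simp only [Set.mem_ofPred_eq] at hx ⊢
    show ε * (x * c.unop) = x * c.unop
    rw [← mul_assoc, hx]

/-- projection to the right ideal -/
def rProj (ε : L) (hε : ε * ε = ε) : L →ₗ[Lᵐᵒᵖ] rIdeal ε where
  toFun x := ⟨ε * x, by show ε * (ε * x) = ε * x; rw [← mul_assoc, hε]⟩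
  map_add' x y := Subtype.ext (mul_add _ _ _)
  map_smul' c x := Subtype.ext (mul_assoc _ _ _).symm

/-- the standard module with generator in degree `N` -/
def std (ε : L) (hε : ε * ε = ε) (h0 : ε ∈ 𝒜 0) (N : ℤ) : GrProj (grOf 𝒜) where
  M := rIdeal ε
  gr m := (AddSubgroup.ofClass (𝒜 (m - N))).comap (rIdeal ε).subtype.toAddMonoidHom
  internal := isInternal_of_comp _
    (fun m => ((pr 𝒜 (m - N)).comp (rIdeal ε).subtype.toAddMonoidHom).codRestrict (rIdeal ε)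
      fun x => by
        show ε * pr 𝒜 (m - N) x = pr 𝒜 (m - N) x
        rw [← pr_mul_left h0, x.2])
    (fun m x => pr_mem (𝒜 := 𝒜) _ _)
    (fun m m' x hx => by
      apply Subtype.ext
      show pr 𝒜 (m - N) x = _
      split_ifs with h
      · subst h; exact DirectSum.decompose_of_mem_same 𝒜 hx
      · exact DirectSum.decompose_of_mem_ne 𝒜 hx (by omega))
    (fun x => by
      classical
      refine ⟨(DirectSum.decompose 𝒜 x.1).support.map (Equiv.addRight N).toEmbedding, ?_⟩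
      apply Subtype.ext
      rw [AddSubmonoidClass.coe_finsetSum, Finset.sum_map]
      conv_rhs => rw [← DirectSum.sum_support_decompose 𝒜 x.1]
      refine Finset.sum_congr rfl fun m _ => ?_
      show pr 𝒜 (m + N - N) x = _
      rw [add_sub_cancel_right]; rfl)
  smul_mem m m' x a hx ha := by
    have := SetLike.mul_mem_graded (A := 𝒜) hx ha
    show x.1 * a ∈ 𝒜 (m + m' - N)
    rwa [show m + m' - N = m - N + m' by ring]
  finite :=
    have : Module.Finite Lᵐᵒᵖ L := (GrProj.regular (grOf 𝒜)).finite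
    Module.Finite.of_surjective (rProj ε hε) fun x => ⟨x.1, Subtype.ext x.2⟩
  projective :=
    have : Module.Projective Lᵐᵒᵖ L := (GrProj.regular (grOf 𝒜)).projective
    Module.Projective.of_split (rIdeal ε).subtype (rProj ε hε)
      (LinearMap.ext fun x => Subtype.ext x.2)

lemma exists_std {Φ : Fam L G} (hΦ : Φ.Gr k 𝒜) (C : Core G n) (N : ℤ) (w : Fin n) :
    ∃ (P : GrProj (grOf 𝒜)) (F : PF Φ C P N), F.Indep ∧ ∀ z, F.cnt z = if w = z then 1 else 0 := by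
  refine ⟨std (Φ.p (C.ι w)) (Φ.pp_self _) (hΦ.p _) N, ⟨Unit, fun _ => ⟨Φ.p (C.ι w), Φ.pp_self _⟩,
    fun _ => w, fun _ => ?_, fun _ => Subtype.ext (Φ.pp_self _), fun x => ⟨fun _ => x.1, ?_⟩⟩,
    fun c hc j => ?_, fun z => ?_⟩
  · show Φ.p (C.ι w) ∈ 𝒜 (N - N)
    rw [sub_self]; exact hΦ.p _
  · rw [Fintype.sum_unique]
    exact Subtype.ext x.2.symm
  · rw [Fintype.sum_unique] at hc
    exact congrArg Subtype.val hc
  · exact Fintype.sum_unique _

section Rank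

variable (Φ : Fam L G) (C : Core G n)

/-- the rank vector relation -/
def HasAt (P : GrProj (grOf 𝒜)) (y : Fin n → ℤ) (K : ℕ) : Prop :=
  ∃ (N : ℤ) (F : PF Φ C P N), N = K + 1 ∧ F.Indep ∧
    (fun z => (F.cnt z : ℤ)) = cZ C.adjᵀ ^ K *ᵥ y

variable {Φ C} (hΦ : Φ.Gr k 𝒜) {P Q : GrProj (grOf 𝒜)} {y y' : Fin n → ℤ} {K : ℕ}

lemma cZ_pow (M : Matrix (Fin n) (Fin n) ℕ) (i : ℕ) : cZ (M ^ i) = cZ M ^ i := by
  induction i with
  | zero => ext i j; simp [Matrix.one_apply]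
  | succ i ih => rw [pow_succ, cZ_mul, ih, pow_succ]

lemma cZ_mulVec (M : Matrix (Fin n) (Fin n) ℕ) (c : Fin n → ℕ) :
    cZ Mᵀ *ᵥ (fun z => (c z : ℤ)) = fun z => ((∑ v, M v z * c v : ℕ) : ℤ) := by
  ext z
  simp [Matrix.mulVec, dotProduct]

include hΦ in
lemma HasAt.succ (h : HasAt Φ C P y K) : HasAt Φ C P y (K + 1) := by
  obtain ⟨N, F, h1, h2, h3⟩ := h
  refine ⟨N + 1, F.refine hΦ, by rw [h1]; push_cast; ring, h2.refine hΦ, ?_⟩
  rw [pow_succ', ← Matrix.mulVec_mulVec, ← h3, cZ_mulVec]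
  simp only [F.cnt_refine hΦ]

include hΦ in
lemma HasAt.mono (h : HasAt Φ C P y K) {K' : ℕ} (hK : K ≤ K') : HasAt Φ C P y K' := by
  induction hK with
  | refl => exact h
  | step _ ih => exact ih.succ hΦ

variable {Ai : Matrix (Fin n) (Fin n) ℤ} (hA : Ai * cZ C.adjᵀ = 1) (hA' : cZ C.adjᵀ * Ai = 1)

include hA hA' in
lemma pow_mul_inv (K : ℕ) : cZ C.adjᵀ ^ K * Ai ^ K = 1 ∧ Ai ^ K * cZ C.adjᵀ ^ K = 1 := by
  have hc : Commute (cZ C.adjᵀ) Ai := hA'.trans hA.symm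
  exact ⟨by rw [← hc.mul_pow, hA', one_pow], by rw [← hc.symm.mul_pow, hA, one_pow]⟩

include hA hA' in
lemma pow_inj (K : ℕ) {y y' : Fin n → ℤ} (h : cZ C.adjᵀ ^ K *ᵥ y = cZ C.adjᵀ ^ K *ᵥ y') :
    y = y' := by
  have := congrArg (fun v => Ai ^ K *ᵥ v) h
  simpa only [Matrix.mulVec_mulVec, (pow_mul_inv hA hA' K).2, Matrix.one_mulVec] using this

include hΦ hA hA' in
lemma HasAt.unique {K' : ℕ} (h : HasAt Φ C P y K) (h' : HasAt Φ C P y' K') : y = y' := by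
  obtain ⟨N, F, h1, h2, h3⟩ := h.mono hΦ (le_max_left K K')
  obtain ⟨N', F', h1', h2', h3'⟩ := h'.mono hΦ (le_max_right K K')
  subst h1 h1'
  obtain ⟨i, hi⟩ := PF.cnt_unique hΦ h2 h2'
  refine pow_inj hA hA' (max K K') (pow_inj hA hA' i ?_)
  rw [← h3, ← h3', ← cZ_pow, ← Matrix.transpose_pow, cZ_mulVec, cZ_mulVec]
  simp only [hi]

include hΦ hA hA' in
lemma exists_hasAt (P : GrProj (grOf 𝒜)) : ∃ y K, HasAt Φ C P y K := by
  obtain ⟨K, N, F, h1, h2⟩ := exists_frame hΦ C P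
  refine ⟨Ai ^ K *ᵥ fun z => (F.cnt z : ℤ), K, N, F, h1, h2, ?_⟩
  rw [Matrix.mulVec_mulVec, (pow_mul_inv hA hA' K).1, Matrix.one_mulVec]

lemma HasAt.iso (h : HasAt Φ C P y K) (hPQ : GrProj.Iso P Q) : HasAt Φ C Q y K := by
  obtain ⟨N, F, h1, h2, h3⟩ := h
  obtain ⟨e, he⟩ := hPQ
  exact ⟨N, F.map e he, h1, h2.map e he, h3⟩

lemma HasAt.sum (h : HasAt Φ C P y K) (h' : HasAt Φ C Q y' K) :
    HasAt Φ C (P.sum Q) (y + y') K := by
  obtain ⟨N, F, h1, h2, h3⟩ := h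
  obtain ⟨N', F', h1', h2', h3'⟩ := h'
  subst h1 h1'
  refine ⟨_, F.sum F', rfl, h2.sum h2', ?_⟩
  rw [Matrix.mulVec_add, ← h3, ← h3']
  ext z
  simp [PF.cnt_sum]

lemma HasAt.shift (h : HasAt Φ C P y (K + 1)) : HasAt Φ C P.shift (cZ C.adjᵀ *ᵥ y) K := by
  obtain ⟨N, F, h1, h2, h3⟩ := h
  refine ⟨K + 1, F.shift _ (by rw [h1]; push_cast; ring), rfl, h2, ?_⟩
  rw [Matrix.mulVec_mulVec, ← pow_succ, ← h3]
  rfl

lemma HasAt.iso_of_eq (h : HasAt Φ C P y K) (h' : HasAt Φ C Q y K) : GrProj.Iso P Q := by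
  obtain ⟨N, F, h1, h2, h3⟩ := h
  obtain ⟨N', F', h1', h2', h3'⟩ := h'
  subst h1 h1'
  refine PF.iso_of_cnt h2 h2' (funext fun z => ?_)
  exact_mod_cast congrFun (h3.trans h3'.symm) z

include hΦ hA hA' in
theorem exists_rk : ∃ ρ : K0gr (grOf 𝒜) ≃+ (Fin n → ℤ),
    (∀ y, ρ (K0gr.x (grOf 𝒜) y) = cZ C.adjᵀ *ᵥ ρ y) ∧
    (∀ y, y ∈ K0gr.cone (grOf 𝒜) ↔ ∃ K : ℕ, 0 ≤ cZ C.adjᵀ ^ K *ᵥ ρ y) ∧
    ρ (K0gr.unit (grOf 𝒜)) = fun w => (C.dim 1 w : ℤ) := by
  choose r K hr using exists_hasAt hΦ hA hA'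
  have hr' : ∀ {P y K}, HasAt Φ C P y K → r P = y := fun h => (hr _).unique hΦ hA hA' h
  have hadd : ∀ P Q, r (P.sum Q) = r P + r Q := fun P Q =>
    hr' (((hr P).mono hΦ (le_max_left _ (K Q))).sum ((hr Q).mono hΦ (le_max_right (K P) _)))
  let r1 : Vgr (grOf 𝒜) → (Fin n → ℤ) := Quotient.lift r fun P Q h => (hr' ((hr P).iso h)).symm
  have hadd1 : ∀ a b, r1 (a + b) = r1 a + r1 b := by
    rintro ⟨P⟩ ⟨Q⟩; exact hadd P Q
  let r2 : Vgr (grOf 𝒜) →+ (Fin n → ℤ) :=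
    { toFun := r1
      map_zero' := by
        have := hadd1 0 0
        rw [add_zero] at this
        exact left_eq_add.1 this
      map_add' := hadd1 }
  have hinj : Injective r2 := by
    rintro ⟨P⟩ ⟨Q⟩ h
    have h' : r P = r Q := h
    exact Quotient.sound (((hr P).mono hΦ (le_max_left _ (K Q))).iso_of_eq
      (h' ▸ (hr Q).mono hΦ (le_max_right (K P) _)))
  have hrange : ∀ (K : ℕ) (y : Fin n → ℤ), 0 ≤ cZ C.adjᵀ ^ K *ᵥ y → ∃ a, r2 a = y := by
    intro K y hy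
    choose S F h1 h2 using fun w => exists_std hΦ C (K + 1) w
    let S' : Fin n → Vgr (grOf 𝒜) := fun w => Quotient.mk _ (S w)
    have h3 : ∀ w, r2 (S' w) = Ai ^ K *ᵥ Pi.single w 1 := fun w =>
      hr' (K := K) ⟨_, F w, rfl, h1 w, by
        rw [Matrix.mulVec_mulVec, (pow_mul_inv hA hA' K).1, Matrix.one_mulVec]
        ext z
        simp [h2, Pi.single_apply, eq_comm]⟩
    refine ⟨∑ w, ((cZ C.adjᵀ ^ K *ᵥ y) w).toNat • S' w, ?_⟩
    refine pow_inj hA hA' K ?_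
    simp only [map_sum, map_nsmul, h3, Matrix.mulVec_sum, Matrix.mulVec_smul, Matrix.mulVec_mulVec,
      (pow_mul_inv hA hA' K).1, Matrix.one_mulVec]
    ext z
    simpa [Finset.sum_apply, Pi.single_apply] using hy z
  let r3 : K0gr (grOf 𝒜) →+ (Fin n → ℤ) := Algebra.GrothendieckAddGroup.lift r2
  have hr3 : ∀ a, r3 (K0gr.of _ a) = r2 a := fun a =>
    DFunLike.congr_fun (Algebra.GrothendieckAddGroup.lift.left_inv r2) a
  have hdiff : ∀ y : K0gr (grOf 𝒜), ∃ a b, y = K0gr.of _ a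
      - K0gr.of _ b := fun y => by
    have h1 := Algebra.GrothendieckAddGroup.lift_apply
      (K0gr.of (grOf 𝒜)) y
    have h2 := DFunLike.congr_fun
      (Algebra.GrothendieckAddGroup.lift.right_inv (AddMonoidHom.id (K0gr (grOf 𝒜)))) y
    exact ⟨_, _, h2.symm.trans h1⟩
  have hbij : Bijective r3 := by
    constructor
    · rw [injective_iff_map_eq_zero]
      intro y hy
      obtain ⟨a, b, rfl⟩ := hdiff y
      rw [map_sub, hr3, hr3, sub_eq_zero] at hy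
      rw [hinj hy, sub_self]
    · intro y
      obtain ⟨a, ha⟩ := hrange 0 y⁺ (by simp)
      obtain ⟨b, hb⟩ := hrange 0 y⁻ (by simp)
      exact ⟨K0gr.of _ a - K0gr.of _ b, by
        rw [map_sub, hr3, hr3, ha, hb, posPart_sub_negPart]⟩
  have hx : ∀ a, K0gr.x (grOf 𝒜) (K0gr.of _ a)
      = K0gr.of _ (Vgr.shift (grOf 𝒜) a) := fun a =>
    DFunLike.congr_fun (Algebra.GrothendieckAddGroup.lift.left_inv
      ((K0gr.of (grOf 𝒜)).comp (Vgr.shift (grOf 𝒜)))) a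
  have hsh : ∀ a, r2 (Vgr.shift (grOf 𝒜) a) = cZ C.adjᵀ *ᵥ r2 a := by
    rintro ⟨P⟩
    exact hr' ((hr P).succ hΦ).shift
  refine ⟨AddEquiv.ofBijective r3 hbij, fun y => ?_, fun y => ⟨?_, ?_⟩, ?_⟩
  · obtain ⟨a, b, rfl⟩ := hdiff y
    simp only [AddEquiv.ofBijective_apply, map_sub, hx, hr3, hsh, Matrix.mulVec_sub]
  · rintro ⟨P, rfl⟩
    obtain ⟨N, F, -, -, h3⟩ := hr P
    refine ⟨K P, ?_⟩
    have : AddEquiv.ofBijective r3 hbij (K0gr.cls P) = r P := hr3 _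
    rw [this, ← h3]
    exact fun z => Int.natCast_nonneg _
  · rintro ⟨K, hK⟩
    obtain ⟨⟨P⟩, hP⟩ := hrange K _ hK
    exact ⟨P, hbij.1 ((hr3 _).trans hP)⟩
  · refine (hr3 _).trans (hr' (K := 0) ⟨1, PF.regular C hΦ, by simp, PF.regular_indep hΦ, ?_⟩)
    ext z
    rw [pow_zero, Matrix.one_mulVec, C.dim_one]
    rfl

end Rank

end Pool.Agent.P.MP_7da47b_al
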