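import Pool.Agent.P.MP_7da47b_al.Tower

/-!
The Leavitt family inside the Leavitt path algebra of a graph without sinks.
-/

namespace Pool.Agent.P.MP_7da47b_al

open Module Function FRep Finset Matrix

universe u

variable (k : Type u) [Field k] (G : FinGraph)

/-- infinite paths -/
def InfP : Type := {ξ : ℕ → Fin G.nE // ∀ n, G.r (ξ n) = G.s (ξ (n + 1))}

variable {G}

def InfP.tail (ξ : InfP G) : InfP G := ⟨fun n => ξ.1 (n + 1), fun n => ξ.2 (n + 1)⟩

def InfP.cons (e : Fin G.nE) (ξ : InfP G) (h : G.r e = G.s (ξ.1 0)) : InfP G :=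
  ⟨fun n => Nat.casesOn n e ξ.1, fun n => by
    cases n with
    | zero => exact h
    | succ n => exact ξ.2 n⟩

lemma InfP.cons_tail (ξ : InfP G) (h : G.r (ξ.1 0) = G.s (ξ.tail.1 0)) :
    InfP.cons (ξ.1 0) ξ.tail h = ξ :=
  Subtype.ext (funext fun n => by cases n <;> rfl)

def opP (v : Fin G.nV) : Module.End k (InfP G → k) where
  toFun f ξ := if G.s (ξ.1 0) = v then f ξ else 0
  map_add' f g := by ext ξ; simp only [Pi.add_apply]; split_ifs <;> simp
  map_smul' c f := by ext ξ; simp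

def opS (e : Fin G.nE) : Module.End k (InfP G → k) where
  toFun f ξ := if ξ.1 0 = e then f ξ.tail else 0
  map_add' f g := by ext ξ; simp only [Pi.add_apply]; split_ifs <;> simp
  map_smul' c f := by ext ξ; simp

def opT (e : Fin G.nE) : Module.End k (InfP G → k) where
  toFun f ξ := if h : G.r e = G.s (ξ.1 0) then f (ξ.cons e h) else 0
  map_add' f g := by ext ξ; simp only [Pi.add_apply]; split_ifs <;> simp
  map_smul' c f := by ext ξ; simp only [Pi.smul_apply, RingHom.id_apply]; split_ifs <;> simp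

lemma opP_apply (v : Fin G.nV) (f : InfP G → k) (ξ : InfP G) :
    opP k v f ξ = if G.s (ξ.1 0) = v then f ξ else 0 := rfl

lemma opS_apply (e : Fin G.nE) (f : InfP G → k) (ξ : InfP G) :
    opS k e f ξ = if ξ.1 0 = e then f ξ.tail else 0 := rfl

lemma opT_apply (e : Fin G.nE) (f : InfP G → k) (ξ : InfP G) :
    opT k e f ξ = if h : G.r e = G.s (ξ.1 0) then f (ξ.cons e h) else 0 := rfl

def opGen : Gen G → Module.End k (InfP G → k)
  | .vtx v => opP k v
  | .edge e => opS k e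
  | .ghost e => opT k e

lemma opGen_rel ⦃x y : FreeAlgebra k (Gen G)⦄ (h : Rel k G x y) :
    FreeAlgebra.lift k (opGen k) x = FreeAlgebra.lift k (opGen k) y := by
  induction h with
  | vtx_self v =>
    simp only [map_mul, FreeAlgebra.lift_ι_apply, opGen]
    refine LinearMap.ext fun f => funext fun ξ => ?_
    simp only [Module.End.mul_apply, opP_apply]
    split_ifs <;> rfl
  | vtx_ne v w h =>
    simp only [map_mul, FreeAlgebra.lift_ι_apply, opGen, map_zero]
    refine LinearMap.ext fun f => funext fun ξ => ?_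
    simp only [Module.End.mul_apply, opP_apply]
    split_ifs with h1 h2
    · exact absurd (h1.symm.trans h2) h
    · rfl
    · rfl
  | src_edge e =>
    simp only [map_mul, FreeAlgebra.lift_ι_apply, opGen]
    refine LinearMap.ext fun f => funext fun ξ => ?_
    simp only [Module.End.mul_apply, opP_apply, opS_apply]
    split_ifs with h1 h2 h2
    · rfl
    · rfl
    · exact absurd (congrArg G.s h2) h1
    · rfl
  | edge_rng e =>
    simp only [map_mul, FreeAlgebra.lift_ι_apply, opGen]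
    refine LinearMap.ext fun f => funext fun ξ => ?_
    simp only [Module.End.mul_apply, opP_apply, opS_apply]
    split_ifs with h1 h2
    · rfl
    · exact absurd (h1 ▸ (ξ.2 0).symm) h2
    · rfl
  | rng_ghost e =>
    simp only [map_mul, FreeAlgebra.lift_ι_apply, opGen]
    refine LinearMap.ext fun f => funext fun ξ => ?_
    simp only [Module.End.mul_apply, opP_apply, opT_apply]
    split_ifs with h1 h2 h2
    · rfl
    · rfl
    · exact absurd h2.symm h1
    · rfl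
  | ghost_src e =>
    simp only [map_mul, FreeAlgebra.lift_ι_apply, opGen]
    refine LinearMap.ext fun f => funext fun ξ => ?_
    simp only [Module.End.mul_apply, opP_apply, opT_apply]
    split_ifs with h1 h2
    · rfl
    · exact absurd rfl h2
    · rfl
  | ck1_self e =>
    simp only [map_mul, FreeAlgebra.lift_ι_apply, opGen]
    refine LinearMap.ext fun f => funext fun ξ => ?_
    simp only [Module.End.mul_apply, opP_apply, opT_apply, opS_apply]
    by_cases h1 : G.r e = G.s (ξ.1 0)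
    · rw [dif_pos h1, if_pos h1.symm]
      exact if_pos rfl
    · rw [dif_neg h1, if_neg (Ne.symm h1)]
  | ck1_ne e e' h =>
    simp only [map_mul, FreeAlgebra.lift_ι_apply, opGen, map_zero]
    refine LinearMap.ext fun f => funext fun ξ => ?_
    simp only [Module.End.mul_apply, opT_apply, opS_apply]
    split_ifs with h1 h2
    · exact absurd h2 h
    · rfl
    · rfl
  | ck2 v _ =>
    simp only [map_sum, map_mul, FreeAlgebra.lift_ι_apply, opGen]
    refine LinearMap.ext fun f => funext fun ξ => ?_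
    simp only [LinearMap.sum_apply, Finset.sum_apply, Module.End.mul_apply, opP_apply, opS_apply]
    rw [Finset.sum_ite_eq]
    simp only [Finset.mem_filter, Finset.mem_univ, true_and]
    split_ifs with h1
    · have h2 : G.r (ξ.1 0) = G.s (ξ.tail.1 0) := ξ.2 0
      rw [opT_apply, dif_pos h2, InfP.cons_tail]
    · rfl
  | unit =>
    simp only [map_sum, map_one, FreeAlgebra.lift_ι_apply, opGen]
    refine LinearMap.ext fun f => funext fun ξ => ?_
    simp [LinearMap.sum_apply, Finset.sum_apply, opP_apply]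

lemma gen_vtx_ne (hG : ∀ v, ∃ e, G.s e = v) (v : Fin G.nV) : gen k G (.vtx v) ≠ 0 := by
  intro h0
  choose nx hnx using hG
  let vs : ℕ → Fin G.nV := fun n => Nat.rec v (fun _ w => G.r (nx w)) n
  let ξ : InfP G := ⟨fun n => nx (vs n), fun n => (hnx _).symm⟩
  have h1 := congrArg (LPA.lift (FreeAlgebra.lift k (opGen k)) (opGen_rel k)) h0
  rw [map_zero, gen, LPA.lift_mk, FreeAlgebra.lift_ι_apply] at h1
  have h2 := congrFun (LinearMap.congr_fun h1 (fun _ => 1)) ξ
  have h3 : G.s (ξ.1 0) = v := hnx _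
  simp only [opGen, opP_apply, h3, if_true] at h2
  exact one_ne_zero h2

/-- the canonical family -/
noncomputable def lpaFam (hG : ∀ v, ∃ e, G.s e = v) : Fam (LPA k G) G where
  p v := gen k G (.vtx v)
  s e := gen k G (.edge e)
  t e := gen k G (.ghost e)
  pp v w := by
    split_ifs with h
    · subst h
      simpa [gen] using LPA.mk_rel k (Rel.vtx_self (k := k) v)
    · simpa [gen] using LPA.mk_rel k (Rel.vtx_ne (k := k) v w h)
  ps e := by simpa [gen] using LPA.mk_rel k (Rel.src_edge (k := k) e)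
  sp e := by simpa [gen] using LPA.mk_rel k (Rel.edge_rng (k := k) e)
  pt e := by simpa [gen] using LPA.mk_rel k (Rel.rng_ghost (k := k) e)
  tp e := by simpa [gen] using LPA.mk_rel k (Rel.ghost_src (k := k) e)
  ts e f := by
    split_ifs with h
    · subst h
      simpa [gen] using LPA.mk_rel k (Rel.ck1_self (k := k) e)
    · simpa [gen] using LPA.mk_rel k (Rel.ck1_ne (k := k) e f h)
  ck2 v := by simpa [gen] using (LPA.mk_rel k (Rel.ck2 (k := k) v (hG v))).symm
  one := by simpa [gen] using LPA.mk_rel k (Rel.unit (k := k) (G := G))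
  ne := gen_vtx_ne k hG

namespace Fam

variable {L : Type u} [Ring L] [Algebra k L] (Φ : Fam L G)

/-- elements of given degree that are bounded at some level -/
def Dg (n : ℤ) (x : L) : Prop := ∃ i j : ℕ, (i : ℤ) - j = n ∧ Φ.Bd k x i j

variable {k Φ}

lemma Dg.mul {m n : ℤ} {x y : L} (hx : Φ.Dg k m x) (hy : Φ.Dg k n y) :
    Φ.Dg k (m + n) (x * y) := by
  obtain ⟨i, j, h1, h2⟩ := hx
  obtain ⟨i', j', h3, h4⟩ := hy
  exact ⟨i + i', j' + j, by push_cast; omega,
    (h2.add_right i').mul ((h4.add_right j).cast (by omega) rfl)⟩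

lemma Dg.add {n : ℤ} {x y : L} (hx : Φ.Dg k n x) (hy : Φ.Dg k n y) : Φ.Dg k n (x + y) := by
  obtain ⟨i, j, h1, h2⟩ := hx
  obtain ⟨i', j', h3, h4⟩ := hy
  exact ⟨i + i', j + i', by push_cast; omega,
    (h2.add_right i').add ((h4.add_right i).cast (by omega) (by omega))⟩

lemma Dg.bd {x : L} (hx : Φ.Dg k 0 x) : ∃ i, Φ.Bd k x i i := by
  obtain ⟨i, j, h1, h2⟩ := hx
  exact ⟨i, h2.cast rfl (by omega)⟩

lemma exists_level {I : Type*} [Finite I] (f : I → L) (h : ∀ x, Φ.Dg k 0 (f x)) :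
    ∃ i, ∀ x, Φ.Bd k (f x) i i := by
  choose g hg using fun x => (h x).bd
  obtain ⟨N, hN⟩ := (Set.finite_range g).bddAbove
  exact ⟨N, fun x => (hg x).mono (hN ⟨x, rfl⟩)⟩

/-- transport of a family -/
def map {L' : Type u} [Ring L'] [Algebra k L'] (ψ : L ≃ₐ[k] L') (Φ : Fam L G) : Fam L' G where
  p v := ψ (Φ.p v)
  s e := ψ (Φ.s e)
  t e := ψ (Φ.t e)
  pp v w := by rw [← map_mul, Φ.pp]; split_ifs <;> simp
  ps e := by rw [← map_mul, Φ.ps]
  sp e := by rw [← map_mul, Φ.sp]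
  pt e := by rw [← map_mul, Φ.pt]
  tp e := by rw [← map_mul, Φ.tp]
  ts v w := by rw [← map_mul, Φ.ts]; split_ifs <;> simp
  ck2 v := by rw [← Φ.ck2, map_sum]; simp
  one := by rw [← map_sum, Φ.one, map_one]
  ne v := by simpa using Φ.ne v

lemma map_a {L' : Type u} [Ring L'] [Algebra k L'] (ψ : L ≃ₐ[k] L') :
    ∀ {i : ℕ} (γ : Pth G i), (Φ.map ψ).a γ = ψ (Φ.a γ)
  | 0, _ => rfl
  | _ + 1, x => by
    show (Φ.map ψ).a x.1.1 * ψ (Φ.s x.1.2) = ψ (Φ.a x.1.1 * Φ.s x.1.2)
    rw [map_mul, map_a ψ]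

lemma map_b {L' : Type u} [Ring L'] [Algebra k L'] (ψ : L ≃ₐ[k] L') :
    ∀ {i : ℕ} (γ : Pth G i), (Φ.map ψ).b γ = ψ (Φ.b γ)
  | 0, _ => rfl
  | _ + 1, x => by
    show ψ (Φ.t x.1.2) * (Φ.map ψ).b x.1.1 = ψ (Φ.t x.1.2 * Φ.b x.1.1)
    rw [map_mul, map_b ψ]

lemma Bd.map {L' : Type u} [Ring L'] [Algebra k L'] (ψ : L ≃ₐ[k] L') {x : L} {i j : ℕ}
    (h : Φ.Bd k x i j) : (Φ.map ψ).Bd k (ψ x) i j := by
  intro γ γ'
  rw [map_a, map_b, ← map_mul, ← map_mul]
  have := h γ γ'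
  generalize Φ.b γ * x * Φ.a γ' = y at this
  induction this using Submodule.span_induction with
  | mem y hy => obtain ⟨v, rfl⟩ := hy; exact (Φ.map ψ).p_mem k v
  | zero => simp
  | add y z _ _ hy hz => rw [map_add]; exact add_mem hy hz
  | smul c y _ hy => rw [map_smul]; exact Submodule.smul_mem _ _ hy

variable (k Φ) in
/-- compatibility of a family with a grading -/
structure Gr (𝒜 : ℤ → Submodule k L) : Prop where
  p : ∀ v, Φ.p v ∈ 𝒜 0
  s : ∀ e, Φ.s e ∈ 𝒜 1
  t : ∀ e, Φ.t e ∈ 𝒜 (-1)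
  dg : ∀ n x, x ∈ 𝒜 n → Φ.Dg k n x

lemma Gr.cmp {H : FinGraph} {Ψ : Fam L H} {𝒜 : ℤ → Submodule k L} [SetLike.GradedMonoid 𝒜]
    (h : Φ.Gr k 𝒜) (h' : Ψ.Gr k 𝒜) : ∃ b, Cmp k Φ Ψ b := by
  obtain ⟨b₁, h1⟩ := exists_level (Φ := Φ) (fun x : Fin G.nE × Fin H.nE => Φ.t x.1 * Ψ.s x.2)
    fun x => h.dg _ _ (SetLike.mul_mem_graded (h.t x.1) (h'.s x.2))
  obtain ⟨b₂, h2⟩ := exists_level (Φ := Φ) (fun x : Fin G.nE × Fin H.nE => Ψ.t x.2 * Φ.s x.1)
    fun x => h.dg _ _ (SetLike.mul_mem_graded (h'.t x.2) (h.s x.1))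
  obtain ⟨b₃, h3⟩ := exists_level (Φ := Φ) Ψ.p fun x => h.dg _ _ (h'.p x)
  exact ⟨b₁ + b₂ + b₃, fun e f => (h1 (e, f)).mono (by omega), fun e f => (h2 (e, f)).mono (by omega),
    fun w => (h3 w).mono (by omega)⟩

lemma Gr.map {L' : Type u} [Ring L'] [Algebra k L'] (ψ : L ≃ₐ[k] L') {𝒜 : ℤ → Submodule k L}
    [GradedAlgebra 𝒜] {ℬ : ℤ → Submodule k L'} [GradedAlgebra ℬ]
    (hψ : ∀ n x, x ∈ 𝒜 n → ψ x ∈ ℬ n) (h : Φ.Gr k 𝒜) : (Φ.map ψ).Gr k ℬ := by
  refine ⟨fun v => hψ _ _ (h.p v), fun e => hψ _ _ (h.s e), fun e => hψ _ _ (h.t e),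
    fun n y hy => ?_⟩
  obtain ⟨x, rfl⟩ := ψ.surjective y
  have key : ∀ z, (DirectSum.decompose ℬ (ψ z) n : L') = ψ (DirectSum.decompose 𝒜 z n) := by
    intro z
    induction z using DirectSum.Decomposition.inductionOn 𝒜 with
    | zero => simp
    | @homogeneous m z =>
      by_cases hm : m = n
      · subst hm
        rw [DirectSum.decompose_of_mem_same ℬ (hψ _ _ z.2), DirectSum.decompose_of_mem_same 𝒜 z.2]
      · rw [DirectSum.decompose_of_mem_ne ℬ (hψ _ _ z.2) hm,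
          DirectSum.decompose_of_mem_ne 𝒜 z.2 hm, map_zero]
    | add z z' hz hz' => simp [hz, hz']
  have hx : x ∈ 𝒜 n := by
    have := key x
    rw [DirectSum.decompose_of_mem_same ℬ hy] at this
    rw [ψ.injective this]
    exact Subtype.property _
  obtain ⟨i, j, h1, h2⟩ := h.dg n x hx
  exact ⟨i, j, h1, h2.map ψ⟩

end Fam

lemma lpaFam_gr (hG : ∀ v, ∃ e, G.s e = v) : (lpaFam k hG).Gr k (grade k G) := by
  refine ⟨fun v => gen_mem k G (.vtx v), fun e => gen_mem k G (.edge e),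
    fun e => gen_mem k G (.ghost e), fun n x hx => ?_⟩
  induction hx using Submodule.span_induction with
  | mem x hx =>
    obtain ⟨l, rfl, rfl⟩ := hx
    induction l with
    | nil => exact ⟨0, 0, rfl, Fam.Bd.one 0⟩
    | cons g l ih =>
      simp only [List.map_cons, List.sum_cons, List.prod_cons]
      refine Fam.Dg.mul ?_ ih
      cases g with
      | vtx v => exact ⟨0, 0, rfl, Fam.Bd.p v 0⟩
      | edge e => exact ⟨1, 0, rfl, Fam.Bd.s e 0⟩
      | ghost e => exact ⟨0, 1, rfl, Fam.Bd.t e 0⟩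
  | zero => exact ⟨n.toNat, (-n).toNat, by omega, Fam.Bd.zero⟩
  | add x y _ _ hx hy => exact hx.add hy
  | smul c x _ hx =>
    obtain ⟨i, j, h1, h2⟩ := hx
    exact ⟨i, j, h1, h2.smul c⟩

/-- a graded isomorphism gives a chain -/
theorem chain_of_iso {G H : FinGraph} (hG : ∀ v, ∃ e, G.s e = v) (hH : ∀ v, ∃ e, H.s e = v)
    {n m : ℕ} (C : Core G n) (C' : Core H m)
    (h0 : C.adjᵀ.trace = 0 ∧ (C.adjᵀ * C.adjᵀ).trace = 0) (ψ : LPA k G ≃ₐ[k] LPA k H)
    (hψ : ∀ n x, x ∈ grade k G n → ψ x ∈ grade k H n) :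
    ∃ (a b : ℕ) (W : Matrix (Fin m) (Fin n) ℕ) (l : ℕ),
      Chain (cZ C'.adjᵀ) (cZ C.adjᵀ) (cZ W) 0 l ∧
      ∀ w, C'.dim (a + b + 1) w = ∑ v, W w v * C.dim (b + 1) v := by
  have h1 := (lpaFam_gr k hG).map ψ hψ
  have h2 := lpaFam_gr k hH
  obtain ⟨b, hb⟩ := h1.cmp h2
  obtain ⟨a, ha⟩ := h2.cmp h1
  exact ⟨a, b, Fam.exists_chain C C' hb ha h0⟩

end Pool.Agent.P.MP_7da47b_al
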