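import Pool.Agent.P.MP_7da47b_al.Lpa

/-!
Frames of graded projective modules.
-/

namespace Pool.Agent.P.MP_7da47b_al

open Module Function FRep Finset Matrix MulOpposite

universe u

variable {k : Type u} [Field k] {L : Type u} [Ring L] [Algebra k L] {G : FinGraph}
  {𝒜 : ℤ → Submodule k L} [GradedAlgebra 𝒜] {n : ℕ}

/-- the grading attached to a graded algebra -/
def grOf (𝒜 : ℤ → Submodule k L) [GradedAlgebra 𝒜] : Grading L :=
  ⟨fun n => (𝒜 n).toAddSubgroup, isInternal_toAddSubgroup 𝒜, SetLike.one_mem_graded 𝒜,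
    fun _ _ _ _ ha hb => SetLike.mul_mem_graded (A := 𝒜) ha hb⟩

lemma act_act {M : Type u} [AddCommGroup M] [Module Lᵐᵒᵖ M] (x : M) (a b : L) :
    op b • op a • x = op (a * b) • x := by rw [smul_smul, op_mul]

/-- the homogeneous component of a ring element -/
noncomputable abbrev pr (𝒜 : ℤ → Submodule k L) [GradedAlgebra 𝒜] (m : ℤ) : L →+ L :=
  GradedRing.proj 𝒜 m

lemma pr_mem (m : ℤ) (c : L) : pr 𝒜 m c ∈ 𝒜 m := Subtype.property _

lemma pr_ext {c : L} (h : ∀ m, pr 𝒜 m c = 0) : c = 0 := by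
  classical
  rw [← DirectSum.sum_support_decompose 𝒜 c]
  exact Finset.sum_eq_zero fun m _ => h m

lemma pr_mul_left {a : L} (ha : a ∈ 𝒜 0) (m : ℤ) (c : L) : pr 𝒜 m (a * c) = a * pr 𝒜 m c :=
  DirectSum.coe_decompose_mul_of_left_mem_zero 𝒜 ha

lemma pr_mul_right {a : L} {m : ℤ} (ha : a ∈ 𝒜 m) (c : L) : pr 𝒜 m (c * a) = pr 𝒜 0 c * a := by
  have := DirectSum.coe_decompose_mul_add_of_right_mem 𝒜 (i := 0) (a := c) ha
  rwa [zero_add] at this

lemma comp_act (P : GrProj (grOf 𝒜)) {N : ℤ} {y : P.M} (hy : y ∈ P.gr N) (m : ℤ) (c : L) :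
    P.comp (N + m) (op c • y) = op (pr 𝒜 m c) • y := by
  induction c using DirectSum.Decomposition.inductionOn 𝒜 with
  | zero => simp
  | @homogeneous i c =>
    rw [P.comp_of_mem _ _ _ (P.smul_mem N i y c hy c.2)]
    by_cases h : m = i
    · subst h
      rw [if_pos rfl, GradedRing.proj_apply, DirectSum.decompose_of_mem_same 𝒜 c.2]
    · rw [if_neg (by omega), GradedRing.proj_apply,
        DirectSum.decompose_of_mem_ne 𝒜 c.2 (Ne.symm h)]
      simp
  | add c d hc hd => simp only [op_add, add_smul, map_add, hc, hd]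

/-- a finite generating family in one degree, with types -/
structure PF (Φ : Fam L G) (C : Core G n) (P : GrProj (grOf 𝒜)) (N : ℤ) where
  J : Type
  [fin : Fintype J]
  [dec : DecidableEq J]
  y : J → P.M
  w : J → Fin n
  mem : ∀ j, y j ∈ P.gr N
  fix : ∀ j, op (Φ.p (C.ι (w j))) • y j = y j
  span : ∀ x, ∃ c : J → L, x = ∑ j, op (c j) • y j

attribute [instance] PF.fin PF.dec

namespace PF

variable {Φ : Fam L G} {C : Core G n} {P : GrProj (grOf 𝒜)} {N : ℤ} (F : PF Φ C P N)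

abbrev u (j : F.J) : L := Φ.p (C.ι (F.w j))

def Indep : Prop := ∀ c : F.J → L, ∑ j, op (c j) • F.y j = 0 → ∀ j, F.u j * c j = 0

def cnt (z : Fin n) : ℕ := ∑ j, if F.w j = z then 1 else 0

def Split (i : ℕ) : Prop := ∃ E : F.J → F.J → L, (∀ j l, Φ.Bd k (E j l) i i) ∧
  (∀ j l, F.u j * E j l = E j l) ∧ (∀ j l, E j l * F.u l = E j l) ∧
  (∀ l, F.y l = ∑ j, op (E j l) • F.y j) ∧
  ∀ c : F.J → L, ∑ l, op (c l) • F.y l = 0 → ∀ j, ∑ l, E j l * c l = 0

lemma act_u (j : F.J) (c : L) : op (F.u j * c) • F.y j = op c • F.y j := by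
  rw [← act_act, F.fix]

lemma span_deg {m : ℤ} {x : P.M} (hx : x ∈ P.gr (N + m)) :
    ∃ c : F.J → L, (∀ j, c j ∈ 𝒜 m) ∧ x = ∑ j, op (c j) • F.y j := by
  obtain ⟨c, hc⟩ := F.span x
  refine ⟨fun j => pr 𝒜 m (c j), fun j => pr_mem _ _, ?_⟩
  have := congrArg (P.comp (N + m)) hc
  rw [P.comp_of_mem _ _ _ hx, if_pos rfl, map_sum] at this
  rw [this]
  exact Finset.sum_congr rfl fun j _ => comp_act P (F.mem j) m _

lemma refine_sum (c : F.J → Fin G.nE → L) :
    ∑ x : {x : F.J × Fin G.nE // G.s x.2 = C.ι (F.w x.1)},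
      op (c x.1.1 x.1.2) • op (Φ.s x.1.2) • F.y x.1.1
      = ∑ j, op (∑ e ∈ univ.filter (fun e => G.s e = C.ι (F.w j)), Φ.s e * c j e) • F.y j := by
  rw [sum_refine (fun j => C.ι (F.w j)) (fun j e => op (c j e) • op (Φ.s e) • F.y j)]
  refine Finset.sum_congr rfl fun j _ => ?_
  rw [Finset.op_sum, Finset.sum_smul]
  exact Finset.sum_congr rfl fun e _ => act_act _ _ _

lemma sum_st (v : Fin G.nV) (c : L) :
    ∑ e ∈ univ.filter (fun e => G.s e = v), Φ.s e * (Φ.t e * c) = Φ.p v * c := by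
  rw [← Φ.ck2, Finset.sum_mul]
  simp only [mul_assoc]

/-- refinement along the edges -/
def refine (hΦ : Φ.Gr k 𝒜) : PF Φ C P (N + 1) where
  J := {x : F.J × Fin G.nE // G.s x.2 = C.ι (F.w x.1)}
  y x := op (Φ.s x.1.2) • F.y x.1.1
  w x := C.cr x.1.2
  mem x := P.smul_mem _ _ _ _ (F.mem _) (hΦ.s _)
  fix x := by rw [act_act, C.hcr, Φ.sp]
  span x := by
    obtain ⟨c, hc⟩ := F.span x
    refine ⟨fun x => Φ.t x.1.2 * c x.1.1, ?_⟩
    rw [F.refine_sum (fun j e => Φ.t e * c j), hc]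
    exact Finset.sum_congr rfl fun j _ => by rw [sum_st, F.act_u]

lemma exists_ext (c : {x : F.J × Fin G.nE // G.s x.2 = C.ι (F.w x.1)} → L) :
    ∃ c' : F.J → Fin G.nE → L, c = fun x => c' x.1.1 x.1.2 :=
  ⟨fun j e => if h : G.s e = C.ι (F.w j) then c ⟨(j, e), h⟩ else 0, funext fun x => by
    simp only [dif_pos x.2]⟩

lemma t_sum (v : Fin G.nV) (c : Fin G.nE → L) (e : Fin G.nE) (he : G.s e = v) :
    Φ.t e * ∑ f ∈ univ.filter (fun e => G.s e = v), Φ.s f * c f = Φ.p (G.r e) * c e := by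
  rw [Finset.mul_sum, Finset.sum_eq_single e]
  · rw [← mul_assoc, Φ.ts, if_pos rfl]
  · intro f _ hf
    rw [← mul_assoc, Φ.ts, if_neg (Ne.symm hf), zero_mul]
  · simp [he]

variable {F}

lemma Indep.refine (h : F.Indep) (hΦ : Φ.Gr k 𝒜) : (F.refine hΦ).Indep := by
  intro c hc x
  obtain ⟨c', rfl⟩ := F.exists_ext c
  have h1 := h _ ((F.refine_sum c').symm.trans hc) x.1.1
  have h2 := congrArg (fun z => Φ.t x.1.2 * z) h1
  simp only [mul_zero, ← mul_assoc, u] at h2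
  rw [← x.2, Φ.tp, x.2, t_sum _ _ _ x.2, ← C.hcr] at h2
  exact h2

variable (F) in
lemma cnt_refine (hΦ : Φ.Gr k 𝒜) (z : Fin n) :
    (F.refine hΦ).cnt z = ∑ v, C.adj v z * F.cnt v := by
  have := sum_refine (fun j => C.ι (F.w j)) (fun _ e => if C.cr e = z then 1 else 0)
  refine Eq.trans this ?_
  simp only [cnt, Finset.mul_sum]
  rw [Finset.sum_comm]
  refine Finset.sum_congr rfl fun j _ => ?_
  simp [Core.adj]

lemma Split.refine {i : ℕ} (h : F.Split (i + 1)) (hΦ : Φ.Gr k 𝒜) : (F.refine hΦ).Split i := by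
  obtain ⟨E, h1, h2, h3, h4, h5⟩ := h
  refine ⟨fun x x' => Φ.t x.1.2 * E x.1.1 x'.1.1 * Φ.s x'.1.2, fun x x' => (h1 _ _).down _ _,
    fun x x' => ?_, fun x x' => ?_, fun x => ?_, fun c hc x => ?_⟩
  · show Φ.p (C.ι (C.cr _)) * _ = _
    rw [C.hcr, ← mul_assoc, ← mul_assoc, Φ.pt]
  · show _ * Φ.p (C.ι (C.cr _)) = _
    rw [C.hcr, mul_assoc, Φ.sp]
  · refine Eq.trans ?_ (F.refine_sum (fun j e => Φ.t e * E j x.1.1 * Φ.s x.1.2)).symm
    show op (Φ.s x.1.2) • F.y x.1.1 = _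
    rw [h4, Finset.smul_sum]
    refine Finset.sum_congr rfl fun j _ => ?_
    simp only [mul_assoc]
    rw [sum_st, F.act_u, act_act]
  · obtain ⟨c', rfl⟩ := F.exists_ext c
    have h6 := h5 _ ((F.refine_sum c').symm.trans hc) x.1.1
    refine Eq.trans (sum_refine (fun j => C.ι (F.w j))
      (fun j e => Φ.t x.1.2 * E x.1.1 j * Φ.s e * c' j e)) ?_
    have h7 := congrArg (fun z => Φ.t x.1.2 * z) h6
    simp only [mul_zero, Finset.mul_sum] at h7
    simpa only [mul_assoc] using h7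

lemma scalar_of_P0 {x : L} (hx : x ∈ Φ.P0 k) {v w : Fin G.nV} (hv : Φ.p v * x = x)
    (hw : x * Φ.p w = x) : ∃ c : k, x = c • Φ.p v ∧ x = c • Φ.p w := by
  obtain ⟨c, hc, -⟩ := Φ.P0_mul_p hx w
  rw [hw] at hc
  by_cases h : v = w
  · subst h; exact ⟨c, hc, hc⟩
  · refine ⟨0, ?_, ?_⟩ <;> rw [zero_smul, ← hv, hc, mul_smul_comm, Φ.pp, if_neg h, smul_zero]

lemma Split.exists_indep_zero (h : F.Split 0) : ∃ F' : PF Φ C P N, F'.Indep := by
  classical
  obtain ⟨E, h1, h2, h3, h4, h5⟩ := h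
  choose ε hε hε' using fun j l => scalar_of_P0 (h1 j l).to_P0 (h2 j l) (h3 j l)
  let _ : Module k P.M := Module.compHom P.M (algebraMap k Lᵐᵒᵖ)
  have hsm : ∀ (c : k) (a : L) (x : P.M), op (c • a) • x = c • op a • x := fun c a x => by
    show _ = algebraMap k Lᵐᵒᵖ c • op a • x
    rw [smul_smul, ← Algebra.smul_def, op_smul]
  have hsm' : ∀ (c : k) (a : L) (x : P.M), op a • c • x = c • op a • x := fun c a x => by
    show op a • algebraMap k Lᵐᵒᵖ c • x = algebraMap k Lᵐᵒᵖ c • op a • x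
    rw [smul_smul, smul_smul, Algebra.commutes]
  have hy : ∀ l, F.y l = ∑ j, ε j l • F.y j := fun l => by
    rw [h4]
    exact Finset.sum_congr rfl fun j _ => by rw [hε, hsm, F.fix]
  have hR : ∀ c : F.J → L, ∑ l, op (c l) • F.y l = 0 → ∀ f : Module.Dual k L,
      ∑ l, f (F.u l * c l) • F.y l = 0 := by
    intro c hc f
    have h6 : ∀ j, ∑ l, ε j l * f (F.u l * c l) = 0 := fun j => by
      have := congrArg f (h5 c hc j)
      rw [map_sum, map_zero] at this
      rw [← this]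
      exact Finset.sum_congr rfl fun l _ => by rw [hε', smul_mul_assoc, map_smul, smul_eq_mul]
    calc ∑ l, f (F.u l * c l) • F.y l = ∑ l, ∑ j, (ε j l * f (F.u l * c l)) • F.y j := by
          refine Finset.sum_congr rfl fun l _ => ?_
          conv_lhs => rw [hy l, Finset.smul_sum]
          exact Finset.sum_congr rfl fun j _ => by rw [smul_smul, mul_comm]
      _ = 0 := by
          rw [Finset.sum_comm]
          exact Finset.sum_eq_zero fun j _ => by rw [← Finset.sum_smul, h6, zero_smul]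
  obtain ⟨κ, a, ha, hsp, hli⟩ := exists_linearIndependent' k F.y
  have : Finite κ := Finite.of_injective a ha
  let _ : Fintype κ := Fintype.ofFinite κ
  have hmem : ∀ j, ∃ β : κ → k, ∑ m, β m • F.y (a m) = F.y j := fun j =>
    (Submodule.mem_span_range_iff_exists_fun k).1
      (hsp ▸ Submodule.subset_span ⟨j, rfl⟩ : F.y j ∈ Submodule.span k (Set.range (F.y ∘ a)))
  choose β hβ using hmem
  refine ⟨⟨κ, F.y ∘ a, F.w ∘ a, fun m => F.mem _, fun m => F.fix _, fun x => ?_⟩, ?_⟩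
  · obtain ⟨c, hc⟩ := F.span x
    refine ⟨fun m => ∑ j, β j m • c j, ?_⟩
    rw [hc]
    simp only [Finset.op_sum, Finset.sum_smul, hsm, Function.comp]
    rw [Finset.sum_comm]
    refine Finset.sum_congr rfl fun j _ => ?_
    rw [← hβ j, Finset.smul_sum]
    exact Finset.sum_congr rfl fun m _ => hsm' _ _ _
  · intro c hc m
    have hext : ∀ {M : Type u} [AddCommMonoid M] (g : F.J → L → M), (∀ j, g j 0 = 0) →
        ∑ j, g j (Function.extend a c 0 j) = ∑ m, g (a m) (c m) := by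
      intro M _ g hg
      symm
      refine Finset.sum_of_injOn a ha.injOn (by simp) ?_ ?_
      · intro j _ hj
        rw [Function.extend_apply' _ _ _ (by simpa using hj)]
        exact hg j
      · intro m _
        rw [ha.extend_apply]
    have h6 := hR (Function.extend a c 0) (by
      rw [hext (fun j c => op c • F.y j) (by simp)]; exact hc)
    rw [← Module.forall_dual_apply_eq_zero_iff k]
    intro f
    have h7 := h6 f
    rw [hext (fun j c => f (F.u j * c) • F.y j) (by simp)] at h7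
    exact Fintype.linearIndependent_iff.1 hli (fun m => f (F.u (a m) * c m)) h7 m

lemma Split.exists_indep (hΦ : Φ.Gr k 𝒜) : ∀ (i : ℕ) {N : ℤ} {F : PF Φ C P N}, F.Split i →
    ∃ (N' : ℤ) (F' : PF Φ C P N'), N' = N + i ∧ F'.Indep := by
  intro i
  induction i with
  | zero =>
    intro N F h
    obtain ⟨F', h'⟩ := h.exists_indep_zero
    exact ⟨N, F', by simp, h'⟩
  | succ i ih =>
    intro N F h
    obtain ⟨N', F', h1, h2⟩ := ih (h.refine hΦ)
    exact ⟨N', F', by rw [h1]; push_cast; ring, h2⟩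

variable (F) in
/-- the surjection from a free module -/
def toMod : (F.J → L) →ₗ[Lᵐᵒᵖ] P.M where
  toFun c := ∑ j, op (c j) • F.y j
  map_add' c d := by simp [add_smul, Finset.sum_add_distrib]
  map_smul' a c := by
    simp only [RingHom.id_apply, Finset.smul_sum, Pi.smul_apply]
    exact Finset.sum_congr rfl fun j _ => (act_act (F.y j) (c j) a.unop).symm

variable (F) in
lemma toMod_surj : Surjective F.toMod := fun x => by
  obtain ⟨c, hc⟩ := F.span x
  exact ⟨c, hc.symm⟩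

variable (F) in
lemma exists_split (hΦ : Φ.Gr k 𝒜) : ∃ i, F.Split i := by
  obtain ⟨lam, hlam⟩ := Module.projective_lifting_property F.toMod LinearMap.id F.toMod_surj
  let E : F.J → F.J → L := fun j l => F.u j * pr 𝒜 0 (lam (F.y l) j) * F.u l
  have hE : ∀ j l, E j l ∈ 𝒜 0 := fun j l => by
    have := SetLike.mul_mem_graded (SetLike.mul_mem_graded (hΦ.p (C.ι (F.w j)))
      (pr_mem (𝒜 := 𝒜) 0 (lam (F.y l) j))) (hΦ.p (C.ι (F.w l)))
    rwa [add_zero, add_zero] at this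
  obtain ⟨i, hi⟩ := Fam.exists_level (Φ := Φ) (fun x : F.J × F.J => E x.1 x.2)
    fun x => hΦ.dg _ _ (hE _ _)
  refine ⟨i, E, fun j l => hi (j, l), fun j l => ?_, fun j l => ?_, fun l => ?_, fun c hc j => ?_⟩
  · simp only [E, ← mul_assoc, Φ.pp_self]
  · simp only [E, mul_assoc, Φ.pp_self]
  · have h1 : F.y l = ∑ j, op (lam (F.y l) j) • F.y j := (LinearMap.congr_fun hlam (F.y l)).symm
    have h2 := congrArg (P.comp (N + 0)) h1
    rw [P.comp_of_mem _ _ _ (F.mem l), if_pos (add_zero N), map_sum] at h2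
    simp only [comp_act P (F.mem _)] at h2
    conv_lhs => rw [← F.fix l, h2, Finset.smul_sum]
    refine Finset.sum_congr rfl fun j _ => ?_
    simp only [E]
    rw [act_act, mul_assoc, F.act_u]
  · refine pr_ext (𝒜 := 𝒜) fun m => ?_
    have h1 := congrArg (P.comp (N + m)) hc
    rw [map_zero, map_sum] at h1
    simp only [comp_act P (F.mem _)] at h1
    have h2 : ∑ l, op (F.u l * pr 𝒜 m (c l)) • F.y l = 0 := by
      simpa only [F.act_u] using h1
    have h3 := congrArg (fun x => pr 𝒜 m (lam x j)) h2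
    simp only [map_sum, map_smul, Finset.sum_apply, Pi.smul_apply, map_zero, Pi.zero_apply,
      op_smul_eq_mul] at h3
    have h4 : ∀ l, F.u l * pr 𝒜 m (c l) ∈ 𝒜 m := fun l => by
      simpa using SetLike.mul_mem_graded (hΦ.p (C.ι (F.w l))) (pr_mem (𝒜 := 𝒜) m (c l))
    simp only [pr_mul_right (h4 _)] at h3
    rw [map_sum]
    simp only [pr_mul_left (hE _ _)]
    simp only [E, mul_assoc]
    rw [← Finset.mul_sum, h3, mul_zero]

end PF

lemma Fam.Gr.a {Φ : Fam L G} (hΦ : Φ.Gr k 𝒜) : ∀ {i : ℕ} (γ : Pth G i), Φ.a γ ∈ 𝒜 i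
  | 0, v => hΦ.p v
  | i + 1, x => by
    have := SetLike.mul_mem_graded (hΦ.a x.1.1) (hΦ.s x.1.2)
    exact this

lemma exists_PF {Φ : Fam L G} (hΦ : Φ.Gr k 𝒜) (C : Core G n) (P : GrProj (grOf 𝒜)) :
    ∃ K : ℕ, Nonempty (PF Φ C P (K + 1)) := by
  classical
  obtain ⟨m, s, hs⟩ := Module.Finite.exists_fin (R := Lᵐᵒᵖ) (M := P.M)
  choose T hT using fun i => P.exists_sum_comp (s i)
  let T' : Finset ℤ := univ.biUnion T
  obtain ⟨N, hN⟩ := T'.finite_toSet.bddAbove
  refine ⟨N.toNat, ⟨⟨Σ x : Fin m × T', Pth G ((N.toNat - x.2 : ℤ).toNat + 1),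
    fun x => op (Φ.a x.2) • P.comp x.1.2 (s x.1.1), fun x => C.ctm x.2, fun x => ?_, fun x => ?_,
    fun x => ?_⟩⟩⟩
  · have h1 := P.smul_mem _ _ _ _ (P.comp_mem x.1.2 (s x.1.1)) (hΦ.a x.2)
    have h2 : (x.1.2 : ℤ) ≤ N := hN x.1.2.2
    convert h1 using 2
    push_cast
    omega
  · rw [act_act, C.ι_ctm, Φ.a_p]
  · obtain ⟨c, hc⟩ := (Submodule.mem_span_range_iff_exists_fun Lᵐᵒᵖ).1
      (hs ▸ Submodule.mem_top : x ∈ Submodule.span Lᵐᵒᵖ (Set.range s))
    refine ⟨fun x => Φ.b x.2 * (c x.1.1).unop, ?_⟩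
    rw [← hc, Fintype.sum_sigma, Fintype.sum_prod_type]
    refine Finset.sum_congr rfl fun i _ => ?_
    conv_lhs => rw [← hT i T' (Finset.subset_biUnion_of_mem T (mem_univ i)), Finset.smul_sum,
      ← Finset.sum_coe_sort]
    refine Finset.sum_congr rfl fun d _ => ?_
    simp only [act_act, ← mul_assoc]
    rw [← Finset.sum_smul, ← Finset.op_sum, ← Finset.sum_mul, Φ.sum_ab, one_mul, op_unop]

lemma exists_frame {Φ : Fam L G} (hΦ : Φ.Gr k 𝒜) (C : Core G n) (P : GrProj (grOf 𝒜)) :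
    ∃ (K : ℕ) (N : ℤ) (F : PF Φ C P N), N = K + 1 ∧ F.Indep := by
  obtain ⟨K, ⟨F⟩⟩ := exists_PF hΦ C P
  obtain ⟨i, hi⟩ := F.exists_split hΦ
  obtain ⟨N, F', h1, h2⟩ := PF.Split.exists_indep hΦ i hi
  exact ⟨K + i, N, F', by rw [h1]; push_cast; ring, h2⟩

end Pool.Agent.P.MP_7da47b_al
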