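import Mathlib

/-!
Finite-dimensional representations of an algebra, additive invariants and Jordan-Hoelder
multiplicities.
-/

namespace Pool.Agent.P.MP_7da47b_al

open Module Function

universe u

/-- A finite-dimensional representation of a `k`-algebra `D`. -/
structure FRep (k : Type u) [Field k] (D : Type u) [Ring D] [Algebra k D] where
  W : Type u
  [acg : AddCommGroup W]
  [mod : Module k W]
  [fd : FiniteDimensional k W]
  π : D →ₐ[k] Module.End k W

attribute [instance] FRep.acg FRep.mod FRep.fd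

variable {k : Type u} [Field k] {D : Type u} [Ring D] [Algebra k D]

namespace FRep

def Intertw (ρ σ : FRep k D) (f : ρ.W →ₗ[k] σ.W) : Prop :=
  ∀ d x, f (ρ.π d x) = σ.π d (f x)

def Ext (ρ₁ ρ ρ₂ : FRep k D) : Prop :=
  ∃ (i : ρ₁.W →ₗ[k] ρ.W) (p : ρ.W →ₗ[k] ρ₂.W), Intertw ρ₁ ρ i ∧ Intertw ρ ρ₂ p ∧
    Injective i ∧ Surjective p ∧ ∀ x, p x = 0 ↔ ∃ y, i y = x

def Iso (ρ σ : FRep k D) : Prop :=
  ∃ f : ρ.W →ₗ[k] σ.W, Intertw ρ σ f ∧ Bijective f

def Addv (g : FRep k D → ℕ) : Prop :=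
  ∀ ρ₁ ρ ρ₂, Ext ρ₁ ρ ρ₂ → g ρ = g ρ₁ + g ρ₂

def Invariant (ρ : FRep k D) (U : Submodule k ρ.W) : Prop :=
  ∀ d x, x ∈ U → ρ.π d x ∈ U

/-- subrepresentation -/
noncomputable def sub (ρ : FRep k D) (U : Submodule k ρ.W) (hU : ρ.Invariant U) : FRep k D where
  W := U
  π := AlgHom.ofLinearMap
    { toFun := fun d => (ρ.π d).restrict (hU d)
      map_add' := fun a b => by ext x; simp
      map_smul' := fun c a => by ext x; simp }
    (by ext x; simp) (fun a b => by ext x; simp)

/-- quotient representation -/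
noncomputable def quot (ρ : FRep k D) (U : Submodule k ρ.W) (hU : ρ.Invariant U) : FRep k D where
  W := ρ.W ⧸ U
  π := AlgHom.ofLinearMap
    { toFun := fun d => U.mapQ U (ρ.π d) (hU d)
      map_add' := fun a b => by
        refine Submodule.linearMap_qext _ ?_
        ext x; simp
      map_smul' := fun c a => by
        refine Submodule.linearMap_qext _ ?_
        ext x; simp }
    (by
      refine Submodule.linearMap_qext _ ?_
      ext x; simp)
    (fun a b => by
      refine Submodule.linearMap_qext _ ?_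
      ext x; simp)

lemma quot_apply (ρ : FRep k D) (U : Submodule k ρ.W) (hU : ρ.Invariant U) (d : D) (x : ρ.W) :
    (ρ.quot U hU).π d (U.mkQ x) = U.mkQ (ρ.π d x) := rfl

lemma Intertw.range_inv {ρ σ : FRep k D} {f : ρ.W →ₗ[k] σ.W} (hf : Intertw ρ σ f) :
    σ.Invariant (LinearMap.range f) := by
  rintro d _ ⟨y, rfl⟩
  exact ⟨ρ.π d y, hf d y⟩

lemma Intertw.ker_inv {ρ σ : FRep k D} {f : ρ.W →ₗ[k] σ.W} (hf : Intertw ρ σ f) :
    ρ.Invariant (LinearMap.ker f) := by
  intro d x hx
  rw [LinearMap.mem_ker] at hx ⊢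
  rw [hf, hx, map_zero]

lemma ext_quot {ρ σ : FRep k D} {f : ρ.W →ₗ[k] σ.W} (hf : Intertw ρ σ f) (hi : Injective f) :
    Ext ρ σ (σ.quot _ hf.range_inv) := by
  refine ⟨f, (LinearMap.range f).mkQ, hf, fun d x => rfl, hi, Submodule.mkQ_surjective _, ?_⟩
  intro x
  exact (Submodule.Quotient.mk_eq_zero _).trans Iff.rfl

lemma Addv.zero {g : FRep k D → ℕ} (hg : Addv g) (ρ : FRep k D) [Subsingleton ρ.W] :
    g ρ = 0 := by
  have := hg ρ ρ ρ ⟨LinearMap.id, LinearMap.id, fun _ _ => rfl, fun _ _ => rfl, injective_id,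
    surjective_id, fun x => ⟨fun _ => ⟨x, rfl⟩, fun _ => Subsingleton.elim _ _⟩⟩
  omega

lemma Addv.iso {g : FRep k D → ℕ} (hg : Addv g) {ρ σ : FRep k D} (h : Iso ρ σ) :
    g ρ = g σ := by
  obtain ⟨f, hf, hb⟩ := h
  have h1 := hg _ _ _ (ext_quot hf hb.1)
  have : Subsingleton (σ.quot _ hf.range_inv).W := by
    show Subsingleton (σ.W ⧸ LinearMap.range f)
    rw [Submodule.Quotient.subsingleton_iff, LinearMap.range_eq_top]
    exact hb.2
  rw [hg.zero (σ.quot _ hf.range_inv)] at h1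
  omega

lemma Iso.symm {ρ σ : FRep k D} (h : Iso ρ σ) : Iso σ ρ := by
  obtain ⟨f, hf, hb⟩ := h
  let e := LinearEquiv.ofBijective f hb
  refine ⟨e.symm.toLinearMap, fun d x => ?_, e.symm.bijective⟩
  apply e.injective
  have : ∀ y, e y = f y := fun _ => rfl
  simp only [LinearEquiv.coe_coe, LinearEquiv.apply_symm_apply]
  rw [this, hf, ← this, LinearEquiv.apply_symm_apply]

/-- additivity of the dimension of compatible subspaces -/
lemma finrank_add_of_sub {W₁ W W₂ : Type u} [AddCommGroup W₁] [Module k W₁] [AddCommGroup W]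
    [Module k W] [AddCommGroup W₂] [Module k W₂] [FiniteDimensional k W]
    (i : W₁ →ₗ[k] W) (p : W →ₗ[k] W₂) (hi : Injective i) (hex : ∀ x, p x = 0 ↔ ∃ y, i y = x)
    (K₁ : Submodule k W₁) (K : Submodule k W) (K₂ : Submodule k W₂)
    (h1 : ∀ y, i y ∈ K ↔ y ∈ K₁) (h2 : K.map p = K₂) :
    finrank k K = finrank k K₁ + finrank k K₂ := by
  have h3 := LinearMap.finrank_range_add_finrank_ker (p.domRestrict K)
  rw [LinearMap.range_domRestrict, h2] at h3
  have h4 : finrank k (LinearMap.ker (p.domRestrict K)) = finrank k K₁ := by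
    rw [← Submodule.finrank_map_subtype_eq K, (Submodule.equivMapOfInjective i hi K₁).finrank_eq]
    suffices h : Submodule.map K.subtype (p.domRestrict K).ker = Submodule.map i K₁ by rw [h]
    ext x
    simp only [Submodule.mem_map, LinearMap.mem_ker, LinearMap.domRestrict_apply,
      Submodule.subtype_apply, Subtype.exists, exists_and_right, exists_eq_right]
    constructor
    · rintro ⟨hx, hp⟩
      obtain ⟨y, rfl⟩ := (hex x).1 hp
      exact ⟨y, (h1 y).1 hx, rfl⟩
    · rintro ⟨y, hy, rfl⟩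
      exact ⟨(h1 y).2 hy, (hex _).2 ⟨y, rfl⟩⟩
  omega

lemma additive_finrank : Addv (fun ρ : FRep k D => finrank k ρ.W) := by
  rintro ρ₁ ρ ρ₂ ⟨i, p, -, -, hi, hp, hex⟩
  have := finrank_add_of_sub i p hi hex ⊤ ⊤ ⊤ (by simp)
    (by rw [Submodule.map_top, LinearMap.range_eq_top]; exact hp)
  simpa using this

/-- rank of an element -/
noncomputable def rk (ε : D) (ρ : FRep k D) : ℕ := finrank k (LinearMap.range (ρ.π ε))

lemma mem_range_idem (ρ : FRep k D) {ε : D} (hε : ε * ε = ε) (x : ρ.W) :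
    x ∈ LinearMap.range (ρ.π ε) ↔ ρ.π ε x = x := by
  constructor
  · rintro ⟨y, rfl⟩
    rw [← Module.End.mul_apply, ← map_mul, hε]
  · intro h; exact ⟨x, h⟩

lemma additive_rk {ε : D} (hε : ε * ε = ε) : Addv (rk (k := k) ε) := by
  rintro ρ₁ ρ ρ₂ ⟨i, p, hi', hp', hi, hp, hex⟩
  refine finrank_add_of_sub i p hi hex _ _ _ ?_ ?_
  · intro y
    rw [mem_range_idem _ hε, mem_range_idem _ hε, ← hi', hi.eq_iff]
  · ext z
    simp only [Submodule.mem_map, LinearMap.mem_range]
    constructor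
    · rintro ⟨_, ⟨y, rfl⟩, rfl⟩
      exact ⟨p y, (hp' _ _).symm⟩
    · rintro ⟨y, rfl⟩
      obtain ⟨x, rfl⟩ := hp y
      exact ⟨_, ⟨x, rfl⟩, hp' _ _⟩

/-- dimension of the generalized kernel -/
noncomputable def kap (d : D) (ρ : FRep k D) : ℕ :=
  finrank k (⨆ n : ℕ, LinearMap.ker ((ρ.π d) ^ n) : Submodule k ρ.W)

lemma mem_iSup_ker {W : Type u} [AddCommGroup W] [Module k W] (f : Module.End k W) (x : W) :
    x ∈ (⨆ n : ℕ, LinearMap.ker (f ^ n) : Submodule k W) ↔ ∃ n : ℕ, (f ^ n) x = 0 := by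
  rw [Submodule.mem_iSup_of_directed]
  · simp
  · refine Monotone.directed_le ?_
    exact (LinearMap.iterateKer f).monotone

lemma additive_kap (d : D) : Addv (kap (k := k) d) := by
  rintro ρ₁ ρ ρ₂ ⟨i, p, hi', hp', hi, hp, hex⟩
  have hi2 : ∀ n : ℕ, ∀ x, i ((ρ₁.π d ^ n) x) = (ρ.π d ^ n) (i x) := fun n x => by
    rw [← map_pow, ← map_pow, hi']
  have hp2 : ∀ n : ℕ, ∀ x, p ((ρ.π d ^ n) x) = (ρ₂.π d ^ n) (p x) := fun n x => by
    rw [← map_pow, ← map_pow, hp']
  refine finrank_add_of_sub i p hi hex _ _ _ ?_ ?_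
  · intro y
    simp only [mem_iSup_ker, ← hi2, map_eq_zero_iff i hi]
  · ext z
    simp only [Submodule.mem_map]
    constructor
    · rintro ⟨x, hx, rfl⟩
      rw [mem_iSup_ker] at hx ⊢
      obtain ⟨n, hn⟩ := hx
      exact ⟨n, by rw [← hp2, hn, map_zero]⟩
    · intro hz
      obtain ⟨x, rfl⟩ := hp z
      have hc := LinearMap.isCompl_iSup_ker_pow_iInf_range_pow (ρ.π d)
      have hc2 := LinearMap.isCompl_iSup_ker_pow_iInf_range_pow (ρ₂.π d)
      have hx : x ∈ (⨆ n : ℕ, LinearMap.ker (ρ.π d ^ n)) ⊔ ⨅ n : ℕ, LinearMap.range (ρ.π d ^ n) := by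
        rw [hc.sup_eq_top]; trivial
      obtain ⟨a, ha, b, hb, rfl⟩ := Submodule.mem_sup.1 hx
      refine ⟨a, ha, ?_⟩
      have hpa : p a ∈ (⨆ n : ℕ, LinearMap.ker (ρ₂.π d ^ n) : Submodule k ρ₂.W) := by
        rw [mem_iSup_ker] at ha ⊢
        obtain ⟨n, hn⟩ := ha
        exact ⟨n, by rw [← hp2, hn, map_zero]⟩
      have hpb : p b ∈ (⨅ n : ℕ, LinearMap.range (ρ₂.π d ^ n) : Submodule k ρ₂.W) := by
        rw [Submodule.mem_iInf] at hb ⊢
        intro n
        obtain ⟨y, hy⟩ := hb n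
        exact ⟨p y, by rw [← hp2, hy]⟩
      have hpb' : p b ∈ (⨆ n : ℕ, LinearMap.ker (ρ₂.π d ^ n) : Submodule k ρ₂.W) := by
        have : p b = p (a + b) - p a := by simp
        rw [this]
        exact Submodule.sub_mem _ hz hpa
      have : p b = 0 := (Submodule.disjoint_def.1 hc2.disjoint) _ hpb' hpb
      simp [this]

end FRep

open FRep

/-- A multiplicity basis: representatives of the composition factors with their multiplicity
functions. -/
structure MB (k : Type u) [Field k] (D : Type u) [Ring D] [Algebra k D] (n : ℕ) where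
  S : Fin n → FRep k D
  μ : Fin n → FRep k D → ℕ
  add : ∀ i, Addv (μ i)
  expand : ∀ g, Addv g → ∀ ρ, g ρ = ∑ i, μ i ρ * g (S i)

lemma generation {I : Type*} [Fintype I] (S : I → FRep k D)
    (hS : ∀ ρ : FRep k D, Nontrivial ρ.W →
      ∃ (i : I) (f : (S i).W →ₗ[k] ρ.W), Nontrivial (S i).W ∧ Intertw _ _ f ∧ Injective f) :
    ∀ (N : ℕ) (ρ : FRep k D), finrank k ρ.W ≤ N →
      ∃ m : I → ℕ, ∀ g, Addv g → g ρ = ∑ i, m i * g (S i) := by
  classical
  intro N
  induction N with
  | zero =>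
    intro ρ hρ
    have : Subsingleton ρ.W := Module.finrank_zero_iff.1 (Nat.le_zero.1 hρ)
    exact ⟨0, fun g hg => by simp [hg.zero ρ]⟩
  | succ N ih =>
    intro ρ hρ
    rcases subsingleton_or_nontrivial ρ.W with h | h
    · exact ⟨0, fun g hg => by simp [hg.zero ρ]⟩
    obtain ⟨i, f, hnt, hf, hi⟩ := hS ρ h
    have he := ext_quot hf hi
    have h1 := additive_finrank _ _ _ he
    have h2 : 0 < finrank k (S i).W := Module.finrank_pos
    obtain ⟨m, hm⟩ := ih (ρ.quot _ hf.range_inv) (by simp only at h1; omega)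
    refine ⟨m + Pi.single i 1, fun g hg => ?_⟩
    rw [hg _ _ _ he, hm g hg]
    simp only [Pi.add_apply, add_mul, Finset.sum_add_distrib]
    rw [add_comm]
    congr 1
    rw [Finset.sum_eq_single i]
    · simp
    · intro j _ hj; simp [hj]
    · simp

/-- construction of a multiplicity basis from separating additive functions -/
lemma exists_MB_of {n : ℕ} (S : Fin n → FRep k D)
    (hS : ∀ ρ : FRep k D, Nontrivial ρ.W →
      ∃ (i : Fin n) (f : (S i).W →ₗ[k] ρ.W), Nontrivial (S i).W ∧ Intertw _ _ f ∧ Injective f)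
    (g : Fin n → FRep k D → ℕ) (hg : ∀ i, Addv (g i)) (h1 : ∀ i, 0 < g i (S i))
    (h2 : ∀ i j, i ≠ j → g i (S j) = 0) :
    ∃ B : MB k D n, B.S = S ∧ ∀ i ρ, g i ρ = B.μ i ρ * g i (S i) := by
  choose m hm using fun ρ => generation S hS _ ρ le_rfl
  have key : ∀ i ρ, g i ρ = m ρ i * g i (S i) := by
    intro i ρ
    rw [hm ρ _ (hg i), Finset.sum_eq_single i]
    · intro j _ hj; simp [h2 i j hj.symm]
    · simp
  refine ⟨⟨S, fun i ρ => m ρ i, fun i => ?_, fun g' hg' ρ => hm ρ g' hg'⟩, rfl, key⟩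
  intro ρ₁ ρ ρ₂ he
  have := hg i _ _ _ he
  rw [key i ρ, key i ρ₁, key i ρ₂, ← add_mul] at this
  exact Nat.eq_of_mul_eq_mul_right (h1 i) this

def FRep.Irred (ρ : FRep k D) : Prop :=
  Nontrivial ρ.W ∧ ∀ U, ρ.Invariant U → U = ⊥ ∨ U = ⊤

lemma exists_irred (ρ : FRep k D) (h : Nontrivial ρ.W) :
    ∃ (σ : FRep k D) (f : σ.W →ₗ[k] ρ.W), σ.Irred ∧ Intertw _ _ f ∧ Injective f := by
  classical
  have hex : ∃ n, ∃ U : Submodule k ρ.W, ρ.Invariant U ∧ U ≠ ⊥ ∧ finrank k U = n :=
    ⟨_, ⊤, fun _ _ _ => trivial, top_ne_bot, rfl⟩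
  obtain ⟨U, hU, hU0, hUn⟩ := Nat.find_spec hex
  refine ⟨ρ.sub U hU, U.subtype, ⟨Submodule.nontrivial_iff_ne_bot.2 hU0, ?_⟩, fun _ _ => rfl,
    U.injective_subtype⟩
  intro V hV
  by_cases hV0 : V = ⊥
  · exact Or.inl hV0
  right
  have hinv : ρ.Invariant (Submodule.map U.subtype V) := by
    rintro d _ ⟨x, hx, rfl⟩
    exact ⟨_, hV d x hx, rfl⟩
  have hne : Submodule.map U.subtype V ≠ ⊥ := by
    intro h0
    apply hV0
    rw [eq_bot_iff]
    intro x hx
    have : U.subtype x ∈ Submodule.map U.subtype V := Submodule.mem_map_of_mem hx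
    rw [h0, Submodule.mem_bot] at this
    exact (Submodule.mem_bot _).2 (Subtype.ext this)
  have hle := Nat.find_min' hex ⟨_, hinv, hne, rfl⟩
  rw [Submodule.finrank_map_subtype_eq, ← hUn] at hle
  exact Submodule.eq_top_of_finrank_eq (le_antisymm (Submodule.finrank_le V) hle)

/-- separation step -/
lemma sep_step {S T : FRep k D} (hS : S.Irred) (hT : T.Irred) (hST : ¬ Iso T S) (s : S.W)
    (t : T.W) (A : Submodule D D) (hA : ∀ y, ∃ d ∈ A, S.π d s = y) :
    ∀ y, ∃ d ∈ A, T.π d t = 0 ∧ S.π d s = y := by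
  let A' := A.restrictScalars k
  let f : A' →ₗ[k] T.W :=
    { toFun := fun d => T.π d t
      map_add' := fun a b => by simp
      map_smul' := fun c a => by simp }
  let g : A' →ₗ[k] S.W :=
    { toFun := fun d => S.π d s
      map_add' := fun a b => by simp
      map_smul' := fun c a => by simp }
  have hg : Surjective g := fun y => by
    obtain ⟨d, hd, h⟩ := hA y
    exact ⟨⟨d, hd⟩, h⟩
  have hmul : ∀ (d : D) (a : A'), d * (a : D) ∈ A' := fun d a => A.smul_mem d a.2
  have hf1 : ∀ (d : D) (a : A'), f ⟨d * a, hmul d a⟩ = T.π d (f a) := fun d a => by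
    simp [f]
  have hg1 : ∀ (d : D) (a : A'), g ⟨d * a, hmul d a⟩ = S.π d (g a) := fun d a => by
    simp [g]
  have hinv : S.Invariant ((LinearMap.ker f).map g) := by
    rintro d _ ⟨a, ha, rfl⟩
    refine ⟨⟨d * a, hmul d a⟩, ?_, hg1 d a⟩
    have ha' : f a = 0 := ha
    show f _ = 0
    rw [hf1, ha', map_zero]
  rcases hS.2 _ hinv with h0 | h0
  · exfalso
    have hker : ∀ a, f a = 0 → g a = 0 := fun a ha => by
      have : g a ∈ (LinearMap.ker f).map g := Submodule.mem_map_of_mem ha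
      rwa [h0, Submodule.mem_bot] at this
    have hinvT : T.Invariant (LinearMap.range f) := by
      rintro d _ ⟨a, rfl⟩
      exact ⟨_, hf1 d a⟩
    have := hS.1
    rcases hT.2 _ hinvT with h1 | h1
    · obtain ⟨y, hy⟩ := exists_ne (0 : S.W)
      obtain ⟨a, rfl⟩ := hg y
      apply hy
      apply hker
      have : f a ∈ LinearMap.range f := ⟨a, rfl⟩
      rwa [h1, Submodule.mem_bot] at this
    · obtain ⟨h, hh⟩ := f.exists_rightInverse_of_surjective h1
      have hφ : ∀ a, (g ∘ₗ h) (f a) = g a := fun a => by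
        have : f (h (f a) - a) = 0 := by
          rw [map_sub, ← LinearMap.comp_apply f h, hh]; simp
        have := hker _ this
        rw [map_sub, sub_eq_zero] at this
        exact this
      have hsurj : Surjective f := LinearMap.range_eq_top.1 h1
      have hint : Intertw T S (g ∘ₗ h) := fun d x => by
        obtain ⟨a, rfl⟩ := hsurj x
        rw [← hf1, hφ, hφ, hg1]
      have hs2 : Surjective (g ∘ₗ h) := fun y => by
        obtain ⟨a, rfl⟩ := hg y
        exact ⟨f a, hφ a⟩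
      apply hST
      refine ⟨g ∘ₗ h, hint, ?_, hs2⟩
      rcases hT.2 _ hint.ker_inv with h2 | h2
      · exact LinearMap.ker_eq_bot.1 h2
      · exfalso
        obtain ⟨y, hy⟩ := exists_ne (0 : S.W)
        obtain ⟨x, rfl⟩ := hs2 y
        apply hy
        have : x ∈ LinearMap.ker (g ∘ₗ h) := by rw [h2]; trivial
        exact this
  · intro y
    have : y ∈ (LinearMap.ker f).map g := by rw [h0]; trivial
    obtain ⟨a, ha, rfl⟩ := this
    exact ⟨a, a.2, ha, rfl⟩

/-- annihilator of a vector -/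
def annV (T : FRep k D) (t : T.W) : Submodule D D where
  carrier := {d | T.π d t = 0}
  add_mem' := fun {a b} ha hb => by
    simp only [Set.mem_ofPred_eq] at ha hb ⊢
    simp [ha, hb]
  zero_mem' := by simp
  smul_mem' := fun c a ha => by
    simp only [Set.mem_ofPred_eq] at ha ⊢
    simp [ha]

lemma sep_family {S : FRep k D} (hS : S.Irred) {J : Type*} (T : J → FRep k D)
    (t : ∀ j, (T j).W) (s : S.W) (hs : s ≠ 0) (F : Finset J)
    (hT : ∀ j ∈ F, (T j).Irred ∧ ¬ Iso (T j) S) :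
    ∀ y, ∃ d, (∀ j ∈ F, (T j).π d (t j) = 0) ∧ S.π d s = y := by
  classical
  induction F using Finset.induction_on with
  | empty =>
    intro y
    let g : D →ₗ[k] S.W :=
      { toFun := fun d => S.π d s
        map_add' := fun a b => by simp
        map_smul' := fun c a => by simp }
    have hinv : S.Invariant (LinearMap.range g) := by
      rintro d _ ⟨a, rfl⟩
      exact ⟨d * a, by simp [g]⟩
    rcases hS.2 _ hinv with h0 | h0
    · exfalso
      apply hs
      have : g 1 ∈ LinearMap.range g := ⟨1, rfl⟩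
      rw [h0, Submodule.mem_bot] at this
      simpa [g] using this
    · obtain ⟨d, hd⟩ := LinearMap.range_eq_top.1 h0 y
      exact ⟨d, by simp, hd⟩
  | insert j F hj ih =>
    intro y
    have ih' := ih (fun j' hj' => hT j' (Finset.mem_insert_of_mem hj'))
    obtain ⟨h1, h2⟩ := hT j (Finset.mem_insert_self _ _)
    obtain ⟨d, hd, hd1, hd2⟩ := sep_step hS h1 h2 s (t j) (⨅ j' ∈ F, annV (T j') (t j'))
      (fun y => by
        obtain ⟨d, hd, hd'⟩ := ih' y
        refine ⟨d, ?_, hd'⟩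
        simp only [Submodule.mem_iInf]
        exact hd) y
    refine ⟨d, ?_, hd2⟩
    intro j' hj'
    rcases Finset.mem_insert.1 hj' with rfl | hj'
    · exact hd1
    · simp only [Submodule.mem_iInf] at hd
      exact hd j' hj'

lemma sep_elements {n : ℕ} (S : Fin n → FRep k D) (hS : ∀ i, (S i).Irred)
    (hne : ∀ i j, i ≠ j → ¬ Iso (S i) (S j)) (i : Fin n) :
    ∃ (d : D) (s : (S i).W), s ≠ 0 ∧ (S i).π d s = s ∧ ∀ j, j ≠ i → (S j).π d = 0 := by
  classical
  have := (hS i).1
  obtain ⟨s, hs⟩ := exists_ne (0 : (S i).W)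
  let J := Σ j : Fin n, Fin (finrank k (S j).W)
  obtain ⟨d, hd, hd'⟩ := sep_family (hS i) (fun x : J => S x.1)
    (fun x => Module.finBasis k (S x.1).W x.2) s hs (Finset.univ.filter fun x => x.1 ≠ i)
    (fun x hx => ⟨hS _, hne _ _ (by simpa using hx)⟩) s
  refine ⟨d, s, hs, hd', fun j hj => ?_⟩
  refine (Module.finBasis k (S j).W).ext fun a => ?_
  exact hd ⟨j, a⟩ (by simpa using hj)

theorem exists_MB [FiniteDimensional k D] : ∃ n, Nonempty (MB k D n) := by
  classical
  let P : ℕ → Prop := fun n => ∃ S : Fin n → FRep k D, (∀ i, (S i).Irred) ∧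
    ∀ i j, i ≠ j → ¬ Iso (S i) (S j)
  have hbound : ∀ n, P n → n ≤ finrank k D := by
    rintro n ⟨S, hS, hne⟩
    choose d s hs hd hd' using sep_elements S hS hne
    have : LinearIndependent k d := by
      rw [Fintype.linearIndependent_iff]
      intro c hc i
      have h1 := congrArg (fun x => (S i).π x (s i)) hc
      simp only [map_sum, map_smul, LinearMap.sum_apply, LinearMap.smul_apply, map_zero,
        LinearMap.zero_apply] at h1
      rw [Finset.sum_eq_single i] at h1
      · rw [hd i] at h1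
        exact (smul_eq_zero.1 h1).resolve_right (hs i)
      · intro j _ hj; rw [hd' j i hj.symm]; simp
      · simp
    simpa using this.fintype_card_le_finrank
  have hP0 : P 0 := ⟨Fin.elim0, fun i => i.elim0, fun i => i.elim0⟩
  set n := Nat.findGreatest P (finrank k D) with hn
  obtain ⟨S, hS, hne⟩ : P n := Nat.findGreatest_spec (Nat.zero_le _) hP0
  have hall : ∀ σ : FRep k D, σ.Irred → ∃ i, Iso (S i) σ := by
    intro σ hσ
    by_contra hcon
    push Not at hcon
    have hP : P (n + 1) := by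
      refine ⟨Fin.cons σ S, fun i => ?_, fun i j hij => ?_⟩
      · refine Fin.cases ?_ (fun i => ?_) i
        · exact hσ
        · exact hS i
      · revert hij
        refine Fin.cases ?_ (fun i => ?_) i <;> refine Fin.cases ?_ (fun j => ?_) j
        · intro h; exact absurd rfl h
        · intro _ h; exact hcon j h.symm
        · intro _ h; exact hcon i h
        · intro h; exact hne i j (fun h' => h (by rw [h']))
    have := Nat.le_findGreatest (hbound _ hP) hP
    omega
  choose d s hs hd hd' using sep_elements S hS hne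
  obtain ⟨B, -, -⟩ := exists_MB_of S (fun ρ hρ => by
      obtain ⟨σ, f, hσ, hf, hi⟩ := exists_irred ρ hρ
      obtain ⟨i, e, he, hb⟩ := hall σ hσ
      refine ⟨i, f ∘ₗ e, (hS i).1, fun d x => ?_, hi.comp hb.1⟩
      simp only [LinearMap.comp_apply]
      rw [he, hf])
    (fun i => kap (d i - 1)) (fun i => additive_kap _)
    (fun i => by
      unfold kap
      rw [Module.finrank_pos_iff, Submodule.nontrivial_iff_ne_bot]
      intro h0
      apply hs i
      have : s i ∈ (⨆ n : ℕ, LinearMap.ker (((S i).π (d i - 1)) ^ n) : Submodule k (S i).W) := by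
        rw [mem_iSup_ker]
        exact ⟨1, by simp [hd i]⟩
      rwa [h0, Submodule.mem_bot] at this)
    (fun i j hij => by
      unfold kap
      rw [Submodule.finrank_eq_zero, eq_bot_iff]
      intro x hx
      rw [mem_iSup_ker] at hx
      obtain ⟨m, hm⟩ := hx
      rw [map_sub, hd' i j hij.symm, map_one, zero_sub] at hm
      have : IsUnit ((-1 : Module.End k (S j).W) ^ m) := (isUnit_one.neg).pow m
      have hinj := (Module.End.isUnit_iff _).1 this
      exact (Submodule.mem_bot _).2 (hinj.1 (by rw [hm, map_zero])))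
  exact ⟨n, ⟨B⟩⟩

/-- the matrix of an exact functor -/
def MB.mat {D' : Type u} [Ring D'] [Algebra k D'] {n n' : ℕ} (B : MB k D n) (B' : MB k D' n')
    (F : FRep k D → FRep k D') : Matrix (Fin n) (Fin n') ℕ :=
  Matrix.of fun i i' => B'.μ i' (F (B.S i))

def ExactF {D' : Type u} [Ring D'] [Algebra k D'] (F : FRep k D → FRep k D') : Prop :=
  ∀ ρ₁ ρ ρ₂, Ext ρ₁ ρ ρ₂ → Ext (F ρ₁) (F ρ) (F ρ₂)

lemma MB.mat_mul {D' D'' : Type u} [Ring D'] [Algebra k D'] [Ring D''] [Algebra k D'']
    {n n' n'' : ℕ} (B : MB k D n) (B' : MB k D' n') (B'' : MB k D'' n'')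
    (F : FRep k D → FRep k D') (G : FRep k D' → FRep k D'') (hG : ExactF G) :
    B.mat B' F * B'.mat B'' G = B.mat B'' (G ∘ F) := by
  ext i i''
  simp only [MB.mat, Matrix.mul_apply, Matrix.of_apply, Function.comp]
  exact (B'.expand (fun ρ => B''.μ i'' (G ρ))
    (fun _ _ _ h => B''.add i'' _ _ _ (hG _ _ _ h)) _).symm

lemma MB.mat_congr {D' : Type u} [Ring D'] [Algebra k D'] {n n' : ℕ} (B : MB k D n)
    (B' : MB k D' n') (F G : FRep k D → FRep k D') (h : ∀ ρ, Iso (F ρ) (G ρ)) :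
    B.mat B' F = B.mat B' G := by
  ext i i'
  exact (B'.add i').iso (h _)

end Pool.Agent.P.MP_7da47b_al
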