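import Mathlib

/-!
The Kim-Roush-Wagoner sign-gyration number of an elementary strong shift equivalence and its
homotopy invariance.
-/

namespace Pool.Agent.P.MP_7da47b_al

open Finset Matrix

/-- The binomial coefficient `x choose 2` for an integer. -/
def bin2 (x : ℤ) : ℤ := x * (x - 1) / 2

lemma two_mul_bin2 (x : ℤ) : 2 * bin2 x = x * (x - 1) := by
  unfold bin2
  exact Int.mul_ediv_cancel' (even_iff_two_dvd.mp (Int.even_mul_pred_self x))

lemma bin2_mul (x y : ℤ) : bin2 (x * y) = bin2 x * y ^ 2 + x * bin2 y := by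
  have h1 := two_mul_bin2 (x * y)
  have h2 := two_mul_bin2 x
  have h3 := two_mul_bin2 y
  have : 2 * bin2 (x * y) = 2 * (bin2 x * y ^ 2 + x * bin2 y) := by
    linear_combination h1 - y ^ 2 * h2 - x * h3
  omega

lemma sum_symm_split {n : ℕ} (f : Fin n → Fin n → ℤ) (hf : ∀ i j, f i j = f j i) :
    ∑ i, ∑ j, f i j = ∑ i, f i i + 2 * ∑ i, ∑ j, if i < j then f i j else 0 := by
  have h1 : ∀ i j, f i j = (if i = j then f i i else 0) + (if i < j then f i j else 0)
      + (if j < i then f j i else 0) := by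
    intro i j
    rcases lt_trichotomy i j with h | h | h
    · simp [h, h.ne, not_lt.mpr h.le]
    · subst h; simp
    · simp [h, h.ne', not_lt.mpr h.le, hf i j]
  have h2 : ∑ i, ∑ j, (if j < i then f j i else 0) = ∑ i, ∑ j, if i < j then f i j else 0 :=
    Finset.sum_comm
  calc ∑ i, ∑ j, f i j = ∑ i, ∑ j, ((if i = j then f i i else 0) + (if i < j then f i j else 0)
      + (if j < i then f j i else 0)) := by
        refine Finset.sum_congr rfl fun i _ => Finset.sum_congr rfl fun j _ => h1 i j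
    _ = _ := by
        simp only [Finset.sum_add_distrib, h2, Finset.sum_ite_eq, Finset.mem_univ, if_true]
        ring

lemma bin2_sum {n : ℕ} (x : Fin n → ℤ) :
    bin2 (∑ j, x j) = ∑ j, bin2 (x j) + ∑ j, ∑ j', if j < j' then x j * x j' else 0 := by
  have h1 := two_mul_bin2 (∑ j, x j)
  have h2 := sum_symm_split (fun j j' => x j * x j') (fun i j => mul_comm _ _)
  have h3 : 2 * ∑ j, bin2 (x j) = ∑ j, x j * x j - ∑ j, x j := by
    rw [Finset.mul_sum, ← Finset.sum_sub_distrib]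
    exact Finset.sum_congr rfl fun j _ => by rw [two_mul_bin2]; ring
  have h4 : (∑ j, x j) * (∑ j, x j) = ∑ j, ∑ j', x j * x j' := Finset.sum_mul_sum _ _ _ _
  have : 2 * bin2 (∑ j, x j)
      = 2 * (∑ j, bin2 (x j) + ∑ j, ∑ j', if j < j' then x j * x j' else 0) := by
    linear_combination h1 + h4 + h2 - h3
  omega

/-- The integer whose parity is the sign-gyration number. -/
def qZ {n m : ℕ} (R : Matrix (Fin n) (Fin m) ℤ) (S : Matrix (Fin m) (Fin n) ℤ) : ℤ :=
  (∑ i, ∑ j, ∑ k, ∑ l, if i < j ∧ l < k then R i k * S k i * (R j l * S l j) else 0)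
  + (∑ i, ∑ j, ∑ k, ∑ l, if i < j ∧ l ≤ k then R i k * S k j * (R j l * S l i) else 0)
  + ∑ i, ∑ k, bin2 (R i k) * S k i

/-- The sign-gyration number. -/
def q {n m : ℕ} (R : Matrix (Fin n) (Fin m) ℤ) (S : Matrix (Fin m) (Fin n) ℤ) : ZMod 2 :=
  (qZ R S : ZMod 2)

lemma sum_swap_zero {α : Type*} [Fintype α] [DecidableEq α] (f : α → α → ZMod 2)
    (h1 : ∀ a b, f a b + f b a = 0) (h2 : ∀ a, f a a = 0) : ∑ a, ∑ b, f a b = 0 := by
  rw [← Finset.sum_product' (s := univ) (t := univ) (f := f)]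
  refine Finset.sum_involution (fun p _ => p.swap) ?_ ?_ ?_ ?_
  · intro p _; exact h1 _ _
  · intro p _ hp h
    apply hp
    have : p.2 = p.1 := congrArg Prod.fst h
    show f p.1 p.2 = 0
    rw [this]; exact h2 _
  · intro p _; simp
  · intro p _; simp

section Triangle

variable {a b c : ℕ}

/-- Index triples. -/
abbrev Tri (a b c : ℕ) := Fin a × Fin b × Fin c

lemma sum_tri {M : Type*} [AddCommMonoid M] (f : Tri a b c → M) :
    ∑ p, f p = ∑ i, ∑ j, ∑ k, f (i, j, k) := by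
  simp only [Fintype.sum_prod_type]

variable (X : Matrix (Fin a) (Fin b) ℤ) (Y : Matrix (Fin b) (Fin c) ℤ)
  (Z : Matrix (Fin c) (Fin a) ℤ)

def w1 (p p' : Tri a b c) : ℤ :=
  X p.1 p.2.1 * Y p.2.1 p.2.2 * Z p.2.2 p.1 * (X p'.1 p'.2.1 * Y p'.2.1 p'.2.2 * Z p'.2.2 p'.1)

def w2 (p p' : Tri a b c) : ℤ :=
  X p.1 p.2.1 * Y p.2.1 p.2.2 * Z p.2.2 p'.1 * (X p'.1 p'.2.1 * Y p'.2.1 p'.2.2 * Z p'.2.2 p.1)

/-- reorder six sums -/
lemma six {M : Type*} [AddCommMonoid M] (f : Tri a b c → Tri a b c → M) :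
    ∑ p, ∑ p', f p p' = ∑ i, ∑ i', ∑ k, ∑ k', ∑ j, ∑ j', f (i, j, k) (i', j', k') := by
  simp only [sum_tri]
  refine Finset.sum_congr rfl fun i _ => ?_
  calc ∑ j, ∑ k, ∑ i', ∑ j', ∑ k', f (i, j, k) (i', j', k')
      = ∑ j, ∑ i', ∑ k, ∑ j', ∑ k', f (i, j, k) (i', j', k') :=
        Finset.sum_congr rfl fun j _ => Finset.sum_comm
    _ = ∑ i', ∑ j, ∑ k, ∑ j', ∑ k', f (i, j, k) (i', j', k') := Finset.sum_comm
    _ = ∑ i', ∑ k, ∑ j, ∑ j', ∑ k', f (i, j, k) (i', j', k') :=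
        Finset.sum_congr rfl fun i' _ => Finset.sum_comm
    _ = ∑ i', ∑ k, ∑ j, ∑ k', ∑ j', f (i, j, k) (i', j', k') :=
        Finset.sum_congr rfl fun i' _ => Finset.sum_congr rfl fun k _ =>
          Finset.sum_congr rfl fun j _ => Finset.sum_comm
    _ = _ := Finset.sum_congr rfl fun i' _ => Finset.sum_congr rfl fun k _ => Finset.sum_comm

lemma six' {M : Type*} [AddCommMonoid M] (f : Tri a b c → Tri a b c → M) :
    ∑ p, ∑ p', f p p' = ∑ i, ∑ i', ∑ j, ∑ j', ∑ k, ∑ k', f (i, j, k) (i', j', k') := by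
  rw [six]
  refine Finset.sum_congr rfl fun i _ => Finset.sum_congr rfl fun i' _ => ?_
  calc ∑ k, ∑ k', ∑ j, ∑ j', f (i, j, k) (i', j', k')
      = ∑ k, ∑ j, ∑ k', ∑ j', f (i, j, k) (i', j', k') :=
        Finset.sum_congr rfl fun k _ => Finset.sum_comm
    _ = ∑ k, ∑ j, ∑ j', ∑ k', f (i, j, k) (i', j', k') :=
        Finset.sum_congr rfl fun k _ => Finset.sum_congr rfl fun j _ => Finset.sum_comm
    _ = ∑ j, ∑ k, ∑ j', ∑ k', f (i, j, k) (i', j', k') := Finset.sum_comm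
    _ = _ := Finset.sum_congr rfl fun j _ => Finset.sum_comm

lemma six'' {M : Type*} [AddCommMonoid M] (f : Tri a b c → Tri a b c → M) :
    ∑ p, ∑ p', f p p' = ∑ j, ∑ j', ∑ k, ∑ k', ∑ i, ∑ i', f (i, j, k) (i', j', k') := by
  rw [six']
  calc ∑ i, ∑ i', ∑ j, ∑ j', ∑ k, ∑ k', f (i, j, k) (i', j', k')
      = ∑ x : Fin a × Fin a, ∑ y : Fin b × Fin b × Fin c × Fin c,
          f (x.1, y.1, y.2.2.1) (x.2, y.2.1, y.2.2.2) := by
        simp only [Fintype.sum_prod_type]
    _ = ∑ y : Fin b × Fin b × Fin c × Fin c, ∑ x : Fin a × Fin a,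
          f (x.1, y.1, y.2.2.1) (x.2, y.2.1, y.2.2.2) := Finset.sum_comm
    _ = _ := by simp only [Fintype.sum_prod_type]

lemma qZ_XY : qZ (X * Y) Z =
    (∑ p : Tri a b c, ∑ p' : Tri a b c,
      ((if p.1 < p'.1 ∧ p'.2.2 < p.2.2 then w1 X Y Z p p' else 0)
      + (if p.1 < p'.1 ∧ p'.2.2 ≤ p.2.2 then w2 X Y Z p p' else 0)))
    + ∑ i, ∑ k, bin2 ((X * Y) i k) * Z k i := by
  unfold qZ
  congr 1
  rw [six, ← Finset.sum_add_distrib]
  refine Finset.sum_congr rfl fun i _ => ?_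
  rw [← Finset.sum_add_distrib]
  refine Finset.sum_congr rfl fun i' _ => ?_
  rw [← Finset.sum_add_distrib]
  refine Finset.sum_congr rfl fun k _ => ?_
  rw [← Finset.sum_add_distrib]
  refine Finset.sum_congr rfl fun k' _ => ?_
  simp only [Finset.sum_add_distrib, Matrix.mul_apply, w1, w2]
  congr 1
  · split_ifs
    · simp only [Finset.sum_mul, Finset.mul_sum]
      rw [Finset.sum_comm]
    · simp
  · split_ifs
    · simp only [Finset.sum_mul, Finset.mul_sum]
      rw [Finset.sum_comm]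
    · simp

lemma qZ_YZ : qZ X (Y * Z) =
    (∑ p : Tri a b c, ∑ p' : Tri a b c,
      ((if p.1 < p'.1 ∧ p'.2.1 < p.2.1 then w1 X Y Z p p' else 0)
      + (if p.1 < p'.1 ∧ p'.2.1 ≤ p.2.1 then w2 X Y Z p p' else 0)))
    + ∑ i, ∑ j, bin2 (X i j) * (Y * Z) j i := by
  unfold qZ
  congr 1
  rw [six', ← Finset.sum_add_distrib]
  refine Finset.sum_congr rfl fun i _ => ?_
  rw [← Finset.sum_add_distrib]
  refine Finset.sum_congr rfl fun i' _ => ?_
  rw [← Finset.sum_add_distrib]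
  refine Finset.sum_congr rfl fun j _ => ?_
  rw [← Finset.sum_add_distrib]
  refine Finset.sum_congr rfl fun j' _ => ?_
  simp only [Finset.sum_add_distrib, Matrix.mul_apply, w1, w2]
  congr 1
  · split_ifs
    · simp only [Finset.sum_mul, Finset.mul_sum]
      rw [Finset.sum_comm]
      exact Finset.sum_congr rfl fun _ _ => Finset.sum_congr rfl fun _ _ => by ring
    · simp
  · split_ifs
    · simp only [Finset.sum_mul, Finset.mul_sum]
      rw [Finset.sum_comm]
      exact Finset.sum_congr rfl fun _ _ => Finset.sum_congr rfl fun _ _ => by ring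
    · simp

lemma qZ_ZX : qZ Y (Z * X) =
    (∑ p : Tri a b c, ∑ p' : Tri a b c,
      ((if p.2.1 < p'.2.1 ∧ p'.2.2 < p.2.2 then w1 X Y Z p p' else 0)
      + (if p.2.1 < p'.2.1 ∧ p'.2.2 ≤ p.2.2 then w2 X Y Z p p' else 0)))
    + ∑ j, ∑ k, bin2 (Y j k) * (Z * X) k j := by
  unfold qZ
  congr 1
  rw [six'', ← Finset.sum_add_distrib]
  refine Finset.sum_congr rfl fun j _ => ?_
  rw [← Finset.sum_add_distrib]
  refine Finset.sum_congr rfl fun j' _ => ?_
  rw [← Finset.sum_add_distrib]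
  refine Finset.sum_congr rfl fun k _ => ?_
  rw [← Finset.sum_add_distrib]
  refine Finset.sum_congr rfl fun k' _ => ?_
  simp only [Finset.sum_add_distrib, Matrix.mul_apply, w1, w2]
  congr 1
  · split_ifs
    · simp only [Finset.sum_mul, Finset.mul_sum]
      rw [Finset.sum_comm]
      exact Finset.sum_congr rfl fun _ _ => Finset.sum_congr rfl fun _ _ => by ring
    · simp
  · split_ifs
    · simp only [Finset.sum_mul, Finset.mul_sum]
      exact Finset.sum_congr rfl fun _ _ => Finset.sum_congr rfl fun _ _ => by ring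
    · simp

lemma zmod2_sq (x : ZMod 2) : x * x = x := by revert x; decide

lemma third : ((∑ i, ∑ k, bin2 ((X * Y) i k) * Z k i : ℤ) : ZMod 2) =
    ((∑ i, ∑ j, bin2 (X i j) * (Y * Z) j i : ℤ) : ZMod 2)
    + ((∑ j, ∑ k, bin2 (Y j k) * (Z * X) k j : ℤ) : ZMod 2)
    + ∑ p : Tri a b c, ∑ p' : Tri a b c,
      (if p.1 = p'.1 ∧ p.2.2 = p'.2.2 ∧ p.2.1 < p'.2.1 then (w1 X Y Z p p' : ZMod 2) else 0) := by
  have h3 : ∑ p : Tri a b c, ∑ p' : Tri a b c,
      (if p.1 = p'.1 ∧ p.2.2 = p'.2.2 ∧ p.2.1 < p'.2.1 then (w1 X Y Z p p' : ZMod 2) else 0)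
      = ∑ i, ∑ k, ∑ j, ∑ j', if j < j' then
          ((X i j : ZMod 2) * Y j k * (X i j' * Y j' k) * Z k i) else 0 := by
    rw [six]
    refine Finset.sum_congr rfl fun i _ => ?_
    rw [Finset.sum_eq_single i]
    · refine Finset.sum_congr rfl fun k _ => ?_
      rw [Finset.sum_eq_single k]
      · refine Finset.sum_congr rfl fun j _ => Finset.sum_congr rfl fun j' _ => ?_
        simp only [true_and, w1]
        split_ifs
        · push_cast
          linear_combination (X i j * Y j k * (X i j' * Y j' k) : ZMod 2) * zmod2_sq (Z k i)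
        · rfl
      · intro k' _ hk; simp [hk.symm]
      · simp
    · intro i' _ hi; simp [hi.symm]
    · simp
  have h1 : ((∑ i, ∑ j, bin2 (X i j) * (Y * Z) j i : ℤ) : ZMod 2)
      = ∑ i, ∑ k, ∑ j, ((bin2 (X i j) : ZMod 2) * Y j k * Z k i) := by
    push_cast
    refine Finset.sum_congr rfl fun i _ => ?_
    rw [Finset.sum_comm]
    refine Finset.sum_congr rfl fun j _ => ?_
    simp only [Matrix.mul_apply]
    push_cast
    rw [Finset.mul_sum]
    exact Finset.sum_congr rfl fun _ _ => by ring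
  have h2 : ((∑ j, ∑ k, bin2 (Y j k) * (Z * X) k j : ℤ) : ZMod 2)
      = ∑ i, ∑ k, ∑ j, ((X i j : ZMod 2) * bin2 (Y j k) * Z k i) := by
    push_cast
    calc ∑ j, ∑ k, ((bin2 (Y j k) : ZMod 2) * ((Z * X) k j : ℤ))
        = ∑ j, ∑ k, ∑ i, ((X i j : ZMod 2) * bin2 (Y j k) * Z k i) := by
          refine Finset.sum_congr rfl fun j _ => Finset.sum_congr rfl fun k _ => ?_
          simp only [Matrix.mul_apply]
          push_cast
          rw [Finset.mul_sum]
          exact Finset.sum_congr rfl fun _ _ => by ring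
      _ = ∑ k, ∑ j, ∑ i, ((X i j : ZMod 2) * bin2 (Y j k) * Z k i) := Finset.sum_comm
      _ = ∑ k, ∑ i, ∑ j, ((X i j : ZMod 2) * bin2 (Y j k) * Z k i) :=
          Finset.sum_congr rfl fun _ _ => Finset.sum_comm
      _ = _ := Finset.sum_comm
  rw [h1, h2, h3, ← Finset.sum_add_distrib, ← Finset.sum_add_distrib]
  push_cast
  refine Finset.sum_congr rfl fun i _ => ?_
  rw [← Finset.sum_add_distrib, ← Finset.sum_add_distrib]
  refine Finset.sum_congr rfl fun k _ => ?_
  rw [Matrix.mul_apply, bin2_sum]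
  push_cast
  rw [add_mul, Finset.sum_mul, Finset.sum_mul]
  refine congrArg₂ (· + ·) ?_ ?_
  · rw [← Finset.sum_add_distrib]
    refine Finset.sum_congr rfl fun j _ => ?_
    rw [bin2_mul]
    push_cast
    linear_combination ((bin2 (X i j) : ZMod 2) * Z k i) * zmod2_sq (Y j k)
  · refine Finset.sum_congr rfl fun j _ => ?_
    rw [Finset.sum_mul]
    refine Finset.sum_congr rfl fun j' _ => ?_
    split_ifs <;> simp

/-- indicator -/
def ind (P : Prop) [Decidable P] : ZMod 2 := if P then 1 else 0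

lemma ite_eq_ind (P : Prop) [Decidable P] (x : ℤ) :
    (((if P then x else 0 : ℤ)) : ZMod 2) = ind P * (x : ZMod 2) := by
  unfold ind; split_ifs <;> simp

lemma ite_eq_ind' (P : Prop) [Decidable P] (x : ZMod 2) :
    (if P then x else 0) = ind P * x := by
  unfold ind; split_ifs <;> simp

/-- swap of the last coordinates -/
def swapK : Tri a b c × Tri a b c ≃ Tri a b c × Tri a b c where
  toFun x := ((x.1.1, x.1.2.1, x.2.2.2), (x.2.1, x.2.2.1, x.1.2.2))
  invFun x := ((x.1.1, x.1.2.1, x.2.2.2), (x.2.1, x.2.2.1, x.1.2.2))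
  left_inv _ := rfl
  right_inv _ := rfl

theorem q_triangle : q (X * Y) Z = q X (Y * Z) + q Y (Z * X) := by
  unfold q
  rw [qZ_XY, qZ_YZ, qZ_ZX]
  rw [Int.cast_add, Int.cast_add, Int.cast_add, third]
  simp only [Int.cast_sum, Int.cast_add, ite_eq_ind, ite_eq_ind']
  set c1 : Tri a b c → Tri a b c → ZMod 2 := fun p p' =>
    ind (p.1 < p'.1 ∧ p'.2.2 < p.2.2) + ind (p.1 < p'.1 ∧ p'.2.1 < p.2.1)
      + ind (p.2.1 < p'.2.1 ∧ p'.2.2 < p.2.2)
      + ind (p.1 = p'.1 ∧ p.2.2 = p'.2.2 ∧ p.2.1 < p'.2.1) with hc1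
  set c2 : Tri a b c → Tri a b c → ZMod 2 := fun p p' =>
    ind (p.1 < p'.1 ∧ p'.2.2 ≤ p.2.2) + ind (p.1 < p'.1 ∧ p'.2.1 ≤ p.2.1)
      + ind (p.2.1 < p'.2.1 ∧ p'.2.2 ≤ p.2.2) with hc2
  have key : ∑ p, ∑ p', (c1 p p' * (w1 X Y Z p p' : ZMod 2) + c2 p p' * (w2 X Y Z p p' : ZMod 2))
      = 0 := by
    -- split the second weight into three regions
    set eJ : Tri a b c → Tri a b c → ZMod 2 := fun p p' => ind (p.2.1 = p'.2.1) with heJ
    set eO : Tri a b c → Tri a b c → ZMod 2 := fun p p' =>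
      ind (p.2.1 ≠ p'.2.1 ∧ (p.1 = p'.1 ∨ p.2.2 = p'.2.2)) with heO
    set eN : Tri a b c → Tri a b c → ZMod 2 := fun p p' =>
      ind (p.2.1 ≠ p'.2.1 ∧ p.1 ≠ p'.1 ∧ p.2.2 ≠ p'.2.2) with heN
    have hsplit : ∀ p p', c2 p p' * (w2 X Y Z p p' : ZMod 2) =
        eJ p p' * c2 p p' * (w2 X Y Z p p' : ZMod 2)
        + eO p p' * c2 p p' * (w1 X Y Z p p' : ZMod 2)
        + eN p p' * c2 p p' * (w2 X Y Z p p' : ZMod 2) := by
      rintro ⟨i, j, k⟩ ⟨i', j', k'⟩
      simp only [heJ, heO, heN, ind]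
      by_cases hj : j = j'
      · simp [hj]
      · by_cases hi : i = i'
        · subst hi
          have : w2 X Y Z (i, j, k) (i, j', k') = w1 X Y Z (i, j, k) (i, j', k') := rfl
          simp [hj, this]
        · by_cases hk : k = k'
          · subst hk
            have : w2 X Y Z (i, j, k) (i', j', k) = w1 X Y Z (i, j, k) (i', j', k) := by
              simp only [w1, w2]; ring
            simp [hj, this]
          · simp [hj, hi, hk]
    have hJ : ∑ p, ∑ p', eJ p p' * c2 p p' * (w2 X Y Z p p' : ZMod 2)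
        = ∑ p : Tri a b c, ∑ p' : Tri a b c,
          eJ p p' * c2 (p.1, p.2.1, p'.2.2) (p'.1, p'.2.1, p.2.2)
            * (w1 X Y Z p p' : ZMod 2) := by
      rw [← Fintype.sum_prod_type', ← Fintype.sum_prod_type']
      refine Fintype.sum_equiv swapK _ _ ?_
      rintro ⟨⟨i, j, k⟩, ⟨i', j', k'⟩⟩
      simp only [swapK, Equiv.coe_fn_mk, heJ, ind]
      by_cases hj : j = j'
      · subst hj
        have : w2 X Y Z (i, j, k) (i', j, k') = w1 X Y Z (i, j, k') (i', j, k) := by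
          simp only [w1, w2]; ring
        rw [this]
      · simp [hj]
    have hN : ∑ p, ∑ p', eN p p' * c2 p p' * (w2 X Y Z p p' : ZMod 2) = 0 := by
      refine sum_swap_zero _ ?_ ?_
      · rintro ⟨i, j, k⟩ ⟨i', j', k'⟩
        have : w2 X Y Z (i', j', k') (i, j, k) = w2 X Y Z (i, j, k) (i', j', k') := by
          simp only [w2]; ring
        rw [this, ← add_mul]
        refine mul_eq_zero_of_left ?_ _
        simp only [heN, hc2, ind]
        rcases lt_trichotomy i i' with hi | hi | hi <;>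
        rcases lt_trichotomy j j' with hj | hj | hj <;>
        rcases lt_trichotomy k k' with hk | hk | hk <;>
        simp [hi, hj, hk, le_of_lt, ne_of_lt, ne_of_gt, not_lt_of_gt, not_le_of_gt] <;> decide
      · rintro ⟨i, j, k⟩; simp [heN, ind]
    have hR : ∑ p : Tri a b c, ∑ p' : Tri a b c,
        (c1 p p' + eJ p p' * c2 (p.1, p.2.1, p'.2.2) (p'.1, p'.2.1, p.2.2) + eO p p' * c2 p p')
          * (w1 X Y Z p p' : ZMod 2) = 0 := by
      refine sum_swap_zero _ ?_ ?_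
      · rintro ⟨i, j, k⟩ ⟨i', j', k'⟩
        have : w1 X Y Z (i', j', k') (i, j, k) = w1 X Y Z (i, j, k) (i', j', k') := by
          simp only [w1]; ring
        rw [this, ← add_mul]
        refine mul_eq_zero_of_left ?_ _
        simp only [heJ, heO, hc1, hc2, ind]
        rcases lt_trichotomy i i' with hi | hi | hi <;>
        rcases lt_trichotomy j j' with hj | hj | hj <;>
        rcases lt_trichotomy k k' with hk | hk | hk <;>
        simp [hi, hj, hk, le_of_lt, ne_of_lt, ne_of_gt, not_lt_of_gt, not_le_of_gt] <;> decide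
      · rintro ⟨i, j, k⟩; simp [heJ, heO, hc1, hc2, ind]
    simp only [hsplit, Finset.sum_add_distrib, add_mul] at hR ⊢
    rw [hJ, hN]
    linear_combination hR
  simp only [hc1, hc2, add_mul, Finset.sum_add_distrib] at key ⊢
  have h2 : ∀ x : ZMod 2, x + x = 0 := by decide
  linear_combination key
    - h2 (∑ p : Tri a b c, ∑ p' : Tri a b c,
        ind (p.1 < p'.1 ∧ p'.2.1 < p.2.1) * (w1 X Y Z p p' : ZMod 2))
    - h2 (∑ p : Tri a b c, ∑ p' : Tri a b c,
        ind (p.2.1 < p'.2.1 ∧ p'.2.2 < p.2.2) * (w1 X Y Z p p' : ZMod 2))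
    - h2 (∑ p : Tri a b c, ∑ p' : Tri a b c,
        ind (p.1 < p'.1 ∧ p'.2.1 ≤ p.2.1) * (w2 X Y Z p p' : ZMod 2))
    - h2 (∑ p : Tri a b c, ∑ p' : Tri a b c,
        ind (p.2.1 < p'.2.1 ∧ p'.2.2 ≤ p.2.2) * (w2 X Y Z p p' : ZMod 2))

end Triangle

lemma q_one_left {n : ℕ} (A : Matrix (Fin n) (Fin n) ℤ) : q 1 A = 0 := by
  have h := q_triangle (1 : Matrix (Fin n) (Fin n) ℤ) 1 A
  simp only [Matrix.mul_one, Matrix.one_mul] at h
  have h2 : ∀ x : ZMod 2, x = x + x → x = 0 := by decide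
  exact h2 _ h

/-- vanishing for nonnegative matrices without points of period one and two -/
lemma q_eq_zero_of_nonneg {n m : ℕ} (R : Matrix (Fin n) (Fin m) ℕ) (S : Matrix (Fin m) (Fin n) ℕ)
    (h1 : (R * S).trace = 0) (h2 : (R * S * (R * S)).trace = 0) :
    q (R.map (Nat.cast : ℕ → ℤ)) (S.map (Nat.cast : ℕ → ℤ)) = 0 := by
  have a1 : ∀ i k, R i k * S k i = 0 := by
    intro i k
    simp only [Matrix.trace, Matrix.diag, Matrix.mul_apply, Finset.sum_eq_zero_iff,
      Finset.mem_univ, true_implies] at h1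
    exact h1 i k
  have a2 : ∀ i j k l, R i k * S k j * (R j l * S l i) = 0 := by
    intro i j k l
    simp only [Matrix.trace, Matrix.diag, Matrix.mul_apply, Finset.sum_mul_sum,
      Finset.sum_eq_zero_iff, Finset.mem_univ, true_implies] at h2
    exact h2 i j k l
  unfold q qZ
  have b1 : ∀ i k, ((R i k : ℤ)) * (S k i : ℤ) = 0 := fun i k => by exact_mod_cast a1 i k
  have b2 : ∀ i j k l, (R i k : ℤ) * (S k j : ℤ) * ((R j l : ℤ) * (S l i : ℤ)) = 0 :=
    fun i j k l => by exact_mod_cast a2 i j k l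
  have b3 : ∀ i k, bin2 (R i k : ℤ) * (S k i : ℤ) = 0 := by
    intro i k
    rcases mul_eq_zero.mp (b1 i k) with h | h
    · rw [h]; simp [bin2]
    · rw [h]; simp
  simp only [Matrix.map_apply, b1, b2, b3]
  simp

/-- A path of elementary strong shift equivalences over the integers, with product matrix,
total sign-gyration number and length. -/
inductive Chain : {n m : ℕ} → Matrix (Fin n) (Fin n) ℤ → Matrix (Fin m) (Fin m) ℤ →
    Matrix (Fin n) (Fin m) ℤ → ZMod 2 → ℕ → Prop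
  | one {n m : ℕ} (R : Matrix (Fin n) (Fin m) ℤ) (S : Matrix (Fin m) (Fin n) ℤ) :
      Chain (R * S) (S * R) R (q R S) 0
  | cons {n m p : ℕ} (R : Matrix (Fin n) (Fin m) ℤ) (S : Matrix (Fin m) (Fin n) ℤ)
      {B : Matrix (Fin p) (Fin p) ℤ} {W : Matrix (Fin m) (Fin p) ℤ} {c : ZMod 2} {l : ℕ}
      (h : Chain (S * R) B W c l) : Chain (R * S) B (R * W) (q R S + c) (l + 1)

lemma Chain.congr {n m : ℕ} {A A' : Matrix (Fin n) (Fin n) ℤ} {B B' : Matrix (Fin m) (Fin m) ℤ}
    {W W' : Matrix (Fin n) (Fin m) ℤ} {c c' : ZMod 2} {l : ℕ} (h : Chain A B W c l)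
    (hA : A = A') (hB : B = B') (hW : W = W') (hc : c = c') : Chain A' B' W' c' l := by
  subst hA hB hW hc; exact h

lemma Chain.intertw {n m : ℕ} {A : Matrix (Fin n) (Fin n) ℤ} {B : Matrix (Fin m) (Fin m) ℤ}
    {W : Matrix (Fin n) (Fin m) ℤ} {c : ZMod 2} {l : ℕ} (h : Chain A B W c l) :
    A * W = W * B := by
  induction h with
  | one R S => simp [Matrix.mul_assoc]
  | cons R S h ih =>
    rw [Matrix.mul_assoc R _ _, Matrix.mul_assoc R _ _, ← ih, ← Matrix.mul_assoc S]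

/-- factorization of an integer matrix through its image -/
lemma exists_factor {n m : ℕ} (R : Matrix (Fin n) (Fin m) ℤ) :
    ∃ (r : ℕ) (U : Matrix (Fin n) (Fin r) ℤ) (V : Matrix (Fin r) (Fin m) ℤ)
      (σ : Matrix (Fin m) (Fin r) ℤ), R = U * V ∧ V * σ = 1 ∧
      ∀ (p : ℕ) (M N : Matrix (Fin r) (Fin p) ℤ), U * M = U * N → M = N := by
  set f := Matrix.toLin' R with hf
  let N := LinearMap.range f
  obtain ⟨r, ⟨b⟩⟩ : ∃ r, Nonempty (Module.Basis (Fin r) ℤ N) :=
    ⟨_, ⟨Module.finBasis ℤ N⟩⟩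
  let u : (Fin r → ℤ) →ₗ[ℤ] (Fin n → ℤ) := N.subtype ∘ₗ b.equivFun.symm.toLinearMap
  let v : (Fin m → ℤ) →ₗ[ℤ] (Fin r → ℤ) := b.equivFun.toLinearMap ∘ₗ f.rangeRestrict
  have hv : Function.Surjective v :=
    b.equivFun.surjective.comp f.surjective_rangeRestrict
  obtain ⟨s, hs⟩ := Module.projective_lifting_property v LinearMap.id hv
  have hu : Function.Injective u := N.injective_subtype.comp b.equivFun.symm.injective
  refine ⟨r, LinearMap.toMatrix' u, LinearMap.toMatrix' v, LinearMap.toMatrix' s, ?_, ?_, ?_⟩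
  · rw [← LinearMap.toMatrix'_comp]
    have : u ∘ₗ v = f := by
      ext x i
      simp [u, v]
    rw [this, hf, LinearMap.toMatrix'_toLin']
  · rw [← LinearMap.toMatrix'_comp, hs, LinearMap.toMatrix'_id]
  · intro p M M' h
    apply Matrix.toLin'.injective
    have h' := congrArg Matrix.toLin' h
    rw [Matrix.toLin'_mul, Matrix.toLin'_mul, Matrix.toLin'_toMatrix'] at h'
    refine LinearMap.ext fun x => hu ?_
    exact LinearMap.congr_fun h' x

lemma Chain.shorten {n m : ℕ} {A : Matrix (Fin n) (Fin n) ℤ} {B : Matrix (Fin m) (Fin m) ℤ}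
    {W : Matrix (Fin n) (Fin m) ℤ} {c : ZMod 2} {l : ℕ} (h : Chain A B W c l)
    (hB : ∃ B' : Matrix (Fin m) (Fin m) ℤ, B' * B = 1) :
    ∀ {r : ℕ} (V : Matrix (Fin r) (Fin n) ℤ) (Z σ : Matrix (Fin n) (Fin r) ℤ),
      A = Z * V → V * σ = 1 → Chain (V * Z) B (V * W) (q V Z + c) l := by
  induction h with
  | one R S =>
    intro r V Z σ hA hσ
    obtain ⟨B', hB'⟩ := hB
    have e1 : R * (S * σ) = Z := by
      rw [← Matrix.mul_assoc, hA, Matrix.mul_assoc, hσ, Matrix.mul_one]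
    have e2 : S * σ * V = S := by
      have : R * (S * σ * V) = R * S := by rw [← Matrix.mul_assoc, e1, hA]
      calc S * σ * V = B' * (S * R) * (S * σ * V) := by rw [hB', Matrix.one_mul]
        _ = B' * (S * (R * (S * σ * V))) := by simp only [Matrix.mul_assoc]
        _ = B' * (S * R) * S := by rw [this]; simp only [Matrix.mul_assoc]
        _ = S := by rw [hB', Matrix.one_mul]
    refine (Chain.one (V * R) (S * σ)).congr ?_ ?_ rfl ?_
    · rw [Matrix.mul_assoc, e1]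
    · rw [← Matrix.mul_assoc, e2]
    · rw [q_triangle, e1, e2]
  | cons R S h ih =>
    intro r V Z σ hA hσ
    obtain ⟨t, U, V', σ', hR, hσ', hU⟩ := exists_factor R
    have ih' := ih hB V' (S * U) σ' (by rw [hR, Matrix.mul_assoc]) hσ'
    have e1 : U * (V' * S * σ) = Z := by
      rw [← Matrix.mul_assoc, ← Matrix.mul_assoc, ← hR, hA, Matrix.mul_assoc, hσ, Matrix.mul_one]
    have e2 : V' * S * σ * V = V' * S := by
      apply hU
      rw [← Matrix.mul_assoc, e1, ← hA, ← Matrix.mul_assoc, ← hR]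
    have e3 : V' * S * σ * (V * U) = V' * (S * U) := by
      rw [← Matrix.mul_assoc, e2, Matrix.mul_assoc]
    rw [← e3] at ih'
    refine (Chain.cons (V * U) (V' * S * σ) ih').congr ?_ rfl ?_ ?_
    · rw [Matrix.mul_assoc, e1]
    · rw [hR]; simp only [Matrix.mul_assoc]
    · rw [q_triangle, e1, e2, hR, q_triangle U V' S]
      ring

/-- homotopy invariance: a chain between invertible matrices can be shortened to one edge -/
theorem Chain.to_one : ∀ (l : ℕ) {n m : ℕ} {A : Matrix (Fin n) (Fin n) ℤ}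
    {B : Matrix (Fin m) (Fin m) ℤ} {W : Matrix (Fin n) (Fin m) ℤ} {c : ZMod 2},
    Chain A B W c l → (∃ A' : Matrix (Fin n) (Fin n) ℤ, A * A' = 1) →
    (∃ B' : Matrix (Fin m) (Fin m) ℤ, B' * B = 1) →
    ∃ S, W * S = A ∧ c = q W S := by
  intro l
  induction l with
  | zero =>
    intro n m A B W c h _ _
    cases h with
    | one R S => exact ⟨S, rfl, rfl⟩
  | succ l ih =>
    intro n m A B W c h hA hB
    cases h with
    | cons R S h =>
      obtain ⟨A', hA'⟩ := hA
      have := h.shorten hB R S (S * A') rfl (by rw [← Matrix.mul_assoc, hA'])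
      exact ih this ⟨A', hA'⟩ hB

end Pool.Agent.P.MP_7da47b_al
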