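import Pool.Agent.P.MP_7da47b_al.Core
import Pool.Agent.P.MP_7da47b_al.Sgc

/-!
Two comparable Leavitt families in one algebra give a chain of elementary equivalences.
-/

namespace Pool.Agent.P.MP_7da47b_al

open Module Function FRep Finset Matrix

universe u

variable {k : Type u} [Field k] {L : Type u} [Ring L] [Algebra k L]

/-- cast of a matrix -/
abbrev cZ {n m : ℕ} (M : Matrix (Fin n) (Fin m) ℕ) : Matrix (Fin n) (Fin m) ℤ :=
  M.map (Nat.cast : ℕ → ℤ)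

lemma cZ_mul {n m p : ℕ} (M : Matrix (Fin n) (Fin m) ℕ) (N : Matrix (Fin m) (Fin p) ℕ) :
    cZ (M * N) = cZ M * cZ N := by
  ext i j
  simp [Matrix.mul_apply]

section Tower

variable {J : Type} [Fintype J] [DecidableEq J] (fr : Frame L J) (D : ℕ → Subalgebra k L)
  (hmono : Monotone D) (hu : ∀ i j, fr.u j ∈ D i)
  (hdown : ∀ i, ∀ d ∈ D (i + 1), ∀ j j', fr.b j * d * fr.a j' ∈ D i)

include hmono hdown in
lemma tower_self (i : ℕ) : ∀ d ∈ D i, ∀ j j', fr.b j * d * fr.a j' ∈ D i :=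
  fun d hd => hdown i d (hmono (Nat.le_succ i) hd)

lemma tower_XY (i : ℕ) {n n' : ℕ} (B : MB k (D i) n) (B' : MB k (D (i + 1)) n') :
    B'.mat B (res (hmono (Nat.le_succ i))) * B.mat B' (Tr fr (hu i) (hdown i))
      = B'.mat B' (Tr fr (hu _) (tower_self fr D hmono hdown _)) := by
  rw [MB.mat_mul _ _ _ _ _ (Tr_exact fr _ _)]
  exact MB.mat_congr _ _ _ _ (Tr_res_iso fr _ _ _ _ _)

lemma tower_YX (i : ℕ) {n n' : ℕ} (B : MB k (D i) n) (B' : MB k (D (i + 1)) n') :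
    B.mat B' (Tr fr (hu i) (hdown i)) * B'.mat B (res (hmono (Nat.le_succ i)))
      = B.mat B (Tr fr (hu _) (tower_self fr D hmono hdown _)) := by
  rw [MB.mat_mul _ _ _ _ _ (res_exact _)]
  exact MB.mat_congr _ _ _ _ (res_Tr_iso fr _ _ _ _)

lemma trace_swap {n m : ℕ} (X : Matrix (Fin n) (Fin m) ℕ) (Y : Matrix (Fin m) (Fin n) ℕ)
    (h : (Y * X).trace = 0 ∧ (Y * X * (Y * X)).trace = 0) :
    (X * Y).trace = 0 ∧ (X * Y * (X * Y)).trace = 0 := by
  refine ⟨by rw [Matrix.trace_mul_comm, h.1], ?_⟩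
  rw [Matrix.mul_assoc, Matrix.trace_mul_comm, ← h.2]
  simp only [Matrix.mul_assoc]

theorem tower_chain (fd : ∀ i, FiniteDimensional k (D i)) {n₀ : ℕ} (B₀ : MB k (D 0) n₀)
    (A₀ : Matrix (Fin n₀) (Fin n₀) ℕ)
    (hA₀ : B₀.mat B₀ (Tr fr (hu _) (tower_self fr D hmono hdown _)) = A₀)
    (h0 : A₀.trace = 0 ∧ (A₀ * A₀).trace = 0) :
    ∀ (i : ℕ) {n : ℕ} (B : MB k (D (i + 1)) n) (A : Matrix (Fin n) (Fin n) ℕ)
      (_ : B.mat B (Tr fr (hu _) (tower_self fr D hmono hdown _)) = A),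
      Chain (cZ A) (cZ A₀) (cZ (B.mat B₀ (res (hmono (Nat.zero_le _))))) 0 i ∧
        A.trace = 0 ∧ (A * A).trace = 0 := by
  intro i
  induction i with
  | zero =>
    intro n B A hA
    have h1 := tower_XY fr D hmono hu hdown 0 B₀ B
    have h2 := tower_YX fr D hmono hu hdown 0 B₀ B
    rw [hA] at h1
    rw [hA₀] at h2
    have h3 := trace_swap _ _ (h2 ▸ h0)
    refine ⟨(Chain.one _ _).congr (by rw [← cZ_mul, h1]) (by rw [← cZ_mul, h2]) rfl
      (q_eq_zero_of_nonneg _ _ h3.1 h3.2), h1 ▸ h3⟩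
  | succ i ih =>
    intro n B A hA
    have := fd (i + 1)
    obtain ⟨n', ⟨B'⟩⟩ := exists_MB (k := k) (D := D (i + 1))
    obtain ⟨hc, ht⟩ := ih B' _ rfl
    have h1 := tower_XY fr D hmono hu hdown (i + 1) B' B
    have h2 := tower_YX fr D hmono hu hdown (i + 1) B' B
    rw [hA] at h1
    rw [← h2] at hc ht
    have h3 := trace_swap _ _ ht
    rw [cZ_mul] at hc
    refine ⟨(Chain.cons _ _ hc).congr (by rw [← cZ_mul, h1]) rfl ?_
      (by rw [q_eq_zero_of_nonneg _ _ h3.1 h3.2, add_zero]), h1 ▸ h3⟩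
    rw [← cZ_mul, MB.mat_mul _ _ _ _ _ (res_exact _)]
    congr 1

end Tower

namespace Fam

variable {G H : FinGraph} (Φ : Fam L G) (Ψ : Fam L H)

variable (k) in
/-- comparability of two families -/
structure Cmp (b : ℕ) : Prop where
  ts : ∀ e f, Φ.Bd k (Φ.t e * Ψ.s f) b b
  st : ∀ e f, Φ.Bd k (Ψ.t f * Φ.s e) b b
  p : ∀ w, Φ.Bd k (Ψ.p w) b b

variable {Φ Ψ}

lemma sandwich (x : L) (e e' : Fin G.nE) : Φ.t e * x * Φ.s e'
    = ∑ f, ∑ f', (Φ.t e * Ψ.s f) * (Ψ.t f * x * Ψ.s f') * (Ψ.t f' * Φ.s e') := by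
  have h1 : ∑ e, Ψ.s e * Ψ.t e = 1 := Ψ.edgeFrame.sum
  calc Φ.t e * x * Φ.s e'
      = Φ.t e * ((∑ f, Ψ.s f * Ψ.t f) * x * (∑ f, Ψ.s f * Ψ.t f)) * Φ.s e' := by rw [h1]; simp
    _ = _ := by
      simp only [Finset.sum_mul, Finset.mul_sum, mul_assoc]
      exact Finset.sum_comm

lemma Cmp.bd {b : ℕ} (h : Cmp k Φ Ψ b) : ∀ (j : ℕ) (x : L), Ψ.Bd k x j j →
    Φ.Bd k x (b + j) (b + j) := by
  intro j
  induction j with
  | zero =>
    intro x hx
    have hx' := hx.to_P0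
    clear hx
    induction hx' using Submodule.span_induction with
    | mem x hx => obtain ⟨v, rfl⟩ := hx; exact h.p v
    | zero => exact Bd.zero
    | add x y _ _ hx hy => exact hx.add hy
    | smul c x _ hx => exact hx.smul c
  | succ j ih =>
    intro x hx
    refine Bd.up (i := b + j) fun e e' => ?_
    rw [sandwich (Ψ := Ψ)]
    refine Bd.sum _ _ fun f _ => Bd.sum _ _ fun f' _ => ?_
    exact (((h.ts e f).mono (by omega)).mul (ih _ (hx.down f f'))).mul ((h.st e' f').mono (by omega))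

theorem exists_chain {n m : ℕ} (C : Core G n) (C' : Core H m) {a b : ℕ} (h : Cmp k Φ Ψ b)
    (h' : Cmp k Ψ Φ a) (h0 : C.adjᵀ.trace = 0 ∧ (C.adjᵀ * C.adjᵀ).trace = 0) :
    ∃ (W : Matrix (Fin m) (Fin n) ℕ) (l : ℕ), Chain (cZ C'.adjᵀ) (cZ C.adjᵀ) (cZ W) 0 l ∧
      ∀ w, C'.dim (a + b + 1) w = ∑ v, W w v * C.dim (b + 1) v := by
  let D : ℕ → Subalgebra k L := fun j => Φ.P k (b + 1) ⊔ Ψ.P k j
  have hmono : Monotone D := fun i j hij =>
    sup_le_sup_left (fun x hx => Bd.mono (Φ := Ψ) hx hij) _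
  have hP : ∀ j x, Φ.Bd k x (b + 1) (b + 1) → x ∈ D j := fun j x hx =>
    (le_sup_left : Φ.P k (b + 1) ≤ D j) hx
  have hQ : ∀ j x, Ψ.Bd k x j j → x ∈ D j := fun j x hx =>
    (le_sup_right : Ψ.P k j ≤ D j) hx
  have hu : ∀ i j, Φ.edgeFrame.u j ∈ D i := fun i j => hP i _ (Bd.p _ _)
  have hle : ∀ j, D j ≤ Φ.P k (b + 1 + j) := fun j =>
    sup_le (fun x hx => Bd.mono (Φ := Φ) hx (by omega))
      (fun x hx => (h.bd j x hx).mono (by omega))
  have hdown : ∀ i, ∀ d ∈ D (i + 1), ∀ j j', Φ.edgeFrame.b j * d * Φ.edgeFrame.a j' ∈ D i := by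
    intro i
    let T : Subalgebra k L :=
      { carrier := {d | ∀ e e', Φ.t e * d * Φ.s e' ∈ D i}
        mul_mem' := fun {x y} hx hy e e' => by
          have := Φ.edgeFrame.insert (Φ.t e * x) (y * Φ.s e')
          rw [show Φ.t e * (x * y) * Φ.s e' = (Φ.t e * x) * (y * Φ.s e') by
            simp only [mul_assoc], this]
          refine Subalgebra.sum_mem _ fun f _ => Subalgebra.mul_mem _ (hx e f) ?_
          have := hy f e'
          rwa [mul_assoc] at this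
        add_mem' := fun {x y} hx hy e e' => by
          rw [mul_add, add_mul]; exact add_mem (hx e e') (hy e e')
        algebraMap_mem' := fun c e e' => hP i _ (((Φ.P k (b + 2)).algebraMap_mem c).down e e') }
    have : D (i + 1) ≤ T := by
      refine sup_le (fun x hx e e' => hP i _ ((Bd.succ (Φ := Φ) hx).down e e')) fun x hx e e' => ?_
      rw [sandwich (Ψ := Ψ)]
      refine Subalgebra.sum_mem _ fun f _ => Subalgebra.sum_mem _ fun f' _ => ?_
      exact Subalgebra.mul_mem _ (Subalgebra.mul_mem _ (hP i _ (h.ts e f).succ)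
        (hQ i _ (Bd.down (Φ := Ψ) hx f f'))) (hP i _ (h.st e' f').succ)
    exact fun d hd => this hd
  have fd : ∀ i, FiniteDimensional k (D i) := fun i =>
    Φ.fd_of_Bd k (b + 1 + i) (b + 1 + i) (Subalgebra.toSubmodule (D i)) fun x hx => hle i hx
  have hD0 : ∀ x, x ∈ D 0 ↔ Φ.Bd k x (b + 1) (b + 1) := fun x => ⟨fun hx => hle 0 hx, hP 0 x⟩
  have hDm : ∀ x, x ∈ D (a + b + 1) ↔ Ψ.Bd k x (a + b + 1) (a + b + 1) := fun x =>
    ⟨fun hx => (sup_le (fun y hy => h'.bd (b + 1) y hy) le_rfl :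
      D (a + b + 1) ≤ Ψ.P k (a + b + 1)) hx, hQ _ x⟩
  obtain ⟨B₀, hd₀, hB₀⟩ := exists_endMB C hD0
  obtain ⟨B, hd, hB⟩ := exists_endMB C' hDm
  have hmat : B.mat B (Tr Φ.edgeFrame (hu _) (tower_self Φ.edgeFrame D hmono hdown _))
      = C'.adjᵀ := by
    rw [← hB (fun f => hQ _ _ (Bd.p _ _))
      (fun d hd f f' => hQ _ _ (((hDm d).1 hd).succ.down f f'))]
    refine MB.mat_congr _ _ _ _ (Tr_Tr_iso _ _ _ _ _ _ ?_ ?_)
    · exact fun f e => hQ _ _ ((h'.ts f e).mono (by omega))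
    · exact fun e f => hQ _ _ ((h'.st f e).mono (by omega))
  obtain ⟨hc, -⟩ := tower_chain Φ.edgeFrame D hmono hu hdown fd B₀ _ (hB₀ _ _) h0 (a + b) B _ hmat
  refine ⟨_, _, hc, fun w => ?_⟩
  rw [← hd]
  simp only [← hd₀]
  exact B₀.expand _ additive_finrank (res (hmono (Nat.zero_le _)) (B.S w))

end Fam

end Pool.Agent.P.MP_7da47b_al
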